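import Pool.Agent.Helper15.FC.St3

set_option autoImplicit false

/-!
Module TLB of project FC.
-/

open Polynomial

namespace Pool.Agent.Helper15.FC

theorem tlb_q (F : Type) [Field F] [Fintype F] : (2 : ℝ) ≤ qr F := by
  unfold qr
  exact_mod_cast Fintype.one_lt_card (α := F)

open scoped Classical in
theorem tlb_card {F : Type} [Field F] [Fintype F] {d : F[X]} (hd : d.Monic) (i : ℕ) :
    qr F ^ d.natDegree * (((Mn F i).filter (fun r => d ∣ r)).card : ℝ) ≤ qr F ^ i := by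
  have hq : (2 : ℝ) ≤ qr F := tlb_q F
  by_cases hi : d.natDegree ≤ i
  · have hsub : (Mn F i).filter (fun r => d ∣ r) ⊆ (Mn F (i - d.natDegree)).image (fun s => d * s) := by
      intro r hr
      rw [Finset.mem_filter, mem_Mn] at hr
      obtain ⟨⟨hrm, hrd⟩, s, hs⟩ := hr
      rw [Finset.mem_image]
      refine ⟨s, ?_, hs.symm⟩
      have hsm : s.Monic := hd.of_mul_monic_left (by rw [← hs]; exact hrm)
      rw [mem_Mn]
      refine ⟨hsm, ?_⟩
      rw [hs, hd.natDegree_mul hsm] at hrd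
      omega
    have h1 : ((Mn F i).filter (fun r => d ∣ r)).card ≤ Fintype.card F ^ (i - d.natDegree) := by
      refine (Finset.card_le_card hsub).trans ?_
      refine Finset.card_image_le.trans ?_
      rw [card_Mn]
    have h2 : (((Mn F i).filter (fun r => d ∣ r)).card : ℝ) ≤ qr F ^ (i - d.natDegree) := by
      unfold qr
      exact_mod_cast h1
    calc qr F ^ d.natDegree * (((Mn F i).filter (fun r => d ∣ r)).card : ℝ)
        ≤ qr F ^ d.natDegree * qr F ^ (i - d.natDegree) := by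
          exact mul_le_mul_of_nonneg_left h2 (by positivity)
      _ = qr F ^ i := by rw [← pow_add]; congr 1; omega
  · have h0 : (Mn F i).filter (fun r => d ∣ r) = ∅ := by
      rw [Finset.filter_eq_empty_iff]
      intro r hr hdr
      rw [mem_Mn] at hr
      have := Polynomial.natDegree_le_of_dvd hdr hr.1.ne_zero
      omega
    rw [h0]
    simp only [Finset.card_empty, Nat.cast_zero, mul_zero]
    positivity

open scoped Classical in
theorem tlb_sum {F : Type} [Field F] [Fintype F] {h : F[X]} (hh : h ≠ 0) (i : ℕ) :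
    ∑ r ∈ Mn F i, ∑ d ∈ (Dv r).filter (fun d => d ∣ h), qr F ^ d.natDegree ≤
      tau h * qr F ^ i := by
  have h1 : ∀ r ∈ Mn F i, ∑ d ∈ (Dv r).filter (fun d => d ∣ h), qr F ^ d.natDegree =
      ∑ d ∈ Dv h, if d ∣ r then qr F ^ d.natDegree else 0 := by
    intro r hr
    have hr0 : r ≠ 0 := (mem_Mn.1 hr).1.ne_zero
    rw [← Finset.sum_filter]
    refine Finset.sum_congr ?_ fun _ _ => rfl
    ext d
    rw [Finset.mem_filter, Finset.mem_filter, mem_Dv hr0, mem_Dv hh]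
    tauto
  rw [Finset.sum_congr rfl h1, Finset.sum_comm]
  unfold tau
  rw [← nsmul_eq_mul]
  refine Finset.sum_le_card_nsmul _ _ _ ?_
  intro d hd
  rw [← Finset.sum_filter, Finset.sum_const, nsmul_eq_mul, mul_comm]
  exact tlb_card ((mem_Dv hh).1 hd).1 i

open scoped Classical in
theorem tlb_cram {F : Type} [Field F] [Fintype F] (r h : F[X]) :
    |(cram r h : ℝ)| ≤ ∑ d ∈ (Dv r).filter (fun d => d ∣ h), qr F ^ d.natDegree := by
  unfold cram
  rw [Int.cast_sum]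
  refine (Finset.abs_sum_le_sum_abs _ _).trans ?_
  refine Finset.sum_le_sum fun d _ => ?_
  rw [Int.cast_mul, abs_mul]
  have h1 : |((mob (r / d) : ℤ) : ℝ)| ≤ 1 := by
    unfold mob
    split_ifs
    · rw [Int.cast_pow, abs_pow]; simp
    · simp
  have h2 : |(((Fintype.card F : ℤ) ^ d.natDegree : ℤ) : ℝ)| = qr F ^ d.natDegree := by
    unfold qr
    push_cast
    rw [abs_of_nonneg (by positivity)]
  rw [h2]
  calc |((mob (r / d) : ℤ) : ℝ)| * qr F ^ d.natDegree ≤ 1 * qr F ^ d.natDegree :=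
        mul_le_mul_of_nonneg_right h1 (by have := tlb_q F; positivity)
    _ = _ := one_mul _

theorem tlb_poly (q : ℝ) (hq : 2 ≤ q) (k l : ℕ) : ∃ C : ℝ, 0 < C ∧ ∀ i : ℕ,
    (2 + k * i : ℝ) ^ k * (2 + l * i : ℝ) ^ l ≤ C * q ^ ((1 / 8 : ℝ) * i) := by
  have hq1 : (1 : ℝ) < q := by linarith
  have hr : (1 : ℝ) < q ^ (1 / 8 : ℝ) := Real.one_lt_rpow hq1 (by norm_num)
  have hO := (isLittleO_pow_const_const_pow_of_one_lt (R := ℝ) (k + l) hr).isBigO
  obtain ⟨C, hC, hb⟩ := Asymptotics.bound_of_isBigO_nat_atTop hO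
  refine ⟨(2 + k + l : ℝ) ^ (k + l) * (C * q ^ (1 / 8 : ℝ)), by positivity, ?_⟩
  intro i
  have h1 := hb (x := i + 1) (by positivity)
  have hi0 : (0 : ℝ) ≤ i := Nat.cast_nonneg i
  have hk0 : (0 : ℝ) ≤ k := Nat.cast_nonneg k
  have hl0 : (0 : ℝ) ≤ l := Nat.cast_nonneg l
  have h2 : ((i + 1 : ℕ) : ℝ) ^ (k + l) ≤ C * (q ^ (1 / 8 : ℝ)) ^ (i + 1) := by
    have ha : ‖((i + 1 : ℕ) : ℝ) ^ (k + l)‖ = ((i + 1 : ℕ) : ℝ) ^ (k + l) := by
      rw [Real.norm_of_nonneg (by positivity)]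
    have hbb : ‖(q ^ (1 / 8 : ℝ)) ^ (i + 1)‖ = (q ^ (1 / 8 : ℝ)) ^ (i + 1) := by
      rw [Real.norm_of_nonneg (by positivity)]
    rw [ha, hbb] at h1
    exact h1
  have h3 : (q ^ (1 / 8 : ℝ)) ^ (i + 1) = q ^ (1 / 8 : ℝ) * q ^ ((1 / 8 : ℝ) * i) := by
    rw [pow_succ, mul_comm, Real.rpow_mul (by linarith), Real.rpow_natCast]
  have h4 : (2 + k * i : ℝ) ^ k ≤ ((2 + k + l : ℝ) * ((i + 1 : ℕ) : ℝ)) ^ k := by
    refine pow_le_pow_left₀ (by positivity) ?_ k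
    push_cast
    nlinarith [mul_nonneg hk0 hi0, mul_nonneg hl0 hi0]
  have h5 : (2 + l * i : ℝ) ^ l ≤ ((2 + k + l : ℝ) * ((i + 1 : ℕ) : ℝ)) ^ l := by
    refine pow_le_pow_left₀ (by positivity) ?_ l
    push_cast
    nlinarith [mul_nonneg hk0 hi0, mul_nonneg hl0 hi0]
  calc (2 + k * i : ℝ) ^ k * (2 + l * i : ℝ) ^ l
      ≤ ((2 + k + l : ℝ) * ((i + 1 : ℕ) : ℝ)) ^ k * ((2 + k + l : ℝ) * ((i + 1 : ℕ) : ℝ)) ^ l :=
        mul_le_mul h4 h5 (by positivity) (by positivity)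
    _ = (2 + k + l : ℝ) ^ (k + l) * ((i + 1 : ℕ) : ℝ) ^ (k + l) := by
        rw [← pow_add, mul_pow]
    _ ≤ (2 + k + l : ℝ) ^ (k + l) * (C * (q ^ (1 / 8 : ℝ)) ^ (i + 1)) :=
        mul_le_mul_of_nonneg_left h2 (by positivity)
    _ = _ := by rw [h3]; ring

theorem hTLB (hT : StTAU) : StTLB := by
  classical
  intro F _ _ k l P P' hk hl hP hP'
  have hq : (2 : ℝ) ≤ qr F := tlb_q F
  have hq0 : (0 : ℝ) < qr F := by linarith
  set K : ℕ := (2 * k + 2) + (2 * l + 2) with hK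
  have hKpos : (0 : ℝ) < K := by
    rw [hK]; positivity
  obtain ⟨C0, hC0, hb0⟩ := hT F (1 / (8 * K)) (by positivity)
  obtain ⟨C2, hC2, hb2⟩ := tlb_poly (qr F) hq k l
  refine ⟨C2 * C0 ^ K, by positivity, ?_⟩
  intro h a b i hh
  have hterm : ∀ r ∈ Mn F i, |(P r).coeff a| * |(P' r).coeff b| * |(cram r h : ℝ)| ≤
      (C2 * C0 ^ K * (qr F ^ ((1 / 8 : ℝ) * i) * qr F ^ ((1 / 8 : ℝ) * i)) *
        ((qr F ^ i)⁻¹ * (qr F ^ i)⁻¹)) *
        ∑ d ∈ (Dv r).filter (fun d => d ∣ h), qr F ^ d.natDegree := by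
    intro r hr
    obtain ⟨hrm, hrd⟩ := mem_Mn.1 hr
    have h1 := (hP r hrm).2.2 a
    have h2 := (hP' r hrm).2.2 b
    rw [hrd] at h1 h2
    have ht0 : (0 : ℝ) ≤ tau r := by unfold tau; positivity
    have ht : tau r ≤ C0 * qr F ^ ((1 / (8 * K) : ℝ) * i) := by
      have := hb0 r hrm
      rw [hrd] at this
      exact this
    have ht2 : tau r ^ K ≤ C0 ^ K * qr F ^ ((1 / 8 : ℝ) * i) := by
      calc tau r ^ K ≤ (C0 * qr F ^ ((1 / (8 * K) : ℝ) * i)) ^ K := pow_le_pow_left₀ ht0 ht K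
        _ = C0 ^ K * qr F ^ ((1 / 8 : ℝ) * i) := by
            rw [mul_pow, ← Real.rpow_natCast (qr F ^ ((1 / (8 * K) : ℝ) * i)) K,
              ← Real.rpow_mul hq0.le]
            congr 2
            field_simp
    have hc := tlb_cram r h
    have hi0 : (0 : ℝ) ≤ i := Nat.cast_nonneg i
    have hAB : |(P r).coeff a| * |(P' r).coeff b| ≤
        C2 * C0 ^ K * (qr F ^ ((1 / 8 : ℝ) * i) * qr F ^ ((1 / 8 : ℝ) * i)) *
        ((qr F ^ i)⁻¹ * (qr F ^ i)⁻¹) := by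
      calc |(P r).coeff a| * |(P' r).coeff b|
          ≤ ((2 + k * i : ℝ) ^ k * tau r ^ (2 * k + 2) * (qr F ^ i)⁻¹) *
            ((2 + l * i : ℝ) ^ l * tau r ^ (2 * l + 2) * (qr F ^ i)⁻¹) :=
            mul_le_mul h1 h2 (abs_nonneg _) (by positivity)
        _ = ((2 + k * i : ℝ) ^ k * (2 + l * i : ℝ) ^ l) * tau r ^ K *
            ((qr F ^ i)⁻¹ * (qr F ^ i)⁻¹) := by
            rw [hK, pow_add]; ring
        _ ≤ (C2 * qr F ^ ((1 / 8 : ℝ) * i)) * (C0 ^ K * qr F ^ ((1 / 8 : ℝ) * i)) *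
            ((qr F ^ i)⁻¹ * (qr F ^ i)⁻¹) := by
            refine mul_le_mul_of_nonneg_right ?_ (by positivity)
            exact mul_le_mul (hb2 i) ht2 (by positivity) (by positivity)
        _ = _ := by ring
    exact mul_le_mul hAB hc (abs_nonneg _) (by positivity)
  refine (Finset.sum_le_sum hterm).trans ?_
  rw [← Finset.mul_sum]
  have hs := tlb_sum hh i
  have ht0 : (0 : ℝ) ≤ tau h := by unfold tau; positivity
  calc (C2 * C0 ^ K * (qr F ^ ((1 / 8 : ℝ) * i) * qr F ^ ((1 / 8 : ℝ) * i)) *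
        ((qr F ^ i)⁻¹ * (qr F ^ i)⁻¹)) *
        ∑ r ∈ Mn F i, ∑ d ∈ (Dv r).filter (fun d => d ∣ h), qr F ^ d.natDegree
      ≤ (C2 * C0 ^ K * (qr F ^ ((1 / 8 : ℝ) * i) * qr F ^ ((1 / 8 : ℝ) * i)) *
        ((qr F ^ i)⁻¹ * (qr F ^ i)⁻¹)) * (tau h * qr F ^ i) :=
        mul_le_mul_of_nonneg_left hs (by positivity)
    _ = C2 * C0 ^ K * tau h * ((qr F ^ ((1 / 8 : ℝ) * i) * qr F ^ ((1 / 8 : ℝ) * i)) *
        (qr F ^ i)⁻¹) := by
        have : (qr F ^ i) ≠ 0 := by positivity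
        field_simp
    _ = C2 * C0 ^ K * tau h * qr F ^ (-(3 / 4 : ℝ) * i) := by
        congr 1
        rw [← Real.rpow_natCast (qr F) i, ← Real.rpow_neg hq0.le, ← Real.rpow_add hq0,
          ← Real.rpow_add hq0]
        congr 1
        ring

end Pool.Agent.Helper15.FC
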