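import Pool.Agent.Helper15.FC.St3

set_option autoImplicit false

/-!
Module UNI of project FC.
-/

open Polynomial

namespace Pool.Agent.Helper15.FC

theorem uni_mem {F : Type} [Field F] [Fintype F] (h : StACF) {r : F[X]} (hr : r.Monic)
    {ν : AddChar F[X] ℂ} (hν : ν ∈ Pr r) :
    ν ∈ AC r ∧ ∀ r' : F[X], r'.Monic → r' ∣ r → ν ∈ AC r' → r' = r := by
  classical
  unfold Pr at hν
  rw [Finset.mem_filter] at hν
  exact ⟨(((h F).2 r hr).2.1 ν).1 hν.1, hν.2⟩

theorem uni_aux {F : Type} [Field F] [Fintype F] (h : StACF) (m Q : ℕ) (r r' : F[X])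
    (ν ν' : AddChar F[X] ℂ) (hm : 2 * Q ≤ m) (hr : r.Monic) (hr' : r'.Monic)
    (hQ : r.natDegree ≤ Q) (hQ' : r'.natDegree ≤ Q) (hν : ν ∈ Pr r) (hν' : ν' ∈ Pr r')
    (he : ∀ g ∈ Lw F m, ν g = ν' g) : r ∣ r' := by
  classical
  obtain ⟨h1, h2⟩ := uni_mem h hr hν
  obtain ⟨h1', -⟩ := uni_mem h hr' hν'
  -- the monic gcd
  set d0 : F[X] := EuclideanDomain.gcd r r' with hd0
  have hd0r : d0 ∣ r := EuclideanDomain.gcd_dvd_left r r'
  have hd0r' : d0 ∣ r' := EuclideanDomain.gcd_dvd_right r r'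
  have hd0ne : d0 ≠ 0 := fun h0 => hr.ne_zero (by rw [h0] at hd0r; exact zero_dvd_iff.1 hd0r)
  set d : F[X] := d0 * C (d0.leadingCoeff)⁻¹ with hd
  have hdm : d.Monic := Polynomial.monic_mul_leadingCoeff_inv hd0ne
  have hcu : IsUnit (C (d0.leadingCoeff)⁻¹ : F[X]) :=
    Polynomial.isUnit_C.2 (isUnit_iff_ne_zero.2 (inv_ne_zero (leadingCoeff_ne_zero.2 hd0ne)))
  have hdd : d ∣ d0 := by
    rw [hd]
    exact (hcu.mul_right_dvd).2 dvd_rfl
  have hdr : d ∣ r := hdd.trans hd0r
  have hdr' : d ∣ r' := hdd.trans hd0r'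
  obtain ⟨s, hs⟩ := hdr
  have hsm : s.Monic := by
    have := hr
    rw [hs] at this
    exact hdm.of_mul_monic_left this
  have hdeg : r.natDegree = d.natDegree + s.natDegree := by
    rw [hs, hdm.natDegree_mul hsm]
  have key : ν ∈ AC d := by
    intro x
    -- Bezout
    have hb : d0 = r * EuclideanDomain.gcdA r r' + r' * EuclideanDomain.gcdB r r' :=
      EuclideanDomain.gcd_eq_gcd_ab r r'
    set A : F[X] := EuclideanDomain.gcdA r r' * C (d0.leadingCoeff)⁻¹ * x with hA
    set B : F[X] := EuclideanDomain.gcdB r r' * C (d0.leadingCoeff)⁻¹ * x with hB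
    have hx : d * x = r * A + r' * B := by
      rw [hA, hB, hd]
      nth_rewrite 1 [hb]
      ring
    obtain ⟨t, ht⟩ := hdr'
    have hBm : B = B %ₘ s + s * (B /ₘ s) := (Polynomial.modByMonic_add_div B s).symm
    have hx2 : d * x = r * (A + t * (B /ₘ s)) + r' * (B %ₘ s) := by
      rw [hx]
      nth_rewrite 1 [hBm]
      rw [hs, ht]
      ring
    rw [hx2, AddChar.map_add_eq_mul, h1, one_mul]
    have hlow : r' * (B %ₘ s) ∈ Lw F m := by
      rw [mem_Lw]
      by_cases hs1 : s = 1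
      · rw [hs1, Polynomial.modByMonic_one, mul_zero, Polynomial.degree_zero]
        exact WithBot.bot_lt_coe _
      · have hlt : (B %ₘ s).degree < s.degree := Polynomial.degree_modByMonic_lt B hsm
        by_cases hz : B %ₘ s = 0
        · rw [hz, mul_zero, Polynomial.degree_zero]
          exact WithBot.bot_lt_coe _
        · rw [Polynomial.degree_mul, Polynomial.degree_eq_natDegree hr'.ne_zero,
            Polynomial.degree_eq_natDegree hz]
          rw [Polynomial.degree_eq_natDegree hz, Polynomial.degree_eq_natDegree hsm.ne_zero] at hlt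
          have hlt' : (B %ₘ s).natDegree < s.natDegree := by exact_mod_cast hlt
          have : r'.natDegree + (B %ₘ s).natDegree < m := by omega
          exact_mod_cast this
    rw [he _ hlow]
    exact h1' _
  have := h2 d hdm ⟨s, hs⟩ key
  rw [← this]
  exact ‹d ∣ r'›

theorem hUNI (h : StACF) : StUNI := by
  classical
  intro F _ _ m Q r r' ν ν' hm hr hr' hQ hQ' hν hν' he
  have hd := uni_aux h m Q r r' ν ν' hm hr hr' hQ hQ' hν hν' he
  have hd' := uni_aux h m Q r' r ν' ν hm hr' hr hQ' hQ hν' hν (fun g hg => (he g hg).symm)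
  have hrr : r = r' := Polynomial.eq_of_monic_of_associated hr hr' (associated_of_dvd_dvd hd hd')
  refine ⟨hrr, ?_⟩
  obtain ⟨h1, -⟩ := uni_mem h hr hν
  obtain ⟨h1', -⟩ := uni_mem h hr' hν'
  ext g
  have hg : g = g %ₘ r + r * (g /ₘ r) := (Polynomial.modByMonic_add_div g r).symm
  have hlow : g %ₘ r ∈ Lw F m := by
    rw [mem_Lw]
    refine lt_of_lt_of_le (Polynomial.degree_modByMonic_lt g hr) ?_
    rw [Polynomial.degree_eq_natDegree hr.ne_zero]
    have : r.natDegree ≤ m := by omega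
    exact_mod_cast this
  rw [hg, AddChar.map_add_eq_mul, AddChar.map_add_eq_mul, h1, he _ hlow]
  have : ν' (r * (g /ₘ r)) = 1 := by rw [hrr]; exact h1' _
  rw [this]

end Pool.Agent.Helper15.FC
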