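import Pool.Agent.Helper15.FC.St2

set_option autoImplicit false

/-!
# Project FC, wave 3: finite Fourier analysis, main term, final statement
-/

open Polynomial

namespace Pool.Agent.Helper15.FC

noncomputable section

/-- additive characters of `F[X]` that are trivial on the multiples of `r` -/
def AC {F : Type} [Field F] (r : F[X]) : Set (AddChar F[X] ℂ) := {ν | ∀ g : F[X], ν (r * g) = 1}

open scoped Classical in
/-- the same as a finite set -/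
def ACf {F : Type} [Field F] (r : F[X]) : Finset (AddChar F[X] ℂ) :=
  if h : (AC r).Finite then h.toFinset else ∅

open scoped Classical in
/-- the primitive additive characters modulo `r` -/
def Pr {F : Type} [Field F] (r : F[X]) : Finset (AddChar F[X] ℂ) :=
  (ACf r).filter (fun ν => ∀ r' : F[X], r'.Monic → r' ∣ r → ν ∈ AC r' → r' = r)

/-- **ACF** (basic facts).  Proof.  `p g = 0` in `F[X]` (`p` the characteristic), so every value of an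
additive character is a `p`-th root of unity: absolute value 1, `ν(-g) = ν(g)^(-1) = conj`.  `AC r` is
in bijection with the additive characters of the finite group `F[X]/(r)` (`q^(deg r)` elements);
orthogonality. -/
def StACF : Prop := ∀ (F : Type) [Field F] [Fintype F],
  (∀ (ν : AddChar F[X] ℂ) (g : F[X]), ‖ν g‖ = 1 ∧ ν (-g) = (starRingEnd ℂ) (ν g)) ∧
  ∀ r : F[X], r.Monic → (AC r).Finite ∧ (∀ ν, ν ∈ ACf r ↔ ν ∈ AC r) ∧
    (ACf r).card = Fintype.card F ^ r.natDegree ∧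
    (∀ h : F[X], r ∣ h → ∑ ν ∈ ACf r, ν h = (Fintype.card F : ℂ) ^ r.natDegree) ∧
    (∀ h : F[X], ¬ r ∣ h → ∑ ν ∈ ACf r, ν h = 0)

/-- **NTS** (a character that is not trivial on `Lw F m` sums to zero over it).
Proof.  Choose `g0 ∈ Lw F m` with `ν(g0) ≠ 1` and translate (`Lw F m` is an additive group). -/
def StNTS : Prop := ∀ (F : Type) [Field F] [Fintype F] (ν : AddChar F[X] ℂ) (m : ℕ),
  (∃ g ∈ Lw F m, ν g ≠ 1) → ∑ g ∈ Lw F m, ν g = 0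

/-- **FOU** (Fourier inversion for a correlation on `Lw F m`).
Proof.  Expand the right side: `sum_(g,g') a(g) b(g') sum_η η(g' - g - h)`; by ACF for `r = X^m` the
inner sum is `q^m` if `X^m` divides `g' - g - h`, i.e. `g' = g + h` (degrees `< m`), else zero. -/
def StFOU : Prop := ∀ (F : Type) [Field F] [Fintype F] (m : ℕ) (a b : F[X] → ℂ) (h : F[X]),
  h ∈ Lw F m →
  (Fintype.card F : ℂ) ^ m * ∑ g ∈ Lw F m, a g * b (g + h) =
    ∑ η ∈ ACf (X ^ m : F[X]), (∑ g ∈ Lw F m, a g * η (-g)) * (∑ g ∈ Lw F m, b g * η g) * η (-h)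

/-- **PLA** (Plancherel).  Proof.  Expand the square; `sum_(h∈Lw m) η(-h) conj η'(-h)` is `q^m` if
`η = η'` and zero otherwise (two elements of `AC (X^m)` that agree on `Lw F m` are equal; NTS). -/
def StPLA : Prop := ∀ (F : Type) [Field F] [Fintype F] (m : ℕ) (γ : AddChar F[X] ℂ → ℂ),
  ∑ h ∈ Lw F m, ‖((Fintype.card F : ℂ) ^ m)⁻¹ * ∑ η ∈ ACf (X ^ m : F[X]), γ η * η (-h)‖ ^ 2 =
    (qr F ^ m)⁻¹ * ∑ η ∈ ACf (X ^ m : F[X]), ‖γ η‖ ^ 2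

/-- **PAR** (Parseval).  Proof.  Expand, ACF for `X^m`. -/
def StPAR : Prop := ∀ (F : Type) [Field F] [Fintype F] (m : ℕ) (a : F[X] → ℂ),
  ∑ η ∈ ACf (X ^ m : F[X]), ‖∑ g ∈ Lw F m, a g * η g‖ ^ 2 = qr F ^ m * ∑ g ∈ Lw F m, ‖a g‖ ^ 2

/-- **DIR** (Dirichlet approximation).
Proof.  `r ↦ (g ↦ η(r g))` is a homomorphism from the group of polynomials of degree `≤ Q`
(`q^(Q+1)` elements) to the group of characters of `Lw F Q` (`q^Q` elements), so there is `r ≠ 0`,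
`deg r ≤ Q`, with `η(r g) = 1` for all `g ∈ Lw F Q`; choose such an `r` of minimal degree; scaling, `r` is
monic.  Define `ν(f) = η(f %ₘ r)`: an additive character, trivial on the multiples of `r`.  For
`g ∈ Lw F (deg r + Q)` write `g = r g1 + g0`, `deg g1 < Q`: `η(g) = η(r g1) η(g0) = ν(g)`.  Primitive: if
`r'` monic divides `r`, `ν ∈ AC r'` and `r' ≠ r`, then for `g ∈ Lw F Q`: `r' g ∈ Lw F (deg r + Q)`, so
`η(r' g) = ν(r' g) = 1`, against the minimality. -/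
def StDIR : Prop := ∀ (F : Type) [Field F] [Fintype F] (m Q : ℕ) (η : AddChar F[X] ℂ),
  2 * Q ≤ m → η ∈ AC (X ^ m : F[X]) →
  ∃ (r : F[X]) (ν : AddChar F[X] ℂ), r.Monic ∧ r.natDegree ≤ Q ∧ ν ∈ Pr r ∧
    ∀ g ∈ Lw F (r.natDegree + Q), η g = ν g

/-- **UNI** (uniqueness).
Proof.  Let `d = gcd(r, r')` monic.  Claim: `ν ∈ AC d`.  Let `x` be a polynomial; by Bezout
`d x = r a + r' b`, and reducing `b` modulo `r/d` (`r' (r/d)` is a multiple of `r`) we may assume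
`deg b < deg r - deg d`, so `deg(r' b) < 2Q ≤ m` and `ν(r' b) = ν'(r' b) = 1`; `ν(d x) = ν(r a) ν(r' b) = 1`.
By primitivity `d = r`; symmetrically `d = r'`.  So `r = r'`, and `ν = ν'` on `Lw F m`, which contains
representatives of all classes modulo `r`. -/
def StUNI : Prop := ∀ (F : Type) [Field F] [Fintype F] (m Q : ℕ) (r r' : F[X])
  (ν ν' : AddChar F[X] ℂ), 2 * Q ≤ m → r.Monic → r'.Monic → r.natDegree ≤ Q →
  r'.natDegree ≤ Q → ν ∈ Pr r → ν' ∈ Pr r' → (∀ g ∈ Lw F m, ν g = ν' g) → r = r' ∧ ν = ν'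

/-- `A_k(η; G)`, the Fourier transform of `d_k` on the short interval `X^m G + Lw F m` -/
def Ae {F : Type} [Field F] [Fintype F] (k m : ℕ) (η : AddChar F[X] ℂ) (G : F[X]) : ℂ :=
  ∑ g ∈ Lw F m, (dk k (X ^ m * G + g) : ℂ) * η g

/-- `S_k(ν; n)`, the sum of `d_k(f) ν(f)` over the monic `f` of degree `n` -/
def Sn {F : Type} [Field F] [Fintype F] (k n : ℕ) (ν : AddChar F[X] ℂ) : ℂ :=
  ∑ f ∈ Mn F n, (dk k f : ℂ) * ν f

open scoped Classical in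
/-- the main part of `Ae`: at most one primitive `ν` of conductor of degree `≤ Q` agrees with `η`
on `Lw F m` -/
def Me {F : Type} [Field F] [Fintype F] (k n m Q : ℕ) (η : AddChar F[X] ℂ) (G : F[X]) : ℂ :=
  ∑ i ∈ Finset.range (Q + 1), ∑ r ∈ Mn F i, ∑ ν ∈ (Pr r).filter (fun ν => ∀ g ∈ Lw F m, η g = ν g),
    ν (-(X ^ m * G)) * ((Fintype.card F : ℂ) ^ (n - m))⁻¹ * Sn k n ν

/-- the main term of the correlation (sum over the major arcs) -/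
def MQ {F : Type} [Field F] [Fintype F] (Q k l n : ℕ) (h : F[X]) : ℂ :=
  ((Fintype.card F : ℂ) ^ n)⁻¹ * ∑ i ∈ Finset.range (Q + 1), ∑ r ∈ Mn F i, ∑ ν ∈ Pr r,
    (starRingEnd ℂ) (Sn k n ν) * Sn l n ν * ν (-h)

/-- **COR**.  `h0 = X^m H0`.  Proof.  `f = X^m G + g` (`G ∈ M_(n-m)`, `g ∈ Lw m`) runs over `M_n`;
`d_l(f + h0 + h) = d_l(X^m (G + H0) + (g + h))`; FOU for every `G` with `a(g) = d_k(X^m G + g)`,
`b(g) = d_l(X^m (G + H0) + g)`; `sum_g a(g) η(-g)` is the conjugate of `Ae k m η G` (`d_k` is real, ACF). -/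
def StCOR : Prop := ∀ (F : Type) [Field F] [Fintype F] (k l n m : ℕ) (H0 h : F[X]), m ≤ n →
  H0 ∈ Lw F (n - m) → h ∈ Lw F m →
  (Fintype.card F : ℂ) ^ m * (Corr F k l n (X ^ m * H0 + h) : ℂ) =
    ∑ η ∈ ACf (X ^ m : F[X]), (∑ G ∈ Mn F (n - m),
      (starRingEnd ℂ) (Ae k m η G) * Ae l m η (G + H0)) * η (-h)

/-- **MQH**.  Proof.  For fixed `η` at most one ` (r, ν)` occurs in `Me` (UNI), so
`sum_G conj(Me k η G) Me l η (G + H0)` is the sum over the ` (r, ν)` with `ν = η` on `Lw m` of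
`q^(-2(n-m)) conj(Sn k ν) Sn l ν sum_G ν(X^m G) ν(-X^m (G+H0)) = q^(m-n) conj(Sn k ν) Sn l ν ν(-X^m H0)`
(`conj ν(-x) = ν(x)`, ACF; `|M_(n-m)| = q^(n-m)`).  For every ` (r,ν)` there is exactly one
`η ∈ AC (X^m)` with `η = ν` on `Lw m` (`η(f) = ν(f %ₘ X^m)`), and `η(-h) = ν(-h)` for `h ∈ Lw m`. -/
def StMQH : Prop := ∀ (F : Type) [Field F] [Fintype F] (k l n m Q : ℕ) (H0 h : F[X]), m ≤ n →
  2 * Q ≤ m → H0 ∈ Lw F (n - m) → h ∈ Lw F m →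
  (Fintype.card F : ℂ) ^ m * MQ Q k l n (X ^ m * H0 + h) =
    ∑ η ∈ ACf (X ^ m : F[X]), (∑ G ∈ Mn F (n - m),
      (starRingEnd ℂ) (Me k n m Q η G) * Me l n m Q η (G + H0)) * η (-h)

/-- **GAM**.  Proof.  If no primitive `ν` (conductor of degree `≤ Q`) agrees with `η` on `Lw m`, both `Me`
vanish and this is Cauchy's inequality (`G ↦ G + H0` is a bijection of `M_(n-m)`).  Otherwise, by
UNI, `Me k n m Q η G = c_k ν(-X^m G)` with `c_k = q^(m-n) Sn k n ν`.  Write `A = M + E`; then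
`sum conj(A_k) A_l' - sum conj(M_k) M_l' = sum conj(E_k) E_l' + sum conj(M_k) E_l' + sum conj(E_k) M_l'`
(the prime is the shift by `H0`).  The last two sums vanish: `sum_G ν(X^m G) E_l(G) = 0`, because
`sum_G ν(X^m G) Ae l m η G = sum_G sum_g d_l(X^m G + g) ν(X^m G + g) = Sn l n ν` and
`sum_G ν(X^m G) Me l n m Q η G = q^(n-m) c_l = Sn l n ν`; a shift by `H0` only multiplies by
`ν(X^m H0)`-factors.  Cauchy's inequality for the first sum. -/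
def StGAM : Prop := ∀ (F : Type) [Field F] [Fintype F] (k l n m Q : ℕ) (H0 : F[X])
  (η : AddChar F[X] ℂ), m ≤ n → 2 * Q ≤ m → H0 ∈ Lw F (n - m) → η ∈ AC (X ^ m : F[X]) →
  ‖∑ G ∈ Mn F (n - m), (starRingEnd ℂ) (Ae k m η G) * Ae l m η (G + H0) -
    ∑ G ∈ Mn F (n - m), (starRingEnd ℂ) (Me k n m Q η G) * Me l n m Q η (G + H0)‖ ^ 2 ≤
  (∑ G ∈ Mn F (n - m), ‖Ae k m η G - Me k n m Q η G‖ ^ 2) *
    ∑ G ∈ Mn F (n - m), ‖Ae l m η G - Me l n m Q η G‖ ^ 2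

/-- **SME** (total error).  Proof.  For every `η`: `sum_G |Ae - Me|^2 ≤ sum_G |Ae|^2` (if `Me = 0` trivial;
otherwise `Me = c ν(-X^m G)` with `c = ` the mean of `ν(X^m G) Ae(G)`, see GAM: variance is at most the
second moment).  `sum_η |Ae k m η G|^2 = q^m sum_g d_k(X^m G + g)^2` by PAR. -/
def StSME : Prop := ∀ (F : Type) [Field F] [Fintype F] (k n m Q : ℕ), m ≤ n → 2 * Q ≤ m →
  ∑ η ∈ ACf (X ^ m : F[X]), ∑ G ∈ Mn F (n - m), ‖Ae k m η G - Me k n m Q η G‖ ^ 2 ≤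
    qr F ^ m * ∑ f ∈ Mn F n, (dk k f : ℝ) ^ 2

/-- **EMN** (minor arcs: reduction to the variance over shorter intervals).
Proof.  `g = X^j g2 + g'` with `g2 ∈ Lw (m-j)`, `g' ∈ Lw j`; put `G' = X^(m-j) G + g2 ∈ M_(n-j)` (all of
`M_(n-j)` is obtained once from the pairs ` (G, g2)`).  `η(g') = ν(g')`, so
`Ae k m η G = sum_(g2) η(X^j g2) ν(-X^j G') B_(G')` with
`B_(G') = sum_(g'∈Lw j) d_k(X^j G' + g') ν(X^j G' + g')`.  The sum over `g2 ∈ Lw (m-j)` of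
`η(X^j g2) ν(-X^j G') = ν(-X^m G) η(X^j g2) ν(-X^j g2)` vanishes by NTS applied to the additive character
`g2 ↦ η(X^j g2) ν(-X^j g2)`, which is not trivial on `Lw (m-j)` (otherwise `η = ν` on
`X^j Lw(m-j) + Lw j = Lw m`).  So `B_(G')` may be replaced by `B_(G') - mean`, and Cauchy's
inequality gives the factor `q^(m-j)`. -/
def StEMN : Prop := ∀ (F : Type) [Field F] [Fintype F] (k n m j : ℕ) (r : F[X])
  (ν η : AddChar F[X] ℂ), m ≤ n → j < m → ν ∈ AC r → (∀ g ∈ Lw F j, η g = ν g) →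
  (∃ g ∈ Lw F m, η g ≠ ν g) →
  ∑ G ∈ Mn F (n - m), ‖Ae k m η G‖ ^ 2 ≤ qr F ^ (m - j) *
    ∑ G ∈ Mn F (n - j), ‖∑ g ∈ Lw F j, (dk k (X ^ j * G + g) : ℂ) * ν (X ^ j * G + g) -
      ((qr F ^ (n - j) : ℝ) : ℂ)⁻¹ * Sn k n ν‖ ^ 2

/-- **EET** (the error of one frequency).
Proof.  Case 1: some primitive `ν` modulo some `r` of degree `≤ Q` agrees with `η` on `Lw m` (unique by
UNI): `Ae k m η G - Me k n m Q η G = ν(-X^m G) (sum_g d_k(X^m G+g) ν(X^m G+g) - q^(m-n) Sn k n ν)`;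
EBD with `j = m`, `N = n - m`, `w = ν`: `≤ κ^2 q^n phi(r) n^C ≤ κ^2 q^(n+Q) n^C`, and `n + Q ≤ n + m - Q`.
Case 2: no such `ν`: `Me = 0`.  DIR gives `r`, `ν ∈ Pr r`, `η = ν` on `Lw (deg r + Q)`; let `j` be maximal
with `η = ν` on `Lw j`; `deg r + Q ≤ j < m`.  EMN and EBD (`N = n - j`):
`≤ q^(m-j) κ^2 q^n phi(r) n^C ≤ κ^2 q^(n + m - j + deg r) n^C ≤ κ^2 q^(n+m-Q) n^C`.  (`phi r ≤ q^(deg r)`,
`kap ≥ 0`.) -/
def StEET : Prop := ∀ (F : Type) [Field F] [Fintype F] (k : ℕ), ∃ C : ℕ,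
  ∀ (n m Q : ℕ) (κ : ℝ) (η : AddChar F[X] ℂ), 2 + m ≤ n → 2 * Q ≤ m → Q + m ≤ n →
  η ∈ AC (X ^ m : F[X]) → (∀ r : F[X], r.Monic → r.natDegree ≤ Q → kap k r n ≤ κ) →
  ∑ G ∈ Mn F (n - m), ‖Ae k m η G - Me k n m Q η G‖ ^ 2 ≤
    κ ^ 2 * qr F ^ (n + m - Q) * (n : ℝ) ^ C

/-- **L2M** (mean square over the shifts).
Proof.  COR, MQH and PLA: the left side is `q^(-m) sum_η |γ(η) - γ_M(η)|^2` with the `γ`'s of GAM,
`≤ q^(-m) max_η E_k(η) sum_η E_l(η)`; EET for `k`, SME and DKB for `l`: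
`≤ q^(-m) κ^2 q^(n+m-Q) n^C q^m q^n (n+1)^(l l)`; `n + 1 ≤ n^2`. -/
def StL2M : Prop := ∀ (F : Type) [Field F] [Fintype F] (k l : ℕ), ∃ C : ℕ,
  ∀ (n m Q : ℕ) (κ : ℝ) (H0 : F[X]), 2 + m ≤ n → 2 * Q ≤ m → Q + m ≤ n → H0 ∈ Lw F (n - m) →
  (∀ r : F[X], r.Monic → r.natDegree ≤ Q → kap k r n ≤ κ) →
  ∑ h ∈ Lw F m, ‖(Corr F k l n (X ^ m * H0 + h) : ℂ) - MQ Q k l n (X ^ m * H0 + h)‖ ^ 2 ≤
    κ ^ 2 * qr F ^ (2 * n + m - Q) * (n : ℝ) ^ C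

/-! ### the main term -/

/-- **MOB** (Moebius).  Proof.  `f ≠ 1` monic has a prime factor `P`; the squarefree monic divisors
pair off as `d`, `d P` (`P` not dividing `d`), with opposite values of `mob`. -/
def StMOB : Prop := ∀ (F : Type) [Field F] [Fintype F], (∑ d ∈ Dv (1 : F[X]), mob d = 1) ∧
  ∀ f : F[X], f.Monic → f ≠ 1 → ∑ d ∈ Dv f, mob d = 0

/-- **RAM** (Ramanujan sums).
Proof.  `sum_(x∈Lw(deg r), gcd(x,r)=1) ν(x f) = sum_(d∈Dv r) mob(d) sum_(x∈Lw(deg r), d|x) ν(x f)`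
(MOB applied to the monic gcd of `x` and `r`; for `x = 0` the gcd is `r`).  The inner sum over
`x = d y`, `y ∈ Lw(deg r - deg d)`, is `q^(deg r - deg d)` if `ν(d f ·)` is trivial, otherwise zero (it is a
character of `F[X]/(r/d)`).  It is trivial iff `ν` is trivial on the multiples of `gcd(d f, r)`, iff (by
primitivity) `r | d f`, iff ` (r/d) | f`.  Put `e = r/d`: `sum_(e | r, e | f) mob(r/e) q^(deg e)`. -/
def StRAM : Prop := ∀ (F : Type) [Field F] [Fintype F] (r f : F[X]) (ν : AddChar F[X] ℂ),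
  r.Monic → ν ∈ Pr r → ∑ x ∈ Lc r, ν (x * f) = (cram r f : ℂ)

/-- **RM2**.  Proof.  For `ν ∈ AC r` the set of `g` with `ν(g ·) = 1` is an ideal containing `r`,
generated by a monic `d | r`, and `d` is the only monic divisor with `ν ∈ Pr d`.  So by ACF
`sum_(d∈Dv r) sum_(ν∈Pr d) ν(h) = q^(deg r) [r | h]`.  The same identity holds for `cram`:
`sum_(d∈Dv r) cram d h = sum_(e | r, e | h) q^(deg e) sum_(d' | r/e) mob(d') = q^(deg r) [r | h]` (MOB).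
Strong induction on `deg r`. -/
def StRM2 : Prop := ∀ (F : Type) [Field F] [Fintype F] (r h : F[X]), r.Monic →
  ∑ ν ∈ Pr r, ν h = (cram r h : ℂ) ∧ (Pr r).card ≤ Fintype.card F ^ r.natDegree

/-- **SKB** (`S_k(ν)` is almost independent of `ν`).
Proof.  SPL, DKM: `Sn k n ν = sum_(i≤n) sum_(f0∈Sm r i) d_k(f0) sum_(f1∈Cp r (n-i)) d_k(f1) ν(f0 f1)`.
UPR for `w = ν(f0 ·)`: the inner sum is `sum_χ c(χ) D_χ`,
`D_χ = sum_(f1∈M_(n-i)) d_k(f1) χ(mk f1)`.  The term `χ = 1`: `phi(r) c(1) = sum_(x∈Lc r) ν(f0 x) =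
cram r f0` (RAM), and `cram r (f0 f1) = cram r f0` for `f1` prime to `r` (a divisor `d` of `r` divides
`f0 f1` iff it divides `f0`), so by SPL and DKM these terms add up to
` (1/phi r) sum_(f∈M_n) d_k(f) cram r f = Ak k r n`.  For `χ ≠ 1`: `χ(mk f) = Hk r 0 χ 1 f` for monic `f`
(`f.reverse` has constant coefficient 1); it is CM, with zero sums for degrees `≥ deg r` (ZS, `N = 0`),
so by COE, AVT (`T = k deg r + 1`, `ρ = q^(-1/2)`) and TRV `|D_χ|^2 ≤ q^(n-i) q^(2 k deg r)`.  Cauchy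
with `sum |c|^2 ≤ 1` and the number `phi r ≤ q^(deg r)` of characters: the rest is at most
`sum_i sum_(f0) d_k(f0) q^((n-i)/2) q^(k deg r) q^(deg r/2) ≤ kap k r n q^(n/2) q^((k+1) deg r)`. -/
def StSKB : Prop := ∀ (F : Type) [Field F] [Fintype F] (k n : ℕ) (r : F[X])
  (ν : AddChar F[X] ℂ), r.Monic → ν ∈ Pr r →
  ‖Sn k n ν - (Ak k r n : ℂ)‖ ≤ kap k r n * Real.sqrt (qr F) ^ n * qr F ^ ((k + 1) * r.natDegree)

/-- the main term with the means `Ak` -/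
def MA {F : Type} [Field F] [Fintype F] (Q k l n : ℕ) (h : F[X]) : ℝ :=
  (qr F ^ n)⁻¹ * ∑ i ∈ Finset.range (Q + 1), ∑ r ∈ Mn F i, Ak k r n * Ak l r n * (cram r h : ℝ)

/-- **MQA**.  Proof.  By RM2 (and `cram r (-h) = cram r h`)
`MA = q^(-n) sum_(i≤Q) sum_r sum_(ν∈Pr r) Ak k Ak l ν(-h)`.  `|Sn k n ν| ≤ q^n (n+1)^k` (DKB) and
`|Ak k r n| ≤ q^n (n+1)^k` if `Pr r` is not empty (`|cram r f| ≤ phi r` by RAM).  SKB:
`|conj(Sn k) Sn l - Ak k Ak l| ≤ 2 κ q^(n/2) q^((k+l+1) Q) q^n (n+1)^(k+l)`.  The number of pairs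
` (r,ν)` is `≤ sum_(i≤Q) q^(2i) ≤ 2 q^(2Q)`. -/
def StMQA : Prop := ∀ (F : Type) [Field F] [Fintype F] (k l n Q : ℕ) (κ : ℝ) (h : F[X]),
  (∀ r : F[X], r.Monic → r.natDegree ≤ Q → kap k r n ≤ κ ∧ kap l r n ≤ κ) →
  ‖MQ Q k l n h - (MA Q k l n h : ℂ)‖ ≤
    4 * κ * Real.sqrt (qr F) ^ n * qr F ^ ((k + l + 3) * Q) * ((n : ℝ) + 1) ^ (k + l)

/-- number of monic divisors, as a real number -/
def tau {F : Type} [Field F] [Fintype F] (f : F[X]) : ℝ := ((Dv f).card : ℝ)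

open scoped Classical in
/-- `B_(k,d)(n)`: the sum of `d_k(f)` over the monic `f` of degree `n` divisible by `d` -/
def Bkd {F : Type} [Field F] [Fintype F] (k : ℕ) (d : F[X]) (n : ℕ) : ℝ :=
  ∑ f ∈ (Mn F n).filter (fun f => d ∣ f), (dk k f : ℝ)

/-- **GCC** (recursion for `Bkd`).
Proof.  DKR, CNV: `B_(k+1,d)(n) = sum_(i≤n) sum_(g∈M_i) sum_(h∈M_(n-i), d | g h) d_k(h)`.  Let
`e = gcd(g,d)` monic; `d | g h` iff ` (d/e) | h`.  So it is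
`sum_(i≤n) sum_(e∈Dv d) |{g∈M_i : gcd(g,d) = e}| B_(k,d/e)(n-i)`, and `g = e g1` with `g1` prime to `d/e`:
by MOB the number is `sum_(c∈Dv(d/e)) mob(c) |{g∈M_i : e c | g}|`, where the last count is
`q^(i - deg e - deg c)` if `deg e + deg c ≤ i` and zero otherwise. -/
def StGCC : Prop := ∀ (F : Type) [Field F] [Fintype F] (k n : ℕ) (d : F[X]), d.Monic →
  Bkd (k + 1) d n = ∑ i ∈ Finset.range (n + 1), ∑ e ∈ Dv d,
    (∑ c ∈ Dv (d / e), (mob c : ℝ) *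
      (if e.natDegree + c.natDegree ≤ i then qr F ^ (i - e.natDegree - c.natDegree) else 0)) *
      Bkd k (d / e) (n - i)

/-- **BKD** (generating function of `Bkd`).
Proof.  Induction on `k`.  `k = 0`: `B_(0,d)(n) = 1` if `d = 1` and `n = 0`, else 0 (DKR); `N = 1` or `0`.
Step: GCC says `B_(k+1,d)(u) = sum_(e | d) u^(deg e) (sum_(c | d/e) mob(c) u^(deg c)) (1-qu)^(-1) B_(k,d/e)(u)`,
so `N_(k+1,d) = sum_(e | d) u^(deg e) (sum_(c | d/e) mob(c) u^(deg c)) N_(k,d/e)`; degree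
`≤ deg e + deg(d/e) + k deg(d/e) ≤ (k+1) deg d`.  Norm `|N| = sum |coeff_i| q^(-i)` is submultiplicative:
`|N_(k+1,d)| ≤ sum_(e | d) q^(-deg e) tau(d/e) q^(-deg(d/e)) tau(d/e)^(2k) ≤ q^(-deg d) tau(d)^(2k+2)`. -/
def StBKD : Prop := ∀ (F : Type) [Field F] [Fintype F] (k : ℕ) (d : F[X]), d.Monic →
  ∃ Nn : ℝ[X], Nn.natDegree ≤ k * d.natDegree ∧
    PowerSeries.mk (fun n => Bkd k d n) * (1 - PowerSeries.C (qr F) * PowerSeries.X) ^ k =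
      (Nn : PowerSeries ℝ) ∧
    ∑ i ∈ Finset.range (k * d.natDegree + 1), |Nn.coeff i| * (qr F ^ i)⁻¹ ≤
      (qr F ^ d.natDegree)⁻¹ * tau d ^ (2 * k)

/-- **PHI**.  Proof.  `q^(deg r) = sum_(d∈Dv r) phi(d)` (classify `x ∈ Lw(deg r)` by `gcd(x,r) = r/d`,
`x = (r/d) y`, `y ∈ Lw(deg d)` prime to `d`), and `phi(d) ≤ phi(r)` for `d | r` (reduction of the units
modulo `r` to the units modulo `d` is surjective).  Also `1 ≤ phi r ≤ q^(deg r)`. -/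
def StPHI : Prop := ∀ (F : Type) [Field F] [Fintype F] (r : F[X]), r.Monic →
  1 ≤ phi r ∧ (phi r : ℝ) ≤ qr F ^ r.natDegree ∧ qr F ^ r.natDegree ≤ (phi r : ℝ) * tau r

/-- the polynomials `P r` describe the means `Ak k r n`, with a bound for the coefficients -/
def PolOK (F : Type) [Field F] [Fintype F] (k : ℕ) (P : F[X] → ℝ[X]) : Prop :=
  ∀ r : F[X], r.Monic → (P r).natDegree ≤ k - 1 ∧
    (∀ n : ℕ, k * r.natDegree ≤ n → Ak k r n = qr F ^ n * (P r).eval (n : ℝ)) ∧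
    ∀ i : ℕ, |(P r).coeff i| ≤
      (2 + k * r.natDegree : ℝ) ^ k * tau r ^ (2 * k + 2) * (qr F ^ r.natDegree)⁻¹

/-- **POL** (the means are polynomials times `q^n`).
Proof.  `Ak k r n = (1/phi r) sum_(d∈Dv r) mob(r/d) q^(deg d) Bkd k d n` (definition of `cram`, exchange
the sums).  By BKD its generating function is `H/(1-qu)^k` with
`H = (1/phi r) sum_(d | r) mob(r/d) q^(deg d) N_(k,d)`, `deg H ≤ k deg r`,
`sum_i |H_i| q^(-i) ≤ (1/phi r) sum_(d | r) tau(d)^(2k) ≤ tau(r)^(2k+1)/phi(r) ≤ tau(r)^(2k+2)/q^(deg r)`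
(PHI).  The coefficient of `u^j` in ` (1-qu)^(-k)` is `q^j binom(j+k-1,k-1)`, `k ≥ 1`.  For
`n ≥ k deg r`: `Ak k r n = sum_i H_i q^(n-i) binom(n-i+k-1,k-1) = q^n P(n)` with
`P(x) = sum_i H_i q^(-i) prod_(j=1..k-1) (x - i + j)/j`.  The coefficients of
`prod_(j=1..k-1) (x-i+j)/j` are bounded by `prod_j (1 + |j-i|)/j ≤ (2+i)^(k-1) ≤ (2 + k deg r)^k`. -/
def StPOL : Prop := ∀ (F : Type) [Field F] [Fintype F] (k : ℕ), 1 ≤ k →
  ∃ P : F[X] → ℝ[X], PolOK F k P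

/-- **TLB** (convergence of the singular series).
Proof.  `|cram r h| ≤ sum_(d | r, d | h) q^(deg d)`.  By TAU and PolOK for `i = deg r`:
`|coeff| |coeff| ≤ C q^(i/4) q^(-2i)` (` (2 + k i)^k (2 + l i)^l tau(r)^(2k+2l+4) ≤ C q^(i/4)`).  And
`sum_(r∈M_i) sum_(d | r, d | h) q^(deg d) = sum_(d∈Dv h, deg d ≤ i) q^(deg d) q^(i - deg d) ≤ tau(h) q^i`. -/
def StTLB : Prop := ∀ (F : Type) [Field F] [Fintype F] (k l : ℕ) (P P' : F[X] → ℝ[X]), 1 ≤ k →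
  1 ≤ l → PolOK F k P → PolOK F l P' → ∃ C : ℝ, 0 < C ∧
  ∀ (h : F[X]) (a b i : ℕ), h ≠ 0 →
    ∑ r ∈ Mn F i, |(P r).coeff a| * |(P' r).coeff b| * |(cram r h : ℝ)| ≤
      C * tau h * qr F ^ (-(3 / 4 : ℝ) * i)

/-- the terms of degree `i` of the main term -/
def Ti {F : Type} [Field F] [Fintype F] (P P' : F[X] → ℝ[X]) (n : ℕ) (h : F[X]) (i : ℕ) : ℝ :=
  ∑ r ∈ Mn F i, (P r).eval (n : ℝ) * (P' r).eval (n : ℝ) * (cram r h : ℝ)

/-- the main term `M(n;h)` -/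
def Mt {F : Type} [Field F] [Fintype F] (P P' : F[X] → ℝ[X]) (n : ℕ) (h : F[X]) : ℝ :=
  qr F ^ n * ∑' i : ℕ, Ti P P' n h i

/-- **TAL** (tail).  Proof.  `|P(n)| ≤ sum_(a<k) |coeff a| n^a ≤ (n+1)^k max`; TLB:
`|Ti| ≤ k l (n+1)^(k+l) C tau(h) q^(-3i/4)`; geometric series. -/
def StTAL : Prop := ∀ (F : Type) [Field F] [Fintype F] (k l : ℕ) (P P' : F[X] → ℝ[X]), 1 ≤ k →
  1 ≤ l → PolOK F k P → PolOK F l P' → ∃ C : ℝ, 0 < C ∧ ∀ (h : F[X]) (n Q : ℕ), h ≠ 0 →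
    Summable (Ti P P' n h) ∧
    |∑ i ∈ Finset.range (Q + 1), Ti P P' n h i - ∑' i : ℕ, Ti P P' n h i| ≤
      C * tau h * ((n : ℝ) + 1) ^ (k + l) * qr F ^ (-(1 / 2 : ℝ) * Q)

/-- **PLY** (the main term is `q^n` times a polynomial in `n`).
Proof.  `p = sum_(j ≤ k+l-2) (sum_i sum_(r∈M_i) coeff_j (P r P' r) cram r h) X^j`; the series converge
absolutely by TLB; the coefficient of index `k+l-2` of `P r * P' r` is the product of the coefficients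
of index `k-1` and `l-1`. -/
def StPLY : Prop := ∀ (F : Type) [Field F] [Fintype F] (k l : ℕ) (P P' : F[X] → ℝ[X]), 1 ≤ k →
  1 ≤ l → PolOK F k P → PolOK F l P' → ∀ h : F[X], h ≠ 0 →
  ∃ p : ℝ[X], p.natDegree ≤ k + l - 2 ∧ (∀ n : ℕ, Mt P P' n h = qr F ^ n * p.eval (n : ℝ)) ∧
    p.coeff (k + l - 2) = ∑' i : ℕ, ∑ r ∈ Mn F i,
      (P r).coeff (k - 1) * (P' r).coeff (l - 1) * (cram r h : ℝ)

/-! ### final assembly -/

/-- **FN0** (one interval of shifts).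
Proof.  `Q = m/2` (integer part), `κ = C q^(m/32)` (KAP with `ε = 1/16`, `deg r ≤ Q ≤ m/2`, for `k` and
`l`).  Conditions of L2M: `2 + m ≤ n`, `2Q ≤ m`, `Q + m ≤ n` (`m ≥ 1`; for `m = 0` take `E = Lw F 0` and large
`C`).  L2M: the set `E` of the `h ∈ Lw m` with `|Corr - MQ| > q^(n - m/16)` has at most
`κ^2 q^(2n+m-Q) n^C q^(-2n+m/8) ≤ C' q^(m/16 + m/2 + 1 + m/8) n^C` elements, and `n^C ≤ q^(m/16)` for
`δ ≤ 1/(16 C)`: at most `C'' q^(3m/4)`.  MQA: `|MQ - MA| ≤ C κ q^(n/2) q^((k+l+3) m/2) (n+1)^(k+l) ≤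
C' q^(n - m/16)` (` (k+l+3) m/2 ≤ n/8`, `m ≤ n/16`).  For `deg r ≤ Q` one has `k deg r ≤ n` and
`l deg r ≤ n`, so `MA = q^n sum_(i≤Q) Ti` (PolOK), and TAL:
`|MA - Mt| ≤ q^n C tau(h) (n+1)^(k+l) q^(-Q/2) ≤ C' q^(n-m/8) tau(h)` (`n + 1 ≤ 2 q^(δ m)`, `δ` small). -/
def StFN0 : Prop := ∀ (F : Type) [Field F] [Fintype F] (k l : ℕ) (P P' : F[X] → ℝ[X]), 1 ≤ k →
  1 ≤ l → PolOK F k P → PolOK F l P' → ∃ δ C : ℝ, 0 < δ ∧ 1 ≤ C ∧
  ∀ (n m : ℕ) (H0 : F[X]), 4 * (k + l + 4) * m ≤ n → (n : ℝ) ≤ qr F ^ (δ * m) →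
    H0 ∈ Lw F (n - m) → ∃ E : Finset F[X], E ⊆ Lw F m ∧
      (E.card : ℝ) ≤ C * qr F ^ ((3 / 4 : ℝ) * m) ∧
      ∀ h ∈ Lw F m, h ∉ E → X ^ m * H0 + h ≠ 0 →
        |(Corr F k l n (X ^ m * H0 + h) : ℝ) - Mt P P' n (X ^ m * H0 + h)| ≤
          C * (qr F ^ ((n : ℝ) - m / 16) + qr F ^ ((n : ℝ) - m / 8) * tau (X ^ m * H0 + h))

/-- **FN1** (every `n` with `m ≤ n ≤ q^(δ m)`).
Proof.  `c = 1/(4(k+l+4))`, `δ0, C0` from FN0.  Case A, `m ≤ c n`: FN0 with `H0 = 0` (then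
`X^m * 0 + h = h`); `tau(h) ≤ C q^(m/16)` by TAU (make `h` monic: `tau` does not change under scaling by
units).  Case B, `c n < m ≤ n`: let `m0 = ⌊c n⌋ ≤ m`.  If `n` is bounded by a constant depending on
`F, k, l` take `E = Lw F m` (increase `C`).  Otherwise `n ≤ q^(δ0 m0)`; write
`h = X^(m0) H0 + h1` with `H0 ∈ Lw(m - m0) ⊆ Lw(n - m0)`, `h1 ∈ Lw m0`, and let `E` be the union over `H0`
of the exceptional sets of FN0 for `m0`: `|E| ≤ q^(m-m0) C0 q^(3 m0/4) ≤ C q^(m - m0/4)` and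
`m0 ≥ c m - 1`; `tau(h) ≤ C q^(c m/32)` (TAU); the error is
`≤ C q^(n - m0/16) + C q^(n - m0/8 + c m/32) ≤ C' q^(n - c m/16)`. -/
def StFN1 : Prop := ∀ (F : Type) [Field F] [Fintype F] (k l : ℕ) (P P' : F[X] → ℝ[X]), 1 ≤ k →
  1 ≤ l → PolOK F k P → PolOK F l P' → ∃ δ C : ℝ, 0 < δ ∧ 1 ≤ C ∧
  ∀ n m : ℕ, m ≤ n → (n : ℝ) ≤ qr F ^ (δ * m) → ∃ E : Finset F[X], E ⊆ Lw F m ∧
      (E.card : ℝ) ≤ C * qr F ^ ((1 - δ) * m) ∧
      ∀ h ∈ Lw F m, h ∉ E → h ≠ 0 →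
        |(Corr F k l n h : ℝ) - Mt P P' n h| ≤ C * qr F ^ ((n : ℝ) - δ * m)

/-- **FN2** (uniformly in `n`, relative error).
Proof.  `δ1, C1` from FN1, `δ = δ1/4`.  For `m` with `C1 q^(-δ1 m) > 1/2` (boundedly many `m`) take `C` so
large that the bound for `E` is trivial (`E = Lw F m`).  Otherwise `E` is the union of the exceptional
sets of FN1 over the `n` with `m ≤ n ≤ q^(δ m)` (at most `q^(δ m)` of them):
`|E| ≤ q^(δ m) C1 q^((1-δ1) m) ≤ C1 q^((1-δ) m)`.  For `h ∉ E`, `h ≠ 0`: `Corr ≥ q^n` (`d_k, d_l ≥ 1`, DKR;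
`f + h` is monic because `deg h < m ≤ n`), so `Mt ≥ q^n - C1 q^(n-δ1 m) ≥ q^n/2` and
`|Corr - Mt| ≤ C1 q^(n - δ1 m) ≤ 2 C1 q^(-δ1 m) Mt`. -/
def StFN2 : Prop := ∀ (F : Type) [Field F] [Fintype F] (k l : ℕ) (P P' : F[X] → ℝ[X]), 1 ≤ k →
  1 ≤ l → PolOK F k P → PolOK F l P' → ∃ δ C : ℝ, 0 < δ ∧ 1 ≤ C ∧
  ∀ m : ℕ, ∃ E : Finset F[X], (E.card : ℝ) ≤ C * qr F ^ ((1 - δ) * m) ∧
    ∀ h : F[X], h ≠ 0 → h.degree < m → h ∉ E →
      ∀ n : ℕ, m ≤ n → (n : ℝ) ≤ qr F ^ (δ * m) →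
        |(Corr F k l n h : ℝ) - Mt P P' n h| ≤ C * qr F ^ (-(δ * m)) * Mt P P' n h

end

end Pool.Agent.Helper15.FC
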