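import Pool.Agent.Helper15.FC.St2

set_option autoImplicit false

/-!
# Project FC, wave 4: the Weil bounds (tools for everybody)

They follow from the Riemann hypothesis `StRH` for all Hecke characters of `F[X]`.
-/

open Polynomial

namespace Pool.Agent.Helper15.FC

noncomputable section

/-- **WRH** (Weil bound for prime power sums of Hecke characters).
Proof.  CMH, ZS, FAC: `Psi Χ s = - sum_(i<n) α_i^s`, `n + 1 ≤ D = deg r + N`; a nonzero `α_i` gives the zero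
`1/α_i` of `Lp`, so `‖α_i‖^2 ≤ q` by RH. -/
def StWRH : Prop := ∀ (F : Type) [Field F] [Fintype F] (r : F[X]) (N : ℕ)
  (χ : MulChar (AdjoinRoot r) ℂ) (ξ : MulChar (TN F N) ℂ), r.Monic → (NTx ξ ∨ χ ≠ 1) →
  ∀ s : ℕ, 1 ≤ s → ‖Psi (Hk r N χ ξ) s‖ ≤
    ((r.natDegree + N : ℕ) - 1 : ℝ) * Real.sqrt (qr F) ^ s

/-- **WS1** (the case `s = 1` as a sum over the field).
Proof.  `Psi Χ 1` is the sum over the monic irreducible polynomials of degree 1, i.e. over the
`X - C x`, `x ∈ F`; ` (X - C x).reverse = 1 - C x * X`. -/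
def StWS1 : Prop := ∀ (F : Type) [Field F] [Fintype F] (r : F[X]) (N : ℕ)
  (χ : MulChar (AdjoinRoot r) ℂ) (ξ : MulChar (TN F N) ℂ), r.Monic → (NTx ξ ∨ χ ≠ 1) →
  ‖∑ x : F, χ (AdjoinRoot.mk r (X - C x)) *
      ξ (AdjoinRoot.mk (X ^ (N + 1) : F[X]) (1 - C x * X))‖ ≤
    ((r.natDegree + N : ℕ) - 1 : ℝ) * Real.sqrt (qr F)

/-- **WMC** (Weil bound for multiplicative characters of polynomials): `f` monic, and some monic
irreducible `P` divides `f` exactly `e` times with `χ^e ≠ 1`.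
Proof.  `f ≠ 1`.  Let `ψ` be the multiplicative character `χ ∘ Algebra.norm F` of `AdjoinRoot f`
(the norm is multiplicative; a nonunit has norm 0; `Algebra.norm` of `mk f g` is the resultant, i.e. the
product of `g` over the roots of `f` with multiplicity).  The norm of `mk f (X - C x)` is
` (-1)^(deg f) f(x)` (characteristic polynomial of the root is `f`: `f(x) = norm (x - root)`), so
`sum_x χ(f(x)) = χ((-1)^(deg f)) sum_x ψ(mk f (X - C x))`: WS1 with `N = 0`, `ξ = 1`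
(`1 - C x * X` is a unit modulo `X`).  `ψ ≠ 1`: write `f = P^e f'`, `P` prime to `f'`.  The norm from
`F[X]/(P)` (a finite field) to `F` is surjective; choose `u` in `F` with `χ(u)^e ≠ 1` and `g` with
`g ≡ 1 mod f'` and `g` modulo `P` of norm `u` (Chinese remainder theorem).  Then the norm of `mk f g` is
`u^e` (product over the roots), so `ψ(mk f g) = χ(u)^e ≠ 1`. -/
def StWMC : Prop := ∀ (F : Type) [Field F] [Fintype F] (χ : MulChar F ℂ) (f P : F[X]) (e : ℕ),
  f.Monic → P.Monic → Irreducible P → P ^ e ∣ f → ¬ P ^ (e + 1) ∣ f → χ ^ e ≠ 1 →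
  ‖∑ x : F, χ (f.eval x)‖ ≤ ((f.natDegree : ℝ) - 1) * Real.sqrt (qr F)

/-- **WAC** (Weil bound for additive characters of polynomials of degree prime to the
characteristic).
Proof.  Subtracting `f(0)` changes the sum by a factor of absolute value 1; let `f(0) = 0`,
`f = sum_(j=1..d) f_j X^j`.  For `v ∈ F[X]` with `v(0) ≠ 0` let `p_j(v)`, `1 ≤ j ≤ d`, be the coefficient of
`X^j` in the power series `- X v'/v`; it is additive (`p_j(v w) = p_j(v) + p_j(w)`) and depends only on `v`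
modulo `X^(d+1)`; so `ξ(v) = ψ(sum_j f_j p_j(v))` for units, zero for nonunits, is a multiplicative
character of `TN F d`.  `p_j(1 - x X) = x^j`, so `ξ(1 - x X) = ψ(f(x))`: WS1 with `r = 1`, `N = d`.
`NTx ξ`: for `v = 1 - c X^d`: `p_j(v) = 0` for `j < d`, `p_d(v) = d c`, and `ψ(f_d d c) ≠ 1` for some `c`
because `ψ ≠ 1` and `f_d d ≠ 0` in `F`. -/
def StWAC : Prop := ∀ (F : Type) [Field F] [Fintype F] (ψ : AddChar F ℂ) (f : F[X]), ψ ≠ 1 →
  (f.natDegree : F) ≠ 0 →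
  ‖∑ x : F, ψ (f.eval x)‖ ≤ ((f.natDegree : ℝ) - 1) * Real.sqrt (qr F)

open scoped Classical in
/-- **WKL** (Weil bound for Kloosterman sums).
Proof.  `r = X^2`, `N = 1`.  `χ(g) = ψ(-b g'(0)/g(0))` for `g(0) ≠ 0`, zero otherwise: a multiplicative
character of `AdjoinRoot (X^2)` (depends only on `g` modulo `X^2`; `g'/g` is additive), and
`χ(X - x) = ψ(b/x)`.  `ξ(v) = ψ(-a v'(0)/v(0))` on `TN F 1`, `ξ(1 - x X) = ψ(a x)`.  WS1:
`D - 1 = 2 + 1 - 1 = 2`.  Nontrivial: if `a ≠ 0`, `NTx ξ` (`v = 1 - c X`); if `b ≠ 0`, `χ ≠ 1`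
(`g = 1 + c X`). -/
def StWKL : Prop := ∀ (F : Type) [Field F] [Fintype F] (ψ : AddChar F ℂ) (a b : F), ψ ≠ 1 →
  (a ≠ 0 ∨ b ≠ 0) →
  ‖∑ x ∈ Finset.univ.filter (fun x : F => x ≠ 0), ψ (a * x + b * x⁻¹)‖ ≤ 2 * Real.sqrt (qr F)

/-- **WMX** (mixed sums: a multiplicative character of `f` times an additive character of `g`).
Proof.  As in WMC and WAC: `r = f`, `ψ1 = χ ∘ norm` on `AdjoinRoot f`, and `ξ` on `TN F d`, `d = deg g`, as in
WAC; WS1 with `N = d`: `D - 1 = deg f + d - 1`.  `NTx ξ` because `d ≠ 0` in `F`. -/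
def StWMX : Prop := ∀ (F : Type) [Field F] [Fintype F] (χ : MulChar F ℂ) (ψ : AddChar F ℂ)
  (f g : F[X]), f.Monic → ψ ≠ 1 → (g.natDegree : F) ≠ 0 →
  ‖∑ x : F, χ (f.eval x) * ψ (g.eval x)‖ ≤
    ((f.natDegree : ℝ) + g.natDegree - 1) * Real.sqrt (qr F)

end

end Pool.Agent.Helper15.FC
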