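import Pool.Agent.Helper15.FC.St3

set_option autoImplicit false

/-!
# Project FC, wave 5: the leading coefficient of the main term (singular series) and its
uniform positive lower bound
-/

open Polynomial

namespace Pool.Agent.Helper15.FC

noncomputable section

open scoped Classical in
/-- `G_0(r) = [r = 1]`, `G_(j+1)(r) = sum over the monic divisors e of r of (phi(e)/|e|) G_j(e)` -/
def Gk {F : Type} [Field F] [Fintype F] : ℕ → F[X] → ℝ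
  | 0, r => if r = 1 then 1 else 0
  | j + 1, r => ∑ e ∈ Dv r, (phi e : ℝ) / qr F ^ e.natDegree * Gk j e

/-- the terms of degree `i` of the singular series -/
def Gs {F : Type} [Field F] [Fintype F] (j j' : ℕ) (h : F[X]) (i : ℕ) : ℝ :=
  ∑ r ∈ Mn F i, Gk j r * Gk j' r * (qr F ^ (2 * i))⁻¹ * (cram r h : ℝ)

/-- **DVM** (divisors of products).  Proof.  ` (a, b) ↦ a b` is a bijection from the pairs of monic
divisors of coprime monic `r, s` to the monic divisors of `r s`; the monic divisors of `P^a` are the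
`P^i`, `i ≤ a` (distinct). -/
def StDVM : Prop := ∀ (F : Type) [Field F] [Fintype F],
  (∀ (r s : F[X]) (g : F[X] → ℝ), r.Monic → s.Monic → IsCoprime r s →
    ∑ e ∈ Dv (r * s), g e = ∑ a ∈ Dv r, ∑ b ∈ Dv s, g (a * b)) ∧
  ∀ (P : F[X]) (a : ℕ) (g : F[X] → ℝ), P.Monic → Irreducible P →
    ∑ e ∈ Dv (P ^ a), g e = ∑ i ∈ Finset.range (a + 1), g (P ^ i)

/-- **PHM** (Euler's function).  Proof.  Chinese remainder theorem for the units; for `P^(a+1)`: a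
residue `x` is prime to it iff `P` does not divide `x`, and `q^(a deg P)` residues are divisible by
`P`. -/
def StPHM : Prop := ∀ (F : Type) [Field F] [Fintype F],
  (∀ r s : F[X], r.Monic → s.Monic → IsCoprime r s → phi (r * s) = phi r * phi s) ∧
  ∀ (P : F[X]) (a : ℕ), P.Monic → Irreducible P →
    (phi (P ^ (a + 1)) : ℝ) = qr F ^ (P.natDegree * a) * (qr F ^ P.natDegree - 1)

/-- **GKM**.  Proof.  Induction on `j` with DVM and PHM; `phi(e) ≤ |e|` gives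
`0 ≤ G_(j+1)(r) ≤ sum_(e | r) G_j(e) ≤ tau(r) tau(r)^j` (`tau(e) ≤ tau(r)` for `e | r`). -/
def StGKM : Prop := ∀ (F : Type) [Field F] [Fintype F] (j : ℕ),
  (Gk j (1 : F[X]) = 1) ∧
  (∀ r s : F[X], r.Monic → s.Monic → IsCoprime r s → Gk j (r * s) = Gk j r * Gk j s) ∧
  (∀ r : F[X], r.Monic → 0 ≤ Gk j r ∧ Gk j r ≤ tau r ^ j)

/-- **GKP** (prime powers), `x = |P|^(-1)`.
Proof.  By DVM and PHM `G_(j+1)(P^a) = 1 + (1-x) sum_(i=1..a) G_j(P^i)` (`G_j(1) = 1`).  (ii) by induction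
on `j`: `j = 0` clear.  `x G_(j+1)(P^(a+1)) = x + (1-x) sum_(i=1..a+1) x G_j(P^i)
≤ x + (1-x) sum_(i=0..a) G_j(P^i) = 1 + (1-x) sum_(i=1..a) G_j(P^i) = G_(j+1)(P^a)`.
(i): `1 - x G_(j+1)(P) = 1 - x - (1-x) x G_j(P) = (1-x)(1 - x G_j(P))`, so
`x G_j(P) = 1 - (1-x)^j ≤ j x`. -/
def StGKP : Prop := ∀ (F : Type) [Field F] [Fintype F] (j : ℕ) (P : F[X]), P.Monic →
  Irreducible P →
  (qr F ^ P.natDegree)⁻¹ * Gk j P = 1 - (1 - (qr F ^ P.natDegree)⁻¹) ^ j ∧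
  (qr F ^ P.natDegree)⁻¹ * Gk j P ≤ j * (qr F ^ P.natDegree)⁻¹ ∧
  ∀ a : ℕ, (qr F ^ P.natDegree)⁻¹ * Gk j (P ^ (a + 1)) ≤ Gk j (P ^ a)

/-- **CRM** (Ramanujan sums are multiplicative; prime powers).
Proof.  `mob` is multiplicative on coprime monic polynomials (squarefree iff both are; the
normalized factors add), `mob 1 = 1`, `mob P = -1`, `mob (P^i) = 0` for `i ≥ 2`; DVM.
`cram (P^(a+1)) h = sum_(i ≤ a+1, P^i | h) mob(P^(a+1-i)) |P|^i = [P^(a+1) | h] |P|^(a+1) - [P^a | h] |P|^a`. -/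
def StCRM : Prop := ∀ (F : Type) [Field F] [Fintype F] (h : F[X]),
  (cram (1 : F[X]) h = 1) ∧
  (∀ r s : F[X], r.Monic → s.Monic → IsCoprime r s → cram (r * s) h = cram r h * cram s h) ∧
  (∀ (P : F[X]) (a : ℕ), P.Monic → Irreducible P →
    (P ^ (a + 1) ∣ h → cram (P ^ (a + 1)) h =
      (Fintype.card F : ℤ) ^ (P.natDegree * (a + 1)) - (Fintype.card F : ℤ) ^ (P.natDegree * a)) ∧
    (P ^ a ∣ h → ¬ P ^ (a + 1) ∣ h →
      cram (P ^ (a + 1)) h = - (Fintype.card F : ℤ) ^ (P.natDegree * a)) ∧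
    (¬ P ^ a ∣ h → cram (P ^ (a + 1)) h = 0))

/-- **LOC** (local factors).  Put `y_i = G_j(P^i) G_j'(P^i) |P|^(-2i)`: nonincreasing in the strong
sense `y_(i+1) ≤ y_i` (GKP (iii) for `j` and `j'`), `y_0 = 1`, `y_i ≥ 0`.
Proof.  Let `v` be the exponent of `P` in `h`, `v < a`.  By CRM the sum is
`f(v) = 1 + sum_(i=1..v) y_i (|P|^i - |P|^(i-1)) - y_(v+1) |P|^v`.  `f(0) = 1 - y_1` is the right side, and
`f(v) - f(v-1) = y_v (|P|^v - |P|^(v-1)) - y_(v+1) |P|^v + y_v |P|^(v-1) = |P|^v (y_v - y_(v+1)) ≥ 0`. -/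
def StLOC : Prop := ∀ (F : Type) [Field F] [Fintype F] (j j' a : ℕ) (P h : F[X]), P.Monic →
  Irreducible P → ¬ P ^ a ∣ h →
  1 - ((qr F ^ P.natDegree)⁻¹ * Gk j P) * ((qr F ^ P.natDegree)⁻¹ * Gk j' P) ≤
    ∑ i ∈ Finset.range (a + 1), Gk j (P ^ i) * Gk j' (P ^ i) *
      (qr F ^ (2 * (P ^ i).natDegree))⁻¹ * (cram (P ^ i) h : ℝ)

/-- **DSM** (sum of a multiplicative function over divisors).
Proof.  Induction on the finite set `PP` with DVM: `P^a` is prime to the product over the others. -/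
def StDSM : Prop := ∀ (F : Type) [Field F] [Fintype F] (w : F[X] → ℝ) (PP : Finset F[X]) (a : ℕ),
  w 1 = 1 → (∀ r s : F[X], r.Monic → s.Monic → IsCoprime r s → w (r * s) = w r * w s) →
  (∀ P ∈ PP, P.Monic ∧ Irreducible P) →
  ∑ r ∈ Dv (∏ P ∈ PP, P ^ a), w r = ∏ P ∈ PP, ∑ i ∈ Finset.range (a + 1), w (P ^ i)

/-- **SSP** (the singular series is bounded below, uniformly in `h`).
Proof.  `w(r) = G_j(r) G_j'(r) |r|^(-2) c_r(h)` is multiplicative (GKM, CRM).  Absolute convergence: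
`|cram r h| ≤ sum_(d | r, d | h) |d|`, `G_j G_j' ≤ tau^(j+j') ≤ C |r|^(1/4)` (TAU), and
`sum_(r∈M_i) sum_(d | r, d | h) |d| ≤ tau(h) q^i`, so `sum_(r∈M_i) |w(r)| ≤ C tau(h) q^(-3i/4)`.
For `D ≥ 1` let `PP` be the set of all monic irreducible `P` of degree `≤ D`, `a ≥ D` with `a > deg h`.
Every monic `r` of degree `≤ D` divides `R = prod P^a`; so
`|sum_(r∈Dv R) w(r) - sum_i sum_(r∈M_i) w(r)| ≤ sum_(i>D) sum_(r∈M_i) |w(r)|`, which tends to zero as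
`D → ∞`.  By DSM and LOC (`P^a` does not divide `h ≠ 0`)
`sum_(r∈Dv R) w(r) = prod_(P∈PP) (...) ≥ prod_(P∈PP) f_P` with
`f_P = 1 - (1-(1-x)^j)(1-(1-x)^j')`, `x = |P|^(-1)`; `0 < f_P` (because `0 < x < 1`) and
`f_P ≥ 1 - j j' x^2` (GKP).  For `deg P ≥ d0` with `q^(2 d0) ≥ 2 j j'` one has `1 - j j' x^2 ≥ exp(-2 j j' x^2)`, and
`sum_P |P|^(-2) ≤ sum_i q^i q^(-2i) ≤ 1`; so `prod f_P ≥ c := prod_(deg P<d0) f_P exp(-2 j j') > 0`. -/
def StSSP : Prop := ∀ (F : Type) [Field F] [Fintype F] (j j' : ℕ), ∃ c : ℝ, 0 < c ∧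
  ∀ h : F[X], h ≠ 0 → Summable (Gs j j' h) ∧ c ≤ ∑' i : ℕ, Gs j j' h i

/-- **GEV** (value of the numerator at `1/q`).
Proof.  Induction on `k` (for all `d` and all `Nn`).  `k = 0`: `Nn = 1` if `d = 1`, else `0` (DKR).  Step:
let `N_(k,d')` be the polynomials of BKD; GCC gives (multiply the generating functions)
`Nn = sum_(e∈Dv d) X^(deg e) (sum_(c∈Dv(d/e)) mob(c) X^(deg c)) N_(k,d/e)`.  Evaluate at `1/q`; use
`sum_(c∈Dv m) mob(c) q^(-deg c) = phi(m)/q^(deg m)` (MOB: `phi(m) = sum_(c | m) mob(c) |{x : c | x}|`) and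
the induction hypothesis: `sum_(e | d) q^(-deg e) phi(d/e) q^(-deg(d/e)) G_k(d/e) q^(-deg(d/e))
= q^(-deg d) sum_(e' | d) phi(e')/|e'| G_k(e') = q^(-deg d) G_(k+1)(d)`. -/
def StGEV : Prop := ∀ (F : Type) [Field F] [Fintype F] (k : ℕ) (d : F[X]) (Nn : ℝ[X]), d.Monic →
  PowerSeries.mk (fun n => Bkd k d n) * (1 - PowerSeries.C (qr F) * PowerSeries.X) ^ k =
    (Nn : PowerSeries ℝ) → Nn.eval (qr F)⁻¹ = Gk k d * (qr F ^ d.natDegree)⁻¹

/-- **KLC** (leading coefficients of the means).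
Proof.  As in POL: `Ak k r n = (1/phi r) sum_(d∈Dv r) mob(r/d) q^(deg d) Bkd k d n`, and by BKD, GEV
`Bkd k d n / (q^n n^(k-1)) → N_(k,d)(1/q)/(k-1)! = G_k(d) q^(-deg d)/(k-1)!` as `n → ∞`
(coefficients `binom(n-i+k-1,k-1) ~ n^(k-1)/(k-1)!`).  So
` (P r).coeff (k-1) = lim Ak/(q^n n^(k-1)) = (1/((k-1)! phi r)) sum_(d | r) mob(r/d) G_k(d)`, and by
`G_k(d) = sum_(e | d) (phi(e)/|e|) G_(k-1)(e)` and MOB the sum is ` (phi(r)/|r|) G_(k-1)(r)`. -/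
def StKLC : Prop := ∀ (F : Type) [Field F] [Fintype F] (k : ℕ) (P : F[X] → ℝ[X]), 1 ≤ k →
  PolOK F k P → ∀ r : F[X], r.Monic →
    (P r).coeff (k - 1) = Gk (k - 1) r * (qr F ^ r.natDegree)⁻¹ * ((k - 1).factorial : ℝ)⁻¹

end

end Pool.Agent.Helper15.FC
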