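import Pool.Agent.Helper26.FC.M_ACF
import Pool.Agent.Helper94.FC.M_AVT
import Pool.Agent.Helper58.FC.M_CMH
import Pool.Agent.Helper11.FC.M_CNV
import Pool.Agent.Helper97.FC.M_DIR
import Pool.Agent.Helper38.FC.M_DKM
import Pool.Agent.Helper62.FC.M_DKR
import Pool.Agent.Helper81.FC.M_COE
import Pool.Agent.Helper95.FC.M_DKB
import Pool.Agent.Helper11.FC.M_DVD
import Pool.Agent.Helper64.FC.M_DVM
import Pool.Agent.Helper16.FC.M_CRM
import Pool.Agent.Helper94.FC.M_DSM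
import Pool.Agent.Helper24.FC.M_EXF
import Pool.Agent.Helper67.FC.M_FOU
import Pool.Agent.Helper3.FC.M_COR
import Pool.Agent.Helper26.FC.M_GR0
import Pool.Agent.Helper94.FC.M_GR1
import Pool.Agent.Helper33.FC.M_HC
import Pool.Agent.Helper9.FC.M_INJ
import Pool.Agent.Helper37.FC.M_KAP
import Pool.Agent.Helper36.FC.M_KER
import Pool.Agent.Helper70.FC.M_LIN
import Pool.Agent.Helper7.FC.M_MAJ
import Pool.Agent.Helper21.FC.M_MAT
import Pool.Agent.Helper81.FC.M_MOB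
import Pool.Agent.Helper66.FC.M_GCC
import Pool.Agent.Helper36.FC.M_BKD
import Pool.Agent.Helper10.FC.M_GEV
import Pool.Agent.Helper2.FC.M_MOD
import Pool.Agent.Helper58.FC.M_NTS
import Pool.Agent.Helper76.FC.M_EMN
import Pool.Agent.Helper6.FC.M_NUM
import Pool.Agent.Helper31.FC.M_NWT
import Pool.Agent.Helper8.FC.M_FAC
import Pool.Agent.Helper86.FC.M_LOG
import Pool.Agent.Helper97.FC.M_ORR
import Pool.Agent.Helper36.FC.M_ORT
import Pool.Agent.Helper73.FC.M_MOM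
import Pool.Agent.Helper24.FC.M_PAR
import Pool.Agent.Helper30.FC.M_PHI
import Pool.Agent.Helper36.FC.M_KLC
import Pool.Agent.Helper81.FC.M_PHM
import Pool.Agent.Helper34.FC.M_GKM
import Pool.Agent.Helper91.FC.M_GKP
import Pool.Agent.Helper6.FC.M_LOC
import Pool.Agent.Helper8.FC.M_PLA
import Pool.Agent.Helper31.FC.M_POL
import Pool.Agent.Helper42.FC.M_PRD
import Pool.Agent.Helper48.FC.M_PTS
import Pool.Agent.Helper53.FC.M_IRB
import Pool.Agent.Helper51.FC.M_CNT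
import Pool.Agent.Helper22.FC.M_PSB
import Pool.Agent.Helper62.FC.M_PWR
import Pool.Agent.Helper2.FC.M_RAM
import Pool.Agent.Helper28.FC.M_RDC
import Pool.Agent.Helper29.FC.M_RED
import Pool.Agent.Helper64.FC.M_DAT
import Pool.Agent.Helper34.FC.M_RM2
import Pool.Agent.Helper39.FC.M_SOL
import Pool.Agent.Helper34.FC.M_SPL
import Pool.Agent.Helper48.FC.M_TAU
import Pool.Agent.Helper97.FC.M_SSP
import Pool.Agent.Helper15.FC.M_TLB
import Pool.Agent.Helper9.FC.M_PLY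
import Pool.Agent.Helper53.FC.M_TAL
import Pool.Agent.Helper8.FC.M_TRV
import Pool.Agent.Helper15.FC.M_UNI
import Pool.Agent.Helper22.FC.M_GAM
import Pool.Agent.Helper10.FC.M_MQH
import Pool.Agent.Helper2.FC.M_SME
import Pool.Agent.Helper98.FC.M_UPR
import Pool.Agent.Helper76.FC.M_VAR
import Pool.Agent.Helper31.FC.M_VB
import Pool.Agent.Helper76.FC.M_DEG
import Pool.Agent.Helper60.FC.M_DM
import Pool.Agent.Helper22.FC.M_EXT
import Pool.Agent.Helper2.FC.M_ORD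
import Pool.Agent.Helper16.FC.M_UB
import Pool.Agent.Helper75.FC.M_UBH
import Pool.Agent.Helper40.FC.M_STP
import Pool.Agent.Helper78.FC.M_GRP
import Pool.Agent.Helper89.FC.M_HEC
import Pool.Agent.Helper95.FC.M_ZS
import Pool.Agent.Helper72.FC.M_RH
import Pool.Agent.Helper70.FC.M_PRB
import Pool.Agent.Helper90.FC.M_SKB
import Pool.Agent.Helper31.FC.M_MQA
import Pool.Agent.Helper80.FC.M_TAI
import Pool.Agent.Helper57.FC.M_M2K
import Pool.Agent.Helper87.FC.M_DIS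
import Pool.Agent.Helper99.FC.M_TXB
import Pool.Agent.Helper42.FC.M_EBD
import Pool.Agent.Helper89.FC.M_EET
import Pool.Agent.Helper31.FC.M_L2M
import Pool.Agent.Helper87.FC.M_FN0
import Pool.Agent.Helper78.FC.M_FN1
import Pool.Agent.Helper62.FC.M_FN2
import Pool.Agent.Helper42.FC.M_WRH
import Pool.Agent.Helper64.FC.M_WS1
import Pool.Agent.Helper73.FC.M_WAC
import Pool.Agent.Helper8.FC.M_WKL
import Pool.Agent.Helper37.FC.M_WMC
import Pool.Agent.Helper29.FC.M_WMX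
import Pool.Agent.Helper15.FC.St3
import Pool.Agent.Helper15.FC.St4
import Pool.Agent.Helper15.FC.St5

set_option autoImplicit false

namespace Pool.Agent.Helper15.FC

theorem gACF : StACF := Pool.Agent.Helper26.FC.hACF

theorem gAVT : StAVT := Pool.Agent.Helper94.FC.hAVT

theorem gCMH : StCMH := Pool.Agent.Helper58.FC.hCMH

theorem gCNV : StCNV := Pool.Agent.Helper11.FC.hCNV

theorem gDIR : StDIR := Pool.Agent.Helper97.FC.hDIR gACF

theorem gDKM : StDKM := Pool.Agent.Helper38.FC.hDKM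

theorem gDKR : StDKR := Pool.Agent.Helper62.FC.hDKR

theorem gCOE : StCOE := Pool.Agent.Helper81.FC.hCOE gDKR gCNV

theorem gDKB : StDKB := Pool.Agent.Helper95.FC.hDKB gDKR gCNV

theorem gDVD : StDVD := Pool.Agent.Helper11.FC.hDVD

theorem gDVM : StDVM := Pool.Agent.Helper64.FC.hDVM

theorem gCRM : StCRM := Pool.Agent.Helper16.FC.hCRM gDVM

theorem gDSM : StDSM := Pool.Agent.Helper94.FC.hDSM gDVM

theorem gEXF : StEXF := Pool.Agent.Helper24.FC.hEXF

theorem gFOU : StFOU := Pool.Agent.Helper67.FC.hFOU gACF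

theorem gCOR : StCOR := Pool.Agent.Helper3.FC.hCOR gACF gFOU

theorem gGR0 : StGR0 := Pool.Agent.Helper26.FC.hGR0 gEXF

theorem gGR1 : StGR1 := Pool.Agent.Helper94.FC.hGR1

theorem gHC : StHC := Pool.Agent.Helper33.FC.hHC

theorem gINJ : StINJ := Pool.Agent.Helper9.FC.hINJ

theorem gKAP : StKAP := Pool.Agent.Helper37.FC.hKAP gDKR

theorem gKER : StKER := Pool.Agent.Helper36.FC.hKER

theorem gLIN : StLIN := Pool.Agent.Helper70.FC.hLIN

theorem gMAJ : StMAJ := Pool.Agent.Helper7.FC.hMAJ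

theorem gMAT : StMAT := Pool.Agent.Helper21.FC.hMAT

theorem gMOB : StMOB := Pool.Agent.Helper81.FC.hMOB

theorem gGCC : StGCC := Pool.Agent.Helper66.FC.hGCC gDKR gCNV gMOB

theorem gBKD : StBKD := Pool.Agent.Helper36.FC.hBKD gDKR gGCC

theorem gGEV : StGEV := Pool.Agent.Helper10.FC.hGEV gDKR gGCC gBKD gMOB

theorem gMOD : StMOD := Pool.Agent.Helper2.FC.hMOD

theorem gNTS : StNTS := Pool.Agent.Helper58.FC.hNTS

theorem gEMN : StEMN := Pool.Agent.Helper76.FC.hEMN gACF gNTS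

theorem gNUM : StNUM := Pool.Agent.Helper6.FC.hNUM

theorem gNWT : StNWT := Pool.Agent.Helper31.FC.hNWT

theorem gFAC : StFAC := Pool.Agent.Helper8.FC.hFAC gNWT

theorem gLOG : StLOG := Pool.Agent.Helper86.FC.hLOG gFAC

theorem gORR : StORR := Pool.Agent.Helper97.FC.hORR

theorem gORT : StORT := Pool.Agent.Helper36.FC.hORT

theorem gMOM : StMOM := Pool.Agent.Helper73.FC.hMOM gORT

theorem gPAR : StPAR := Pool.Agent.Helper24.FC.hPAR gACF

theorem gPHI : StPHI := Pool.Agent.Helper30.FC.hPHI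

theorem gKLC : StKLC := Pool.Agent.Helper36.FC.hKLC gBKD gGEV gMOB gPHI

theorem gPHM : StPHM := Pool.Agent.Helper81.FC.hPHM

theorem gGKM : StGKM := Pool.Agent.Helper34.FC.hGKM gDVM gPHM

theorem gGKP : StGKP := Pool.Agent.Helper91.FC.hGKP gDVM gPHM gGKM

theorem gLOC : StLOC := Pool.Agent.Helper6.FC.hLOC gGKP gGKM gCRM

theorem gPLA : StPLA := Pool.Agent.Helper8.FC.hPLA gACF gNTS

theorem gPOL : StPOL := Pool.Agent.Helper31.FC.hPOL gBKD gPHI

theorem gPRD : StPRD := Pool.Agent.Helper42.FC.hPRD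

theorem gPTS : StPTS := Pool.Agent.Helper48.FC.hPTS

theorem gIRB : StIRB := Pool.Agent.Helper53.FC.hIRB gPTS gEXF

theorem gCNT : StCNT := Pool.Agent.Helper51.FC.hCNT gMOM gIRB

theorem gPSB : StPSB := Pool.Agent.Helper22.FC.hPSB gIRB

theorem gPWR : StPWR := Pool.Agent.Helper62.FC.hPWR

theorem gRAM : StRAM := Pool.Agent.Helper2.FC.hRAM gACF gMOB

theorem gRDC : StRDC := Pool.Agent.Helper28.FC.hRDC gMOD

theorem gRED : StRED := Pool.Agent.Helper29.FC.hRED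

theorem gDAT : StDAT := Pool.Agent.Helper64.FC.hDAT gRED gLIN

theorem gRM2 : StRM2 := Pool.Agent.Helper34.FC.hRM2 gACF gMOB

theorem gSOL : StSOL := Pool.Agent.Helper39.FC.hSOL

theorem gSPL : StSPL := Pool.Agent.Helper34.FC.hSPL

theorem gTAU : StTAU := Pool.Agent.Helper48.FC.hTAU

theorem gSSP : StSSP := Pool.Agent.Helper97.FC.hSSP gGKM gGKP gCRM gLOC gDSM gTAU

theorem gTLB : StTLB := Pool.Agent.Helper15.FC.hTLB gTAU

theorem gPLY : StPLY := Pool.Agent.Helper9.FC.hPLY gTLB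

theorem gTAL : StTAL := Pool.Agent.Helper53.FC.hTAL gTLB

theorem gTRV : StTRV := Pool.Agent.Helper8.FC.hTRV

theorem gUNI : StUNI := Pool.Agent.Helper15.FC.hUNI gACF

theorem gGAM : StGAM := Pool.Agent.Helper22.FC.hGAM gACF gUNI

theorem gMQH : StMQH := Pool.Agent.Helper10.FC.hMQH gACF gUNI

theorem gSME : StSME := Pool.Agent.Helper2.FC.hSME gACF gUNI gPAR

theorem gUPR : StUPR := Pool.Agent.Helper98.FC.hUPR gORR

theorem gVAR : StVAR := Pool.Agent.Helper76.FC.hVAR gORT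

theorem gVB : StVB := Pool.Agent.Helper31.FC.hVB

theorem gDEG : StDEG := Pool.Agent.Helper76.FC.hDEG gVB

theorem gDM : StDM := Pool.Agent.Helper60.FC.hDM gVB

theorem gEXT : StEXT := Pool.Agent.Helper22.FC.hEXT gVB

theorem gORD : StORD := Pool.Agent.Helper2.FC.hORD gVB

theorem gUB : StUB := Pool.Agent.Helper16.FC.hUB gVB gDAT gDEG gORD gINJ gKER gMOD gRDC gDVD

theorem gUBH : StUBH := Pool.Agent.Helper75.FC.hUBH gVB gDAT gDEG gMOD gDVD

theorem gSTP : StSTP := Pool.Agent.Helper40.FC.hSTP gDAT gDM gEXT gHC gNUM gUB gUBH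

theorem gGRP : StGRP := Pool.Agent.Helper78.FC.hGRP gEXF gSOL gPRD gMAT gGR0 gGR1 gSTP

theorem gHEC : StHEC := Pool.Agent.Helper89.FC.hHEC gPTS gPRD gGRP gCMH

theorem gZS : StZS := Pool.Agent.Helper95.FC.hZS

theorem gRH : StRH := Pool.Agent.Helper72.FC.hRH gCMH gZS gFAC gHEC gPWR

theorem gPRB : StPRB := Pool.Agent.Helper70.FC.hPRB gMAJ gLOG gPSB gCMH gZS gRH

theorem gSKB : StSKB := Pool.Agent.Helper90.FC.hSKB gSPL gDKM gUPR gRAM gCMH gZS gCOE gAVT gTRV gORR gACF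

theorem gMQA : StMQA := Pool.Agent.Helper31.FC.hMQA gRM2 gRAM gSKB gDKB gACF

theorem gTAI : StTAI := Pool.Agent.Helper80.FC.hTAI gPRB gCNT gTRV gCMH

theorem gM2K : StM2K := Pool.Agent.Helper57.FC.hM2K gTAI gTRV gORT

theorem gDIS : StDIS := Pool.Agent.Helper87.FC.hDIS gM2K gCOE gAVT gCMH gZS

theorem gTXB : StTXB := Pool.Agent.Helper99.FC.hTXB gSPL gDKM gUPR gDIS gORR

theorem gEBD : StEBD := Pool.Agent.Helper42.FC.hEBD gTXB gVAR

theorem gEET : StEET := Pool.Agent.Helper89.FC.hEET gACF gDIR gUNI gEMN gEBD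

theorem gL2M : StL2M := Pool.Agent.Helper31.FC.hL2M gCOR gMQH gPLA gGAM gEET gSME gDKB gACF

theorem gFN0 : StFN0 := Pool.Agent.Helper87.FC.hFN0 gKAP gL2M gMQA gTAL

theorem gFN1 : StFN1 := Pool.Agent.Helper78.FC.hFN1 gFN0 gTAU

theorem gFN2 : StFN2 := Pool.Agent.Helper62.FC.hFN2 gFN1 gDKR

theorem gWRH : StWRH := Pool.Agent.Helper42.FC.hWRH gCMH gZS gFAC gRH

theorem gWS1 : StWS1 := Pool.Agent.Helper64.FC.hWS1 gWRH

theorem gWAC : StWAC := Pool.Agent.Helper73.FC.hWAC gWS1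

theorem gWKL : StWKL := Pool.Agent.Helper8.FC.hWKL gWS1

theorem gWMC : StWMC := Pool.Agent.Helper37.FC.hWMC gWS1

theorem gWMX : StWMX := Pool.Agent.Helper29.FC.hWMX gWS1

end Pool.Agent.Helper15.FC
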