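import Mathlib

set_option autoImplicit false

/-!
Project FC (MP_16cbc0_nt): definitions.  `F` is a finite field with `q` elements, `A = F[X]`.
-/

open Polynomial

namespace Pool.Agent.Helper15.FC

noncomputable section

/-! ### monic polynomials of degree `n`, polynomials of degree `< m` -/

/-- the polynomial of degree `< m` with coefficients `v` -/
def low {F : Type} [Field F] {m : ℕ} (v : Fin m → F) : F[X] := ∑ i : Fin m, C (v i) * X ^ (i : ℕ)

/-- the monic polynomial of degree `n` with lower coefficients `v` -/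
def mon {F : Type} [Field F] {n : ℕ} (v : Fin n → F) : F[X] := X ^ n + low v

open scoped Classical in
/-- the finite set of all monic polynomials of degree `n` -/
def Mn (F : Type) [Field F] [Fintype F] (n : ℕ) : Finset F[X] :=
  Finset.univ.image (fun v : Fin n → F => mon v)

open scoped Classical in
/-- the finite set of all polynomials of degree `< m` -/
def Lw (F : Type) [Field F] [Fintype F] (m : ℕ) : Finset F[X] :=
  Finset.univ.image (fun v : Fin m → F => low v)

theorem low_degree {F : Type} [Field F] {m : ℕ} (v : Fin m → F) : (low v).degree < m := by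
  unfold low
  rw [Polynomial.degree_lt_iff_coeff_zero]
  intro j hj
  rw [Polynomial.finset_sum_coeff]
  refine Finset.sum_eq_zero fun i _ => ?_
  rw [Polynomial.coeff_C_mul_X_pow, if_neg]
  intro h
  have := i.2
  omega

theorem low_coeff {F : Type} [Field F] {m : ℕ} (v : Fin m → F) (i : Fin m) :
    (low v).coeff i = v i := by
  unfold low
  rw [Polynomial.finset_sum_coeff, Finset.sum_eq_single i]
  · rw [Polynomial.coeff_C_mul_X_pow, if_pos rfl]
  · intro b _ hb
    rw [Polynomial.coeff_C_mul_X_pow, if_neg]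
    intro h
    exact hb (Fin.ext h.symm)
  · intro h
    exact absurd (Finset.mem_univ i) h

theorem low_injective {F : Type} [Field F] {m : ℕ} :
    Function.Injective (fun v : Fin m → F => low v) := by
  intro v w h
  funext i
  have := congrArg (fun p : F[X] => p.coeff i) h
  simpa [low_coeff] using this

theorem mon_injective {F : Type} [Field F] {m : ℕ} :
    Function.Injective (fun v : Fin m → F => mon v) := by
  intro v w h
  exact low_injective (add_left_cancel h)

theorem mem_Lw {F : Type} [Field F] [Fintype F] {m : ℕ} {f : F[X]} :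
    f ∈ Lw F m ↔ f.degree < m := by
  classical
  unfold Lw
  rw [Finset.mem_image]
  constructor
  · rintro ⟨v, -, rfl⟩
    exact low_degree v
  · intro h
    refine ⟨fun i => f.coeff i, Finset.mem_univ _, ?_⟩
    ext j
    by_cases hj : j < m
    · exact low_coeff (fun i : Fin m => f.coeff i) ⟨j, hj⟩
    · have h1 := low_degree (fun i : Fin m => f.coeff i)
      rw [Polynomial.degree_lt_iff_coeff_zero] at h h1
      rw [h j (not_lt.1 hj), h1 j (not_lt.1 hj)]

theorem mem_Mn {F : Type} [Field F] [Fintype F] {n : ℕ} {f : F[X]} :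
    f ∈ Mn F n ↔ f.Monic ∧ f.natDegree = n := by
  classical
  unfold Mn
  rw [Finset.mem_image]
  constructor
  · rintro ⟨v, -, rfl⟩
    have h := low_degree v
    refine ⟨Polynomial.monic_X_pow_add h, ?_⟩
    exact Polynomial.natDegree_eq_of_degree_eq_some
      (by rw [mon, Polynomial.degree_add_eq_left_of_degree_lt (by rwa [Polynomial.degree_X_pow]),
        Polynomial.degree_X_pow])
  · rintro ⟨h1, h2⟩
    have h3 : (f - X ^ n).degree < (n : WithBot ℕ) := by
      have := Polynomial.degree_sub_lt (p := f) (q := X ^ n)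
        (by rw [Polynomial.degree_X_pow, Polynomial.degree_eq_natDegree h1.ne_zero, h2])
        h1.ne_zero (by rw [h1.leadingCoeff, Polynomial.leadingCoeff_X_pow])
      rwa [Polynomial.degree_eq_natDegree h1.ne_zero, h2] at this
    have h4 : f - X ^ n ∈ Lw F n := mem_Lw.2 h3
    unfold Lw at h4
    rw [Finset.mem_image] at h4
    obtain ⟨v, -, hv⟩ := h4
    refine ⟨v, Finset.mem_univ _, ?_⟩
    change X ^ n + low v = f
    have hv' : low v = f - X ^ n := hv
    rw [hv']
    ring

theorem card_Lw (F : Type) [Field F] [Fintype F] (m : ℕ) :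
    (Lw F m).card = Fintype.card F ^ m := by
  classical
  unfold Lw
  rw [Finset.card_image_of_injective _ low_injective, Finset.card_univ, Fintype.card_fun,
    Fintype.card_fin]

theorem card_Mn (F : Type) [Field F] [Fintype F] (n : ℕ) :
    (Mn F n).card = Fintype.card F ^ n := by
  classical
  unfold Mn
  rw [Finset.card_image_of_injective _ mon_injective, Finset.card_univ, Fintype.card_fun,
    Fintype.card_fin]

/-! ### finite sets of everything -/

open scoped Classical in
/-- all elements of a finite type (empty for infinite types) -/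
def allF (α : Type) : Finset α :=
  if h : Finite α then (@Set.toFinite α Set.univ (@Subtype.finite α h _)).toFinset else ∅

theorem mem_allF {α : Type} [h : Finite α] (a : α) : a ∈ allF α := by
  unfold allF
  rw [dif_pos h]
  simp

theorem allF_eq_univ {α : Type} [Fintype α] : allF α = Finset.univ := by
  ext a
  simp [mem_allF]

/-! ### arithmetic functions -/

/-- the `k`-fold divisor function -/
def dk {F : Type} [Field F] (k : ℕ) (f : F[X]) : ℕ :=
  Nat.card {g : Fin k → F[X] // (∀ i, (g i).Monic) ∧ ∏ i, g i = f}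

/-- the correlation sum `S_{k,l}(n;h)` -/
def Corr (F : Type) [Field F] [Fintype F] (k l n : ℕ) (h : F[X]) : ℕ :=
  ∑ f ∈ Mn F n, dk k f * dk l (f + h)

open scoped Classical in
/-- monic divisors of `r` -/
def Dv {F : Type} [Field F] [Fintype F] (r : F[X]) : Finset F[X] :=
  ((Finset.range (r.natDegree + 1)).biUnion (fun i => Mn F i)).filter (fun d => d ∣ r)

theorem mem_Dv {F : Type} [Field F] [Fintype F] {r d : F[X]} (hr : r ≠ 0) :
    d ∈ Dv r ↔ d.Monic ∧ d ∣ r := by
  classical
  unfold Dv
  rw [Finset.mem_filter, Finset.mem_biUnion]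
  constructor
  · rintro ⟨⟨i, -, hi⟩, h⟩
    exact ⟨(mem_Mn.1 hi).1, h⟩
  · rintro ⟨h1, h2⟩
    exact ⟨⟨d.natDegree, Finset.mem_range.2
      (Nat.lt_succ_of_le (Polynomial.natDegree_le_of_dvd h2 hr)), mem_Mn.2 ⟨h1, rfl⟩⟩, h2⟩

open scoped Classical in
/-- the Moebius function on monic polynomials -/
def mob {F : Type} [Field F] (f : F[X]) : ℤ :=
  if Squarefree f then (-1) ^ (Multiset.card (UniqueFactorizationMonoid.normalizedFactors f))
  else 0

open scoped Classical in
/-- Euler's function: residues mod `r` prime to `r` -/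
def phi {F : Type} [Field F] [Fintype F] (r : F[X]) : ℕ :=
  ((Lw F r.natDegree).filter (fun x => IsCoprime x r)).card

open scoped Classical in
/-- the Ramanujan sum `c_r(h) = sum over the monic common divisors d of r and h of mu(r/d) |d|` -/
def cram {F : Type} [Field F] [Fintype F] (r h : F[X]) : ℤ :=
  ∑ d ∈ (Dv r).filter (fun d => d ∣ h), mob (r / d) * (Fintype.card F : ℤ) ^ d.natDegree

/-- `A_k(r;n) = (1/phi(r)) sum over f monic of degree n of d_k(f) c_r(f)` -/
def Ak {F : Type} [Field F] [Fintype F] (k : ℕ) (r : F[X]) (n : ℕ) : ℝ :=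
  (1 / (phi r : ℝ)) * ∑ f ∈ Mn F n, (dk k f : ℝ) * (cram r f : ℝ)

/-! ### multiplicative functions, L-polynomials -/

/-- completely multiplicative functions on monic polynomials, bounded by 1 -/
def CM {F : Type} [Field F] (Χ : F[X] → ℂ) : Prop :=
  Χ 1 = 1 ∧ (∀ f g : F[X], f.Monic → g.Monic → Χ (f * g) = Χ f * Χ g) ∧
    ∀ f : F[X], f.Monic → ‖Χ f‖ ≤ 1

/-- `A_d(Χ)`: the sum of `Χ` over the monic polynomials of degree `d` -/
def Asum {F : Type} [Field F] [Fintype F] (Χ : F[X] → ℂ) (d : ℕ) : ℂ := ∑ f ∈ Mn F d, Χ f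

/-- the L-polynomial (it is used when `A_d(Χ) = 0` for `d ≥ D`) -/
def Lp {F : Type} [Field F] [Fintype F] (Χ : F[X] → ℂ) (D : ℕ) : ℂ[X] :=
  ∑ d ∈ Finset.range D, C (Asum Χ d) * X ^ d

open scoped Classical in
/-- monic irreducible polynomials of degree `d` -/
def Ir (F : Type) [Field F] [Fintype F] (d : ℕ) : Finset F[X] := (Mn F d).filter Irreducible

/-- the weighted prime power sum `sum over f monic of degree s of Λ(f) Χ(f)` -/
def Psi {F : Type} [Field F] [Fintype F] (Χ : F[X] → ℂ) (s : ℕ) : ℂ :=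
  ∑ d ∈ s.divisors, (d : ℂ) * ∑ P ∈ Ir F d, Χ P ^ (s / d)

/-- the ring `F[X]/(X^(N+1))`, which carries the short interval characters -/
abbrev TN (F : Type) [Field F] (N : ℕ) : Type := AdjoinRoot (X ^ (N + 1) : F[X])

/-- the Hecke character `f ↦ χ(f mod r) ξ(f* mod X^(N+1))`, `f* = f.reverse` -/
def Hk {F : Type} [Field F] (r : F[X]) (N : ℕ) (χ : MulChar (AdjoinRoot r) ℂ)
    (ξ : MulChar (TN F N) ℂ) (f : F[X]) : ℂ :=
  χ (AdjoinRoot.mk r f) * ξ (AdjoinRoot.mk (X ^ (N + 1) : F[X]) f.reverse)

/-- `ξ` is not trivial on the one-units -/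
def NTx {F : Type} [Field F] {N : ℕ} (ξ : MulChar (TN F N) ℂ) : Prop :=
  ∃ v : F[X], v.coeff 0 = 1 ∧ ξ (AdjoinRoot.mk (X ^ (N + 1) : F[X]) v) ≠ 1

/-- the quotient by a monic polynomial is finite -/
theorem finite_AR {F : Type} [Field F] [Fintype F] {r : F[X]} (hr : r.Monic) :
    Finite (AdjoinRoot r) := by
  have hsurj : Function.Surjective
      (fun v : (Lw F r.natDegree : Set F[X]) => AdjoinRoot.mk r (v : F[X])) := by
    intro x
    obtain ⟨f, rfl⟩ := AdjoinRoot.mk_surjective x
    by_cases h1 : r = 1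
    · subst h1
      refine ⟨⟨0, by simp [mem_Lw]⟩, ?_⟩
      change AdjoinRoot.mk (1 : F[X]) 0 = AdjoinRoot.mk 1 f
      rw [AdjoinRoot.mk_eq_mk]
      exact one_dvd _
    · refine ⟨⟨f %ₘ r, ?_⟩, ?_⟩
      · have := Polynomial.degree_modByMonic_lt f hr
        rw [Polynomial.degree_eq_natDegree hr.ne_zero] at this
        exact Finset.mem_coe.2 (mem_Lw.2 this)
      · change AdjoinRoot.mk r (f %ₘ r) = AdjoinRoot.mk r f
        rw [AdjoinRoot.mk_eq_mk]
        refine ⟨-(f /ₘ r), ?_⟩
        have := Polynomial.modByMonic_add_div f r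
        linear_combination this
  exact Finite.of_surjective _ hsurj

instance finite_TN (F : Type) [Field F] [Fintype F] (N : ℕ) : Finite (TN F N) :=
  finite_AR (Polynomial.monic_X_pow (N + 1))

open scoped Classical in
/-- the characters of `TN F N` that are not trivial on the one-units -/
def XiNT (F : Type) [Field F] (N : ℕ) : Finset (MulChar (TN F N) ℂ) :=
  (allF (MulChar (TN F N) ℂ)).filter NTx

/-- the number of units of `F[X]/(X^(N+1))`: ` (q-1) q^N` -/
def uN (F : Type) [Field F] [Fintype F] (N : ℕ) : ℝ :=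
  ((Fintype.card F : ℝ) - 1) * (Fintype.card F : ℝ) ^ N

/-! ### the Lang torsor: power series -/

/-- the point ` (z, y_1, …, y_b)` -/
def pt {L : Type} [Field L] {b : ℕ} (y : Fin b → PowerSeries L) :
    Option (Fin b) → PowerSeries L := fun o => o.elim PowerSeries.X y

/-- evaluation of polynomials in `z, Y_1, …, Y_b` at the point -/
def ev {L : Type} [Field L] {b : ℕ} (y : Fin b → PowerSeries L) :
    MvPolynomial (Option (Fin b)) L →ₐ[L] PowerSeries L := MvPolynomial.aeval (pt y)

/-- the space `V_j` of the values of all polynomials of total degree `≤ j` -/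
def Vj {L : Type} [Field L] {b : ℕ} (y : Fin b → PowerSeries L) (j : ℕ) :
    Submodule L (PowerSeries L) :=
  (MvPolynomial.restrictTotalDegree (Option (Fin b)) L j).map (ev y).toLinearMap

/-- the ring `R = L[z, y_1, …, y_b]` -/
def RR {L : Type} [Field L] {b : ℕ} (y : Fin b → PowerSeries L) : Subalgebra L (PowerSeries L) :=
  (ev y).range

/-- the functional system `y_i ^ q = sum_j XX_ij(z) y_j`, with `deg XX_ij ≤ q - 1` -/
def Sys {L : Type} [Field L] {b : ℕ} (q : ℕ) (XX : Matrix (Fin b) (Fin b) L[X])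
    (y : Fin b → PowerSeries L) : Prop :=
  (∀ i, y i ^ q = ∑ j, (XX i j : PowerSeries L) * y j) ∧ ∀ i j, (XX i j).natDegree ≤ q - 1

/-- the linear substitution `c y` -/
def cy {L : Type} [Field L] {b : ℕ} (c : Matrix (Fin b) (Fin b) L) (y : Fin b → PowerSeries L) :
    Fin b → PowerSeries L := fun i => ∑ j, PowerSeries.C (c i j) * y j

/-- `c` preserves all polynomial relations of the point -/
def Rel {L : Type} [Field L] {b : ℕ} (y : Fin b → PowerSeries L)
    (c : Matrix (Fin b) (Fin b) L) : Prop :=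
  ∀ Φ : MvPolynomial (Option (Fin b)) L, ev y Φ = 0 → ev (cy c y) Φ = 0

/-- extension of scalars of the point -/
def upL {k : Type} [Field k] (L : Type) [Field L] [Algebra k L] {b : ℕ}
    (y : Fin b → PowerSeries k) : Fin b → PowerSeries L :=
  fun i => PowerSeries.map (algebraMap k L) (y i)

/-- the norm `XX(a^(q^(s-1))) ⋯ XX(a^q) XX(a)` -/
def NmX {k : Type} [Field k] {L : Type} [Field L] [Algebra k L] {b : ℕ}
    (XX : Matrix (Fin b) (Fin b) k[X]) (q : ℕ) (a : L) : ℕ → Matrix (Fin b) (Fin b) L
  | 0 => 1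
  | i + 1 => (XX.map (fun p => aeval (a ^ (q ^ i)) p)) * NmX XX q a i

/-- the monomial `y^e` -/
def ymon {L : Type} [Field L] {b q : ℕ} (y : Fin b → PowerSeries L) (e : Fin b → Fin q) :
    PowerSeries L := ∏ t, y t ^ (e t : ℕ)

/-- `R` is, up to the denominator `D`, free over `L[z]` with basis `y^e`, `e ∈ I`, compatible
with the degree filtration up to the shift `C` -/
def Dat {L : Type} [Field L] {b q : ℕ} (y : Fin b → PowerSeries L)
    (I : Finset (Fin b → Fin q)) (D : L[X]) (C : ℕ) : Prop :=
  D ≠ 0 ∧ I.Nonempty ∧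
  (∀ G : (Fin b → Fin q) → L[X], ∑ e ∈ I, (G e : PowerSeries L) * ymon y e = 0 →
    ∀ e ∈ I, G e = 0) ∧
  (∀ (j : ℕ) (u : PowerSeries L), u ∈ Vj y j → ∃ G : (Fin b → Fin q) → L[X],
    (∀ e, (G e).natDegree ≤ j + C) ∧ (D : PowerSeries L) * u =
      ∑ e ∈ I, (G e : PowerSeries L) * ymon y e)

end

end Pool.Agent.Helper15.FC
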