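import Pool.Agent.Helper15.FC.St5

set_option autoImplicit false

open Polynomial

namespace Pool.Agent.Helper15.FC

theorem qr_pos (F : Type) [Field F] [Fintype F] : 0 < qr F := by
  have : 0 < Fintype.card F := Fintype.card_pos
  exact_mod_cast this

private theorem coeffTerm {F : Type} [Field F] [Fintype F] (k l : ℕ) (P P' : F[X] → ℝ[X])
    (hP : ∀ r : F[X], r.Monic →
      (P r).coeff (k - 1) = Gk (k - 1) r * (qr F ^ r.natDegree)⁻¹ * ((k - 1).factorial : ℝ)⁻¹)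
    (hP' : ∀ r : F[X], r.Monic →
      (P' r).coeff (l - 1) = Gk (l - 1) r * (qr F ^ r.natDegree)⁻¹ * ((l - 1).factorial : ℝ)⁻¹)
    (h : F[X]) (i : ℕ) :
    ∑ r ∈ Mn F i, (P r).coeff (k - 1) * (P' r).coeff (l - 1) * (cram r h : ℝ) =
      (((k - 1).factorial : ℝ)⁻¹ * ((l - 1).factorial : ℝ)⁻¹) * Gs (k - 1) (l - 1) h i := by
  unfold Gs
  rw [Finset.mul_sum]
  refine Finset.sum_congr rfl fun r hr => ?_
  obtain ⟨h1, h2⟩ := mem_Mn.1 hr
  rw [hP r h1, hP' r h1, h2]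
  have : (qr F ^ (2 * i))⁻¹ = (qr F ^ i)⁻¹ * (qr F ^ i)⁻¹ := by
    rw [two_mul, pow_add, mul_inv]
  rw [this]
  ring

theorem finOf (hPOL : StPOL) (hPLY : StPLY) (hKLC : StKLC) (hSSP : StSSP) (hTAL : StTAL)
    (hFN2 : StFN2) (F : Type) [Field F] [Fintype F] (k l : ℕ) (hk : 1 ≤ k) (hl : 1 ≤ l) :
    ∃ P P' p : F[X] → ℝ[X],
      (∀ r : F[X], r.Monic → (P r).natDegree ≤ k - 1 ∧
        ∀ n : ℕ, k * r.natDegree ≤ n →
          (1 / (phi r : ℝ)) * ∑ f ∈ Mn F n, (dk k f : ℝ) * (cram r f : ℝ) =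
            (Fintype.card F : ℝ) ^ n * (P r).eval (n : ℝ)) ∧
      (∀ r : F[X], r.Monic → (P' r).natDegree ≤ l - 1 ∧
        ∀ n : ℕ, l * r.natDegree ≤ n →
          (1 / (phi r : ℝ)) * ∑ f ∈ Mn F n, (dk l f : ℝ) * (cram r f : ℝ) =
            (Fintype.card F : ℝ) ^ n * (P' r).eval (n : ℝ)) ∧
      (∀ h : F[X], h ≠ 0 → (p h).natDegree ≤ k + l - 2 ∧
        (∀ n : ℕ, HasSum (fun i : ℕ => ∑ r ∈ Mn F i,
          (P r).eval (n : ℝ) * (P' r).eval (n : ℝ) * (cram r h : ℝ)) ((p h).eval (n : ℝ))) ∧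
        HasSum (fun i : ℕ => ∑ r ∈ Mn F i, Gk (k - 1) r * Gk (l - 1) r *
          ((Fintype.card F : ℝ) ^ (2 * i))⁻¹ * (cram r h : ℝ))
          (((k - 1).factorial : ℝ) * ((l - 1).factorial : ℝ) * (p h).coeff (k + l - 2))) ∧
      (∃ c : ℝ, 0 < c ∧ ∀ h : F[X], h ≠ 0 → c ≤ (p h).coeff (k + l - 2)) ∧
      ∃ δ C : ℝ, 0 < δ ∧ 0 < C ∧ ∀ m : ℕ, ∃ E : Finset F[X],
        (E.card : ℝ) ≤ C * (Fintype.card F : ℝ) ^ ((1 - δ) * m) ∧
        ∀ h : F[X], h ≠ 0 → h.degree < m → h ∉ E →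
          ∀ n : ℕ, m ≤ n → (n : ℝ) ≤ (Fintype.card F : ℝ) ^ (δ * m) →
            |((∑ f ∈ Mn F n, dk k f * dk l (f + h) : ℕ) : ℝ) -
                (Fintype.card F : ℝ) ^ n * (p h).eval (n : ℝ)| ≤
              C * (Fintype.card F : ℝ) ^ (-(δ * m)) *
                ((Fintype.card F : ℝ) ^ n * (p h).eval (n : ℝ)) := by
  obtain ⟨P, hP⟩ := hPOL F k hk
  obtain ⟨P', hP'⟩ := hPOL F l hl
  have hq := qr_pos F
  choose! p hp using hPLY F k l P P' hk hl hP hP'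
  obtain ⟨C0, hC0, hC⟩ := hTAL F k l P P' hk hl hP hP'
  obtain ⟨c, hc, hcs⟩ := hSSP F (k - 1) (l - 1)
  have hkl : 0 < ((k - 1).factorial : ℝ) * ((l - 1).factorial : ℝ) := by positivity
  have key : ∀ h : F[X], h ≠ 0 → ((k - 1).factorial : ℝ) * ((l - 1).factorial : ℝ) *
      (p h).coeff (k + l - 2) = ∑' i : ℕ, Gs (k - 1) (l - 1) h i := by
    intro h hh
    rw [(hp h hh).2.2]
    rw [tsum_congr (fun i => coeffTerm k l P P' (hKLC F k P hk hP) (hKLC F l P' hl hP') h i),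
      tsum_mul_left]
    field_simp
  have hM : ∀ h : F[X], h ≠ 0 → ∀ n : ℕ, Mt P P' n h = qr F ^ n * (p h).eval (n : ℝ) :=
    fun h hh => (hp h hh).2.1
  refine ⟨P, P', p, fun r hr => ⟨(hP r hr).1, fun n hn => (hP r hr).2.1 n hn⟩,
    fun r hr => ⟨(hP' r hr).1, fun n hn => (hP' r hr).2.1 n hn⟩, ?_, ?_, ?_⟩
  · intro h hh
    refine ⟨(hp h hh).1, ?_, ?_⟩
    · intro n
      have h1 := (hC h n 0 hh).1.hasSum
      have h2 : ∑' i, Ti P P' n h i = (p h).eval (n : ℝ) := by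
        have h3 := hM h hh n
        unfold Mt at h3
        exact mul_left_cancel₀ (pow_pos hq n).ne' h3
      rw [h2] at h1
      exact h1
    · rw [key h hh]
      exact (hcs h hh).1.hasSum
  · refine ⟨c / (((k - 1).factorial : ℝ) * ((l - 1).factorial : ℝ)), by positivity, ?_⟩
    intro h hh
    rw [div_le_iff₀ hkl]
    have := (hcs h hh).2
    rw [← key h hh] at this
    linarith
  · obtain ⟨δ, C, hδ, h1C, hE⟩ := hFN2 F k l P P' hk hl hP hP'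
    refine ⟨δ, C, hδ, by linarith, fun m => ?_⟩
    obtain ⟨E, hE1, hE2⟩ := hE m
    refine ⟨E, hE1, ?_⟩
    intro h hh hd hhE n hn1 hn2
    have h3 := hE2 h hh hd hhE n hn1 hn2
    rw [hM h hh n] at h3
    exact h3

end Pool.Agent.Helper15.FC
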