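import Pool.Agent.Helper15.FC.Defs

set_option autoImplicit false

/-!
# Project FC, wave 1: the Riemann hypothesis for all Hecke characters of `F[X]`
(Stepanov-Bombieri argument on the Lang torsor, power series only).

Overview.  `k` is a finite field with `q` elements, `XX` a `b x b` matrix over `k[z]`, and
`y = (y_1, …, y_b)` a vector of power series over `k` with `y_i ^ q = sum_j XX_ij(z) y_j`.
For a finite extension `L` of `k` with `q^s` elements and `a` in `L` put
`Nm(a) = XX(a^(q^(s-1))) ⋯ XX(a^q) XX(a)`.  For a matrix `c` over `k` the number `N_c` of the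
`a` in `L` with `Nm(a) = c` is `≤ |L|/h + C sqrt|L|`, where `h` is the rank of
`R = k[z, y_1, …, y_b]` over `k[z]`, because modulo `z - a` one has `y^(|L|) = c y`.
-/

open Polynomial

namespace Pool.Agent.Helper15.FC

noncomputable section

/-- **VB** (basic facts on `V_j`).
Proof.  `u = ev y Φ`, `v = ev y Ψ` with total degrees `≤ i`, `≤ j` (`MvPolynomial.mem_restrictTotalDegree`);
`u v = ev y (Φ Ψ)` and `MvPolynomial.totalDegree_mul`.  `X^i = ev y (X none ^ i)`.  The space of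
polynomials of total degree `≤ j` in finitely many variables is finite dimensional (it is spanned
by the finitely many monomials of degree `≤ j`), so its image is.  Every polynomial has some
total degree. -/
def StVB : Prop := ∀ (L : Type) [Field L] (b : ℕ) (y : Fin b → PowerSeries L),
  (∀ (i j : ℕ) (u v : PowerSeries L), u ∈ Vj y i → v ∈ Vj y j → u * v ∈ Vj y (i + j)) ∧
  (∀ i j : ℕ, i ≤ j → Vj y i ≤ Vj y j) ∧
  (∀ i : ℕ, (PowerSeries.X : PowerSeries L) ^ i ∈ Vj y i) ∧
  (∀ (j : ℕ) (a : L), PowerSeries.C a ∈ Vj y j) ∧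
  (∀ t : Fin b, y t ∈ Vj y 1) ∧
  (∀ j : ℕ, FiniteDimensional L (Vj y j)) ∧
  (∀ u : PowerSeries L, u ∈ RR y ↔ ∃ j : ℕ, u ∈ Vj y j)

/-- **RED** (reduction of exponents).  `V_j` is spanned by the `X^i y^e` with all `e_t < q` and
`i + sum e ≤ j`.
Proof.  `V_j` is spanned by the `X^i y^e` with `e : Fin b → ℕ` arbitrary, `i + |e| ≤ j`.  Induction
on `|e|`: if some `e_t ≥ q`, replace `y_t^q` by `sum_u XX_tu(z) y_u`: since `deg XX_tu ≤ q - 1`,
`X^i y^e` becomes a linear combination of `X^(i+i') y^(e - q δ_t + δ_u)` with `i' ≤ q - 1`; the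
total degree is `≤ i + (q-1) + |e| - q + 1 = i + |e| ≤ j` and the new `|e|` is `|e| - q + 1 < |e|`
because `q ≥ 2`. -/
def StRED : Prop := ∀ (L : Type) [Field L] (b q : ℕ) (XX : Matrix (Fin b) (Fin b) L[X])
  (y : Fin b → PowerSeries L), 2 ≤ q → Sys q XX y → ∀ (j : ℕ) (u : PowerSeries L), u ∈ Vj y j →
    u ∈ Submodule.span L {v : PowerSeries L | ∃ (i : ℕ) (e : Fin b → Fin q),
      i + ∑ t, (e t : ℕ) ≤ j ∧ v = PowerSeries.X ^ i * ymon y e}

/-- **LIN** (linear algebra over `L[z]`).  A finite family `g` of power series with weights `w`.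
Proof.  Choose `I` maximal such that ` (g_e)_(e ∈ I)` is linearly independent over `L[z]` (for
`G : ι → L[X]`, `sum_(e ∈ I) G_e g_e = 0` implies `G_e = 0` for `e ∈ I`).  By maximality for every
`e'` there are `D_e' ≠ 0` and `U_(e',e)` with `D_e' g_e' = sum_(e ∈ I) U_(e',e) g_e` (for `e' ∈ I`
take `D = 1`; for `e' ∉ I` take a nontrivial relation of `I ∪ {e'}`; its coefficient at `e'` is not
zero).  Let `D` be the product of all `D_e'`; then `D g_e' = sum_e U'_(e',e) g_e` with new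
polynomials `U'`; let `C` be the maximum of their degrees.  For `u = X^i g_e'`, `i + w_e' ≤ j`:
`G_e = X^i U'_(e',e)` has degree `≤ i + C ≤ j + C`.  The set of `u` for which `G` exists is a
subspace (fixed `D`, `C`, `j`). -/
def StLIN : Prop := ∀ (L : Type) [Field L] (ι : Type) [Fintype ι] (g : ι → PowerSeries L)
  (w : ι → ℕ), ∃ (I : Finset ι) (D : L[X]) (C : ℕ), D ≠ 0 ∧
    (∀ G : ι → L[X], ∑ e ∈ I, (G e : PowerSeries L) * g e = 0 → ∀ e ∈ I, G e = 0) ∧
    (∀ (j : ℕ) (u : PowerSeries L), u ∈ Submodule.span L {v : PowerSeries L | ∃ (i : ℕ) (e : ι),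
        i + w e ≤ j ∧ v = PowerSeries.X ^ i * g e} →
      ∃ G : ι → L[X], (∀ e, (G e).natDegree ≤ j + C) ∧
        (D : PowerSeries L) * u = ∑ e ∈ I, (G e : PowerSeries L) * g e)

/-- **DAT**.  Proof from RED and LIN (family `ymon y e`, `e : Fin b → Fin q`, weight `sum e`).
`I` is not empty: `1 ∈ V_0` (`ev y 1`), so `D = D * 1` is the sum over `I`, and `D ≠ 0`. -/
def StDAT : Prop := ∀ (L : Type) [Field L] (b q : ℕ) (XX : Matrix (Fin b) (Fin b) L[X])
  (y : Fin b → PowerSeries L), 2 ≤ q → Sys q XX y →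
    ∃ (I : Finset (Fin b → Fin q)) (D : L[X]) (C : ℕ), Dat y I D C

/-- **DM** (dimensions).  `dim V_j = |I| j + O(1)`.
Proof.  Lower bound: for `e ∈ I` and `i + sum e ≤ j` the elements `X^i ymon y e` lie in `V_j`
(they are values of monomials) and are linearly independent over `L` (by the independence of
`Dat`); their number is `≥ sum_(e ∈ I) (j + 1 - sum e) ≥ |I| j - sum_(e∈I) sum e` (natural numbers;
for `j < sum e` the summand counts as zero).  Upper bound: `u ↦ (G_e)_(e∈I)` (unique by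
independence, hence linear; or: multiplication by `D` is injective and `D V_j` is contained in the
span of the `X^i ymon y e`, `e ∈ I`, `i ≤ j + C`) gives `dim V_j ≤ |I| (j + C + 1)`. -/
def StDM : Prop := ∀ (L : Type) [Field L] (b q : ℕ) (y : Fin b → PowerSeries L)
  (I : Finset (Fin b → Fin q)) (D : L[X]) (C : ℕ), Dat y I D C → ∃ C' : ℕ, ∀ j : ℕ,
    I.card * j ≤ Module.finrank L (Vj y j) + C' ∧ Module.finrank L (Vj y j) ≤ I.card * j + C'

/-- **EXT** (extension of scalars does not change the dimension).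
Proof.  `PowerSeries.map (algebraMap k L)` sends `Vj y j` into `Vj (upL L y) j`
(`ev (upL L y) (Φ.map) = map (ev y Φ)`), and `Vj (upL L y) j` is the `L`-span of the image (it is
spanned by the values of the monomials, which have coefficient 1).  If `u_1, …, u_m` in
`PowerSeries k` are linearly independent over `k`, their images are linearly independent over
`L`: if `sum c_i u_i = 0`, apply an arbitrary `k`-linear functional `λ : L → k` coefficientwise to
get `sum λ(c_i) u_i = 0`, so `λ(c_i) = 0` for all `λ`, so `c_i = 0`.  Hence a `k`-basis of `Vj y j`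
gives an `L`-basis of `Vj (upL L y) j`. -/
def StEXT : Prop := ∀ (k L : Type) [Field k] [Field L] [Algebra k L] (b : ℕ)
  (y : Fin b → PowerSeries k) (j : ℕ),
    Module.finrank L (Vj (upL L y) j) = Module.finrank k (Vj y j)

/-- **HC** (the number of relation preserving matrices is at most the rank).
Proof.  For `c ∈ S` the maps `f_c = ev (cy c y) : MvPolynomial _ k → PowerSeries k` are monoid
homomorphisms into a domain, pairwise distinct (they have different values at some variable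
`X (some i)` because `cy c y ≠ cy c' y`), hence linearly independent over `PowerSeries k`
(`linearIndependent_monoidHom`, Dedekind).  Suppose `|S| > |I|`.  Then there are `lam_c` in
`PowerSeries k`, not all zero, with `sum_(c∈S) lam_c (ev (cy c y) (Y^e)) = 0` for all `e ∈ I`
(`Y^e = prod X (some t) ^ e_t`; more unknowns than equations over the fraction field, clear
denominators; e.g. `Module.exists_nontrivial_relation_of_finrank_lt_card` or
`Matrix.exists_mulVec_eq_zero_iff`-like lemmas over the fraction field).  Let `Φ` be any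
polynomial, `j` its total degree; `D (ev y Φ) = sum_(e∈I) G_e ymon y e`, i.e. the polynomial
`Φ' = D(z) Φ - sum G_e(z) Y^e` (where `D(z)` is `D` evaluated at the variable `X none`) has
`ev y Φ' = 0`, so by `Rel y c` also `ev (cy c y) Φ' = 0`:
`D (ev (cy c y) Φ) = sum_(e∈I) G_e (ev (cy c y) Y^e)`, with the SAME `G_e` for all `c`.  Multiply by
`lam_c` and sum: `D sum_c lam_c (ev (cy c y) Φ) = 0`, so `sum_c lam_c f_c(Φ) = 0` for all `Φ`:
contradiction to the linear independence. -/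
def StHC : Prop := ∀ (k : Type) [Field k] (b q : ℕ) (y : Fin b → PowerSeries k)
  (I : Finset (Fin b → Fin q)) (D : k[X]) (C : ℕ), Dat y I D C →
  ∀ S : Finset (Matrix (Fin b) (Fin b) k), (∀ c ∈ S, Rel y c) →
    (∀ c ∈ S, ∀ c' ∈ S, cy c y = cy c' y → c = c') → S.card ≤ I.card

/-- **DEG** (zero estimate).  If `W(z)` divides `Θ ∈ V_J` in the ring `R` then `deg W ≤ J`.
Proof.  `W ≠ 0`.  For `T ≥ 1`: `g^T ∈ R`, so it lies in some `V_i` and
`D g^T = sum_(e∈I) G_e y^e`, not all `G_e` (`e ∈ I`) zero since `D g^T ≠ 0`.  `Θ^T ∈ V_(T J)` (VB), so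
`D Θ^T = sum_(e∈I) G'_e y^e` with `deg G'_e ≤ T J + C`.  As `D Θ^T = W^T (D g^T)`, the independence
gives `G'_e = W^T G_e` for `e ∈ I`; choosing `e` with `G_e ≠ 0`: `T deg W ≤ T J + C`.  With
`T = C + 1`: `deg W ≤ J`. -/
def StDEG : Prop := ∀ (L : Type) [Field L] (b q : ℕ) (y : Fin b → PowerSeries L)
  (I : Finset (Fin b → Fin q)) (D : L[X]) (C : ℕ), Dat y I D C →
  ∀ (J : ℕ) (Θ g : PowerSeries L) (W : L[X]), Θ ∈ Vj y J → Θ ≠ 0 → g ∈ RR y →
    Θ = (W : PowerSeries L) * g → W.natDegree ≤ J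

/-- **ORD** (order of vanishing at `z = 0`).
Proof.  Let `M = h l + 1` and suppose `X^M` divides `s ∈ V_l`, `s ≠ 0`.  For every `i ≥ M`:
`dim V_(i+l) ≥ dim V_i + M`: the map `u ↦ s u` is injective from `V_i` to `V_(i+l)` (VB) and its image
consists of multiples of `X^M`, while `1, X, …, X^(M-1)` lie in `V_(i+l)` and span a space of
dimension `M` which meets the multiples of `X^M` only in zero.  Iterating from `i = M`:
`dim V_(M + T l) ≥ dim V_M + T M`.  With the two-sided bounds: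
`h (M + T l) + C' ≥ h M - C' + T (h l + 1)`, i.e. `2 C' ≥ T`; `T = 2 C' + 1` is a contradiction. -/
def StORD : Prop := ∀ (L : Type) [Field L] (b : ℕ) (y : Fin b → PowerSeries L) (h C' : ℕ),
  (∀ j : ℕ, h * j ≤ Module.finrank L (Vj y j) + C' ∧ Module.finrank L (Vj y j) ≤ h * j + C') →
  ∀ (l : ℕ) (s : PowerSeries L), s ∈ Vj y l → s ≠ 0 → ¬ (PowerSeries.X ^ (h * l + 1) ∣ s)

/-- **INJ**.  Proof.  Put `P = p^m`, `f_(i,t) = coeff t (f_i)`; in characteristic `p` we have
`f_i^P = sum_t f_(i,t)^P z^(P t)`.  Let `σ_t = sum_i f_(i,t)^P s_i`.  Suppose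
`sum_i s_i f_i^P = 0`.  If not all `σ_t` vanish let `t` be minimal with `σ_t ≠ 0`.  By hypothesis
`X^P` does not divide `σ_t`, so it has a nonzero coefficient at some `u < P`, and the coefficient of
`sum_i s_i f_i^P` at `P t + u` equals the coefficient at `u` of `σ_t`, plus contributions
`coeff (P t + u - P t') (σ_t')` with `t' < t` (zero) : contradiction.  So `σ_t = 0` for all `t`:
for all `t, u`: `sum_i f_(i,t)^P s_(i,u) = 0`.  As `L` is perfect write `s_(i,u) = m_i^P`; then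
` (sum_i f_(i,t) m_i)^P = 0` for all `t`, so `sum_i m_i f_i = 0` and `m_i = 0` for all `i` by linear
independence.  So all `s_i = 0`. -/
def StINJ : Prop := ∀ (L : Type) [Field L] [Finite L] (p : ℕ) [Fact p.Prime] [CharP L p]
  (m M : ℕ) (f s : Fin M → PowerSeries L), LinearIndependent L f →
  (∀ a : Fin M → L, ∑ i, a i • s i ≠ 0 → ¬ (PowerSeries.X ^ (p ^ m) ∣ ∑ i, a i • s i)) →
  (∃ i, s i ≠ 0) → ∑ i, s i * f i ^ (p ^ m) ≠ 0

/-- **KER** (pigeonhole).  Proof.  `s ↦ sum_i s_i^P ψ_i` is an additive map from `V^M` to `W`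
(characteristic `p`); `|V^M| = |L|^(M dim V) > |L|^(dim W) = |W|` (both finite), so it is not
injective and has a nonzero element in the kernel. -/
def StKER : Prop := ∀ (L : Type) [Field L] [Finite L] (p : ℕ) [Fact p.Prime] [CharP L p]
  (m M : ℕ) (V W : Submodule L (PowerSeries L)) [FiniteDimensional L V] [FiniteDimensional L W]
  (ψ : Fin M → PowerSeries L), (∀ s ∈ V, ∀ i, s ^ (p ^ m) * ψ i ∈ W) →
  Module.finrank L W < Module.finrank L V * M →
  ∃ s : Fin M → PowerSeries L, (∀ i, s i ∈ V) ∧ (∃ i, s i ≠ 0) ∧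
    ∑ i, s i ^ (p ^ m) * ψ i = 0

/-- congruence modulo ` (z - a) R` -/
def Cg {L : Type} [Field L] {b : ℕ} (y : Fin b → PowerSeries L) (a : L)
    (u v : PowerSeries L) : Prop :=
  ∃ g ∈ RR y, u - v = (PowerSeries.X - PowerSeries.C a) * g

/-- **MOD** (the Frobenius modulo `z - a`).  If `Nm(a) = c` then
`Φ(z,y)^|L| ≡ Φ(z, c y)` modulo ` (z - a) R`.
Proof.  Work in `R = RR (upL L y)`; congruence modulo `z - a` is compatible with sums, products and
powers.  Put `Y = upL L y`, `q = |k|`.  `Y_i^q = sum_j XX_ij(z) Y_j` (map the system to `L`).  By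
induction on `j`: `Y_i^(q^j) ≡ sum_t (NmX XX q a j)_it Y_t`:  for `j + 1`:
`Y_i^(q^(j+1)) = (sum_t XX_it(z) Y_t)^(q^j) = sum_t XX_it(z^(q^j)) Y_t^(q^j)` (the coefficients of `XX`
lie in `k`, `c^q = c` there) `≡ sum_t XX_it(a^(q^j)) sum_u (NmX j)_tu Y_u`.  For `j = s` and `Q = q^s`:
`Y_i^Q ≡ (c Y)_i`.  Also `z^Q ≡ a^Q = a ≡ z`.  For `Φ` with coefficients in `L`, `|L| = Q`:
`Φ(z,Y)^Q = Φ(z^Q, Y^Q) ≡ Φ(z, c Y)` (the coefficients satisfy `λ^Q = λ`); prove it by
`MvPolynomial.induction_on`, the statement is stable under sums (Frobenius is additive) and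
products. -/
def StMOD : Prop := ∀ (k L : Type) [Field k] [Fintype k] [Field L] [Fintype L] [Algebra k L]
  (b s : ℕ) (XX : Matrix (Fin b) (Fin b) k[X]) (y : Fin b → PowerSeries k)
  (c : Matrix (Fin b) (Fin b) k) (a : L), Sys (Fintype.card k) XX y →
  Fintype.card L = Fintype.card k ^ s →
  NmX XX (Fintype.card k) a s = c.map (algebraMap k L) →
  ∀ Φ : MvPolynomial (Option (Fin b)) L, Cg (upL L y) a
    ((ev (upL L y) Φ) ^ Fintype.card L)
    (ev (cy (c.map (algebraMap k L)) (upL L y)) Φ)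

/-- **RDC** (`R/(z - a)` is reduced).  Proof.  By MOD (for `Φ = X (some i)`):
`Y_i^Q ≡ (c Y)_i`, `Q = |L|`; raising to the power `Q` (the entries of `c` lie in `k`):
`Y_i^(Q^n) ≡ (c^n Y)_i`, so `Y_i^(Q^e) ≡ Y_i` because `c^e = 1`.  Also `z^Q ≡ z` and `λ^Q = λ` for
`λ ∈ L`.  The set of `u ∈ R` with `u^(Q^e) ≡ u` is closed under sums and products, so it is `R`.  If
`u^n ≡ 0`, then `u ≡ u^(Q^(e t)) ≡ 0` as soon as `Q^(e t) ≥ n`. -/
def StRDC : Prop := ∀ (k L : Type) [Field k] [Fintype k] [Field L] [Fintype L] [Algebra k L]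
  (b s : ℕ) (XX : Matrix (Fin b) (Fin b) k[X]) (y : Fin b → PowerSeries k)
  (c : Matrix (Fin b) (Fin b) k) (a : L) (e : ℕ), Sys (Fintype.card k) XX y →
  Fintype.card L = Fintype.card k ^ s → 1 ≤ s → 1 ≤ e → c ^ e = 1 →
  NmX XX (Fintype.card k) a s = c.map (algebraMap k L) →
  ∀ (u : PowerSeries L) (n : ℕ), u ∈ RR (upL L y) → 1 ≤ n → Cg (upL L y) a (u ^ n) 0 →
    Cg (upL L y) a u 0

/-- **DVD** (coprime divisors).  Proof.  Induction on the finite set `A`: if
`Θ = W g` with `W = prod_(a∈A) (z - a)`, `g ∈ R`, and `Θ = (z - a') g'` with `a' ∉ A`, `g' ∈ R`: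
Bezout in `L[z]`: `1 = u W + v (z - a')`, so `g = u W g + v (z - a') g = u (z - a') g' + v (z - a') g`
is ` (z - a')` times an element of `R` (`L[z]` is contained in `R`). -/
def StDVD : Prop := ∀ (L : Type) [Field L] (b : ℕ) (y : Fin b → PowerSeries L)
  (Θ : PowerSeries L) (A : Finset L), Θ ∈ RR y → (∀ a ∈ A, Cg y a Θ 0) →
  ∃ g ∈ RR y, Θ = ((∏ a ∈ A, (X - C a) : L[X]) : PowerSeries L) * g

/-- **UB** (the Stepanov-Bombieri bound with parameters `l`, `m`).
Proof.  `P^2 = |L|`, `P = p^t` a power of the characteristic.  Let `Y = upL L y`, `V_j = Vj Y j`,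
`cL = c.map (algebraMap k L)`.  Let `f_1, …, f_M` be a basis of `V_m` over `L`, `f_i = ev Y Φ_i` with
`totalDegree Φ_i ≤ m`, and `ψ_i = ev (cy cL Y) Φ_i`; since `cy` is a linear substitution,
`ψ_i ∈ V_m`.  For `s ∈ V_l`: `s^P ψ_i ∈ V_(l P + m)`.  By hypothesis and KER there are
`s_i ∈ V_l`, not all zero, with `sum s_i^P ψ_i = 0`.  Put `Θ = sum s_i f_i^P ∈ V_(l + m P)`.
`Θ ≠ 0` by INJ (every nonzero element of `V_l` is not divisible by `X^P`, as `h l < P` and ORD).
Let `a` be in `A = {a : Nm(a) = c}`.  Modulo `z - a`: `Θ^P = sum s_i^P f_i^(P^2)` and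
`f_i^(P^2) = f_i^|L| ≡ ψ_i` (MOD), so `Θ^P ≡ sum s_i^P ψ_i = 0`, so `Θ ≡ 0` (RDC).  By DVD
`Θ = W g`, `W = prod_(a∈A) (z - a)`, `g ∈ R`; `W.natDegree = |A| ≤ l + m P` by DAT (over `L`, for the
system `XX.map`, `q = |k| ≥ 2`) and DEG. -/
def StUB : Prop := ∀ (k L : Type) [Field k] [Fintype k] [Field L] [Fintype L] [Algebra k L]
  (b s : ℕ) (XX : Matrix (Fin b) (Fin b) k[X]) (y : Fin b → PowerSeries k)
  (c : Matrix (Fin b) (Fin b) k) (e h C' P l m : ℕ), Sys (Fintype.card k) XX y →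
  Fintype.card L = Fintype.card k ^ s → 1 ≤ s → 1 ≤ e → c ^ e = 1 → Fintype.card L = P ^ 2 →
  (∀ j : ℕ, h * j ≤ Module.finrank L (Vj (upL L y) j) + C' ∧
    Module.finrank L (Vj (upL L y) j) ≤ h * j + C') →
  h * l < P →
  Module.finrank L (Vj (upL L y) (l * P + m)) <
    Module.finrank L (Vj (upL L y) l) * Module.finrank L (Vj (upL L y) m) →
  Nat.card {a : L // NmX XX (Fintype.card k) a s = c.map (algebraMap k L)} ≤ l + m * P

/-- **NUM** (choice of the parameters).
Proof.  Put `c1 = C' + 2`, `l = (P - 1) / h` (integer part), `m = (P + C' + c1) / h + 1`.  Then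
`h l ≤ P - 1 < P`, `h l ≥ P - h`, `h m ≥ P + C' + c1`, `h m ≤ P + C' + c1 + h`, so
`vm ≥ h m - C' ≥ P + c1` and `vl ≥ h l - C'`.  If `P` is large, `h l - C' ≥ 0` and
`vl vm ≥ (h l - C') (P + c1) = h l P + c1 h l - C' (P + c1)
≥ h l P + c1 (P - h) - C' P - C' c1 = h l P + 2 P - O(1)`, while
`v ≤ h (l P + m) + C' ≤ h l P + P + O(1)`.  Finally
`l + m P ≤ P + ((P + C' + c1)/h + 1) P ≤ P^2/h + (C' + c1 + 2) P`. -/
def StNUM : Prop := ∀ h C' : ℕ, 1 ≤ h → ∃ (P0 : ℕ) (C2 : ℝ), ∀ P : ℕ, P0 ≤ P →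
  ∃ l m : ℕ, h * l < P ∧
    (∀ vl vm v : ℕ, h * l ≤ vl + C' → h * m ≤ vm + C' → v ≤ h * (l * P + m) + C' →
      v < vl * vm) ∧
    ((l + m * P : ℕ) : ℝ) ≤ (P : ℝ) ^ 2 / h + C2 * P

/-- **UBH** (matrices that do not preserve the relations occur boundedly often).
Proof.  `Φ` with `ev y Φ = 0` and `ev (cy c y) Φ ≠ 0`.  Let `Φ_L` be the image of `Φ` over `L`,
`Y = upL L y`.  `ev Y Φ_L = 0` and `Θ = ev (cy cL Y) Φ_L` is the image of `ev (cy c y) Φ`, not zero,
and it lies in `V_J`, `J = Φ.totalDegree`.  For `a` with `Nm(a) = c`: `Θ ≡ (ev Y Φ_L)^|L| = 0` by MOD.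
DVD, DAT and DEG: the number of such `a` is `≤ J`. -/
def StUBH : Prop := ∀ (k : Type) [Field k] [Fintype k] (b : ℕ)
  (XX : Matrix (Fin b) (Fin b) k[X]) (y : Fin b → PowerSeries k)
  (c : Matrix (Fin b) (Fin b) k), Sys (Fintype.card k) XX y → ¬ Rel y c →
  ∃ J : ℕ, ∀ (L : Type) [Field L] [Fintype L] [Algebra k L] (s : ℕ), 1 ≤ s →
    Fintype.card L = Fintype.card k ^ s →
    Nat.card {a : L // NmX XX (Fintype.card k) a s = c.map (algebraMap k L)} ≤ J

/-- **STP** (Stepanov theorem for the Lang torsor).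
Proof.  `q = |k| ≥ 2`.  DAT over `k` gives `I`, `h = |I|`; `H` = the `c ∈ G` with `Rel y c`.
`|H| ≤ h` by HC (for `c ≠ c'` in `G` the vectors `cy c y` and `cy c' y` differ: otherwise their
constant coefficients `c y0`, `c' y0` would be equal, `y0 = ` constant coefficients of `y`).
`H` is closed under products in `G`: `Rel y c`, `Rel y c'` imply `Rel y (c * c')`:
`ev (cy (c * c') y) Φ` is `ev (cy c' y) (Φ o c)` where `Φ o c` is the linear substitution; if
`ev y Φ = 0` then `ev y (Φ o c) = ev (cy c y) Φ = 0`, so `ev (cy c' y) (Φ o c) = 0`.  (Here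
`cy (c * c') y = cy c (cy c' y)`.)  By DM and EXT the two-sided bounds hold over every `L` with the
same `h`, `C'`.  NUM and UB give the first bound with `P = |k|^t`, `|L| = |k|^(2t)`, for `P ≥ P0`;
UBH the second (maximum over the finite set `G`). -/
def StSTP : Prop := ∀ (k : Type) [Field k] [Fintype k] (b : ℕ)
  (XX : Matrix (Fin b) (Fin b) k[X]) (y : Fin b → PowerSeries k)
  (G : Finset (Matrix (Fin b) (Fin b) k)), Sys (Fintype.card k) XX y →
  (∀ c ∈ G, ∃ e : ℕ, 1 ≤ e ∧ c ^ e = 1) →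
  (∀ c ∈ G, ∀ c' ∈ G, c.mulVec (fun i => PowerSeries.constantCoeff (y i)) =
    c'.mulVec (fun i => PowerSeries.constantCoeff (y i)) → c = c') →
  ∃ (h : ℕ) (H : Finset (Matrix (Fin b) (Fin b) k)) (C : ℝ) (t0 : ℕ), 1 ≤ h ∧ 0 ≤ C ∧ H ⊆ G ∧
    H.card ≤ h ∧ (∀ c ∈ H, ∀ c' ∈ H, c * c' ∈ G → c * c' ∈ H) ∧
    ∀ (t : ℕ), t0 ≤ t → ∀ (L : Type) [Field L] [Fintype L] [Algebra k L],
      Fintype.card L = Fintype.card k ^ (2 * t) →
      (∀ c ∈ G, (Nat.card {a : L // NmX XX (Fintype.card k) a (2 * t) =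
        c.map (algebraMap k L)} : ℝ) ≤
          (Fintype.card k : ℝ) ^ (2 * t) / h + C * (Fintype.card k : ℝ) ^ t) ∧
      (∀ c ∈ G, c ∉ H → (Nat.card {a : L // NmX XX (Fintype.card k) a (2 * t) =
        c.map (algebraMap k L)} : ℝ) ≤ C)

/-! ### from the torsor to Hecke characters -/

/-- **EXF** (finite fields have extensions of every degree).  For instance the splitting field of
`X^(q^n) - X` over `k`, or the fixed points of the `q^n`-Frobenius in an algebraic closure. -/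
def StEXF : Prop := ∀ (k : Type) [Field k] [Fintype k] (n : ℕ), 1 ≤ n →
  ∃ (L : Type) (_ : Field L) (_ : Fintype L) (_ : Algebra k L),
    Fintype.card L = Fintype.card k ^ n

/-- **SOL** (solution of the functional system).
Proof.  Over a field with `q` elements `coeff n (u^q)` is `coeff (n/q) u` if `q` divides `n` and zero
otherwise.  So with `XX = 1 + sum_(i≥1) XX_i z^i` the equation says
` (y)_n + sum_(i=1..n) XX_i y_(n-i) = [q | n] y_(n/q)` for all `n`: for `n = 0` it is true for every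
`y_0`, for `n ≥ 1` it defines `y_n` (`n/q < n`, `n - i < n`): strong recursion. -/
def StSOL : Prop := ∀ (k : Type) [Field k] [Fintype k] (b : ℕ)
  (XX : Matrix (Fin b) (Fin b) k[X]) (y0 : Fin b → k),
  XX.map (fun p => p.eval 0) = 1 →
  ∃ y : Fin b → PowerSeries k, (∀ i, PowerSeries.constantCoeff (y i) = y0 i) ∧
    ∀ i, y i ^ Fintype.card k = ∑ j, (XX i j : PowerSeries k) * y j

/-- the polynomial `prod_(i<s) (X - a^(q^i))` over `F`, for `a` in a field with `q^s` elements -/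
def fa {F : Type} [Field F] {L : Type} [Field L] [Algebra F L] (s : ℕ) (a : L) : F[X] :=
  (minpoly F a) ^ (s / (minpoly F a).natDegree)

/-- **PRD**.  Proof.  `d = deg (minpoly F a)` divides `s`; the roots of the minimal polynomial in `L`
are `a, a^q, …, a^(q^(d-1))` (distinct) and `a^(q^d) = a`. -/
def StPRD : Prop := ∀ (F L : Type) [Field F] [Fintype F] [Field L] [Fintype L] [Algebra F L]
  (s : ℕ) (a : L), 1 ≤ s → Fintype.card L = Fintype.card F ^ s →
  (fa (F := F) s a).Monic ∧ (fa (F := F) s a).natDegree = s ∧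
  (fa (F := F) s a).map (algebraMap F L) =
    ∏ i ∈ Finset.range s, (X - C (a ^ (Fintype.card F ^ i)))

/-- **PTS**.  Proof.  Group the `a ∈ L` by their minimal polynomials: for every `d` dividing `s` and
every monic irreducible `P` of degree `d`, exactly `d` elements of `L` have minimal polynomial `P`,
and all `a` are obtained (`deg (minpoly F a)` divides `s`).  `Χ(P^(s/d)) = Χ(P)^(s/d)` by CM. -/
def StPTS : Prop := ∀ (F L : Type) [Field F] [Fintype F] [Field L] [Fintype L] [Algebra F L]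
  (s : ℕ) (Χ : F[X] → ℂ), 1 ≤ s → Fintype.card L = Fintype.card F ^ s → CM Χ →
  ∑ a : L, Χ (fa s a) = Psi Χ s

/-- the class of `f` in the ring `F[X]/(r) x F[X]/(X^(N+1))` -/
def cls {F : Type} [Field F] (r : F[X]) (N : ℕ) (f : F[X]) : AdjoinRoot r × TN F N :=
  (AdjoinRoot.mk r f, AdjoinRoot.mk (X ^ (N + 1) : F[X]) f.reverse)

/-- **MAT** (matrices).  Proof.  `B = AdjoinRoot r x TN F N` is an `F`-algebra with a finite basis
(power bases), `Algebra.leftMulMatrix` gives an injective ring homomorphism `lm` from `B` into the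
`b x b` matrices over `F` (reindex the basis by `Fin b`).  `mt f = lm (cls r N f)`,
`AA = lm (root, 1)`, `BB = lm (1, root)`, `y0` = coordinates of `1`.  `reverse` is multiplicative
(`Polynomial.reverse_mul_of_domain`).  ` (mt f).mulVec y0` are the coordinates of `cls r N f`.
Product formula: the map `g ↦ lm(g mod r, 0)`, resp. `g ↦ lm(0, g mod X^(N+1))`, extends to
polynomials over `L` (evaluate the polynomial at the matrix of ` (root,0)` over `L`, times the
idempotent); if `f` becomes `prod (X - a_i)` over `L` then `f.reverse` becomes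
`prod (1 - a_i X)`, and ` (root - a_i, 1 - a_i root) = AA - a_i BB`. -/
def StMAT : Prop := ∀ (F : Type) [Field F] [Fintype F] (r : F[X]) (N : ℕ), r.Monic →
  ∃ (b : ℕ) (AA BB : Matrix (Fin b) (Fin b) F) (y0 : Fin b → F)
    (mt : F[X] → Matrix (Fin b) (Fin b) F),
    AA * BB = BB * AA ∧ mt 1 = 1 ∧
    (∀ f g : F[X], f.Monic → g.Monic → mt (f * g) = mt f * mt g) ∧
    (∀ f g : F[X], f.Monic → g.Monic → cls r N f = cls r N g → mt f = mt g) ∧
    (∀ f g : F[X], f.Monic → g.Monic → (mt f).mulVec y0 = (mt g).mulVec y0 →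
      cls r N f = cls r N g) ∧
    (∀ (L : Type) [Field L] [Algebra F L] (s : ℕ) (a : ℕ → L) (f : F[X]), f.Monic →
      f.map (algebraMap F L) = ∏ i ∈ Finset.range s, (X - C (a i)) →
      (mt f).map (algebraMap F L) = ((List.range s).map (fun i =>
        AA.map (algebraMap F L) - a i • BB.map (algebraMap F L))).prod)

/-- the monic polynomials prime to `r` represent the units -/
def Ucl {F : Type} [Field F] (r : F[X]) (N : ℕ) : Set (AdjoinRoot r × TN F N) :=
  {c | ∃ f : F[X], f.Monic ∧ IsCoprime f r ∧ cls r N f = c}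

/-- the matrix `prod_(i<s1) (AA - (a0^(q^i) + X^(q^i)) BB)` over `K[X]` -/
def XXm {F K : Type} [Field F] [Field K] [Algebra F K] (q s1 : ℕ) (a0 : K) {b : ℕ}
    (AA BB : Matrix (Fin b) (Fin b) F) : Matrix (Fin b) (Fin b) K[X] :=
  ((List.range s1).map (fun i => AA.map (fun x => (C (algebraMap F K x) : K[X])) -
    (C (a0 ^ (q ^ i)) + X ^ (q ^ i) : K[X]) •
      BB.map (fun x => (C (algebraMap F K x) : K[X])))).prod

/-- **GR0** (base point).
Proof.  Choose `e ≥ 1` with `q^e > deg r` and a field `K1` with `q^e` elements (EXF), `a1 ∈ K1` not a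
root of `r`; `f1 = fa e a1` is monic and prime to `r` (a power of the minimal polynomial of `a1`,
irreducible and not dividing `r`).  The class of `f1` is a unit of the finite ring
`AdjoinRoot r x TN F N` (`f1.reverse` has constant coefficient 1, so it is prime to `X^(N+1)`; `f1` is
prime to `r`), so there is `o ≥ 1` with ` (cls f1)^o = 1 = cls 1`, and `cls (f1^o) = (cls f1)^o`.
Put `s1 = e o`, let `K` be an extension of `K1` of degree `o` (EXF) with the `F`-algebra structure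
through `K1`, `a0` the image of `a1`.  `minpoly F a0 = minpoly F a1`, so `fa s1 a0 = f1^o`
(`s1/d = (e/d) o`). -/
def StGR0 : Prop := ∀ (F : Type) [Field F] [Fintype F] (r : F[X]) (N : ℕ), r.Monic →
  ∃ (s1 : ℕ) (K : Type) (_ : Field K) (_ : Fintype K) (_ : Algebra F K) (a0 : K), 1 ≤ s1 ∧
    Fintype.card K = Fintype.card F ^ s1 ∧
    cls r N (fa (F := F) s1 a0) = cls r N (1 : F[X])

/-- **GR1** (properties of `XXm`), `q = |F|`, `|K| = q^s1`.
Proof.  Entries of a product: degree `≤ sum_(i<s1) q^i ≤ q^(s1) - 1` (` (q-1) sum q^i = q^(s1) - 1`).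
(ii): evaluation at 0 is a ring homomorphism, `0^(q^i) = 0`.  (iii): induction on `t`:
`XXm` evaluated at `z^(|K|^i)` is the product over `j < s1` of
`AA - (a0^(q^j) + z^(q^(s1 i + j))) BB`, and `a0^(q^j) = a0^(q^(s1 i + j))` because `a0^(|K|) = a0`, and
`a0^(q^n) + z^(q^n) = (a0 + z)^(q^n)` (`q` is a power of the characteristic).  All factors commute
(`AA BB = BB AA`), so the order of the product does not matter
(`NmX` multiplies new factors on the left). -/
def StGR1 : Prop := ∀ (F K : Type) [Field F] [Fintype F] [Field K] [Fintype K] [Algebra F K]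
  (s1 b : ℕ) (a0 : K) (AA BB : Matrix (Fin b) (Fin b) F), 1 ≤ s1 →
  Fintype.card K = Fintype.card F ^ s1 → AA * BB = BB * AA →
  (∀ i j, (XXm (Fintype.card F) s1 a0 AA BB i j).natDegree ≤ Fintype.card K - 1) ∧
  (XXm (Fintype.card F) s1 a0 AA BB).map (fun p => p.eval 0) =
    ((List.range s1).map (fun i => AA.map (algebraMap F K) -
      a0 ^ (Fintype.card F ^ i) • BB.map (algebraMap F K))).prod ∧
  ∀ (L : Type) [Field L] [Algebra K L] [Algebra F L] [IsScalarTower F K L] (z : L) (t : ℕ),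
    NmX (XXm (Fintype.card F) s1 a0 AA BB) (Fintype.card K) z t =
    ((List.range (s1 * t)).map (fun n => AA.map (algebraMap F L) -
      (algebraMap K L a0 + z) ^ (Fintype.card F ^ n) • BB.map (algebraMap F L))).prod

/-- **GRP** (distribution of the classes of the `fa`).
Proof.  `b, AA, BB, y0, mt` from MAT; `s1, K, a0` from GR0, `q1 = |K| = q^(s1)`;
`XX = XXm q s1 a0 AA BB`.  By GR1 (ii), PRD (for `K`) and MAT: `XX(0) = mt (fa s1 a0)` over `K`
`= mt 1 = 1`.  SOL gives `y` with constant term the image of `y0` and (GR1 (i)) `Sys q1 XX y`.  Let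
`G` be the finite set of the matrices `mt f` over `K`, `f` monic prime to `r` (they depend only on the
class, MAT, and there are finitely many classes): closed under products, every element of finite
order (the classes are units of a finite ring), and `c ↦ c y0` is injective on `G` (MAT and
injectivity of `algebraMap F K`).  STP gives `h, H', C, t0`; let `H` be the set of the classes of the
`f` (monic, prime to `r`) with `mt f ∈ H'` (the class determines `mt f` and conversely).  Let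
`t ≥ max t0 1` and let `L` be an extension of `K` of degree `2t` (EXF), `s = 2 s1 t`, `|L| = q^s`, with
the `F`-algebra structure through `K`.  For `a ∈ L`, `a = a0 + z`, GR1 (iii) for `2t`, PRD and MAT:
`NmX XX q1 z (2t) = mt (fa s a)` over `L`.  So for the class `c` of a monic `f` prime to `r`: the
number of `a ∈ L` with `cls (fa s a) = c` is the number of `z` with `NmX XX q1 z (2t) = mt f`. -/
def StGRP : Prop := ∀ (F : Type) [Field F] [Fintype F] (r : F[X]) (N : ℕ), r.Monic →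
  ∃ (s1 h : ℕ) (H : Set (AdjoinRoot r × TN F N)) (C : ℝ) (t0 : ℕ), 1 ≤ s1 ∧ 1 ≤ h ∧ 0 ≤ C ∧
    H ⊆ Ucl r N ∧ H.ncard ≤ h ∧ (∀ c ∈ H, ∀ c' ∈ H, c * c' ∈ H) ∧
    ∀ t : ℕ, t0 ≤ t → ∃ (L : Type) (_ : Field L) (_ : Fintype L) (_ : Algebra F L),
      Fintype.card L = Fintype.card F ^ (2 * s1 * t) ∧
      (∀ c ∈ Ucl r N, (Nat.card {a : L // cls r N (fa (F := F) (2 * s1 * t) a) = c} : ℝ) ≤
        (Fintype.card F : ℝ) ^ (2 * s1 * t) / h + C * (Fintype.card F : ℝ) ^ (s1 * t)) ∧
      (∀ c ∈ Ucl r N, c ∉ H →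
        (Nat.card {a : L // cls r N (fa (F := F) (2 * s1 * t) a) = c} : ℝ) ≤ C)

/-- **CMH** (Hecke characters are completely multiplicative).  Proof.  `reverse` is multiplicative
over a domain; a multiplicative character of a finite monoid has values zero or roots of unity
(units have finite order). -/
def StCMH : Prop := ∀ (F : Type) [Field F] [Fintype F] (r : F[X]) (N : ℕ)
  (χ : MulChar (AdjoinRoot r) ℂ) (ξ : MulChar (TN F N) ℂ), r.Monic → CM (Hk r N χ ξ)

/-- **HEC** (the prime power sums along a progression).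
Proof.  Data of GRP; `s = 2 s1 t`, `Q = q^s = P^2`, `P = q^(s1 t)`, `t ≥ t0` (assume `t ≥ 1`).
`Psi Χ s = sum_(a∈L) Χ(fa s a)` (PTS).  `Χ(f) = X~(cls f)` where `X~(x, v) = χ(x) ξ(v)`.  If `r` has `a` as a
root, `fa s a` is not prime to `r`, `χ(mk r f) = 0` (not a unit); for the other `a` (all but at most
`deg r`), `cls (fa s a) ∈ Ucl`.  Let `N_c` be the number of `a` with class `c`, `c ∈ Ucl` (a finite set).
`sum_(c∈Ucl) N_c ≥ Q - deg r`.  For `c ∈ H`: `N_c ≥ Q - deg r - sum_(c'≠c) N_c'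
≥ Q - deg r - (|H| - 1)(Q/h + C P) - |Ucl| C ≥ Q/h - C2 P` because `|H| ≤ h`.  So
`|N_c - Q/h| ≤ C2 P` for `c ∈ H` and `N_c ≤ C` for `c ∉ H`; hence
`|Psi Χ s - lam Q| ≤ C3 P` with `lam = (1/h) sum_(c∈H) X~(c)`.  `H` is finite, closed under products and
consists of units: if `X~(c0) ≠ 1` for some `c0 ∈ H`, multiplication by `c0` is injective on `H`, so it
permutes `H`, and `sum_(c∈H) X~(c) = X~(c0) sum_(c∈H) X~(c)` is zero; otherwise the sum is `|H|`.  So
`lam ≥ 0` is real. -/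
def StHEC : Prop := ∀ (F : Type) [Field F] [Fintype F] (r : F[X]) (N : ℕ)
  (χ : MulChar (AdjoinRoot r) ℂ) (ξ : MulChar (TN F N) ℂ), r.Monic →
  ∃ (s1 t0 : ℕ) (lam C : ℝ), 1 ≤ s1 ∧ 0 ≤ lam ∧ ∀ t : ℕ, t0 ≤ t →
    ‖Psi (Hk r N χ ξ) (2 * s1 * t) - (lam : ℂ) * (Fintype.card F : ℂ) ^ (2 * s1 * t)‖ ≤
      C * (Fintype.card F : ℝ) ^ (s1 * t)

/-- **PWR** (power sums).  Proof.  Let `m` be the maximum of the `‖β_i‖` with `w_i > 0` and suppose
`m > R`.  Write `β_i = ‖β_i‖ ω_i`, `‖ω_i‖ = 1` (for `β_i ≠ 0`).  By the pigeonhole principle on the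
compact torus (or Dirichlet approximation) there are arbitrarily large `t` with
`‖ω_i^t - 1‖ ≤ 1/2` for all `i`; for them `Re (β_i^t) ≥ ‖β_i‖^t / 2`, so
`C R^t ≥ ‖sum w_i β_i^t‖ ≥ (1/2) sum w_i ‖β_i‖^t ≥ (w/2) m^t`, `w` the weight of a maximal one:
false for large `t`. -/
def StPWR : Prop := ∀ (n : ℕ) (β : Fin n → ℂ) (w : Fin n → ℝ) (R C : ℝ) (t0 : ℕ),
  (∀ i, 0 ≤ w i) → 0 < R →
  (∀ t : ℕ, t0 ≤ t → ‖∑ i, (w i : ℂ) * β i ^ t‖ ≤ C * R ^ t) →
  ∀ i, 0 < w i → ‖β i‖ ≤ R

/-- **NWT** (Newton identity).  Proof.  For `f` monic of degree `d`: `d = sum` of `deg P` over the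
pairs ` (P, a)`, `P` monic irreducible, `a ≥ 1`, `P^a | f` (unique factorization).  Multiply by `Χ(f)`
and sum over `f ∈ M_d`; for fixed ` (P, a)` the sum over the `f` divisible by `P^a` is
`Χ(P)^a A_(d - a deg P)(Χ)`; collect the pairs with `a deg P = j`: `Psi Χ j` is the sum of
`deg P Χ(P)^a` over them. -/
def StNWT : Prop := ∀ (F : Type) [Field F] [Fintype F] (Χ : F[X] → ℂ), CM Χ → ∀ d : ℕ,
  (d : ℂ) * Asum Χ d = ∑ j ∈ Finset.Icc 1 d, Psi Χ j * Asum Χ (d - j)

/-- **FAC**.  Proof.  `A_0 = 1` (only `f = 1`), so `D ≥ 1` and `Lp Χ D` has constant term 1 and degree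
`≤ D - 1`; over the complex numbers it is `prod (1 - α_i X)` (reverse polynomial, or: roots `z_i ≠ 0`,
`α_i = 1/z_i`).  The coefficients `a_d = A_d(Χ)` (for all `d`; both sides vanish for `d ≥ D`) of
`prod (1 - α_i X)` satisfy `d a_d = - sum_(j=1..d) p_j a_(d-j)`, `p_j = sum_i α_i^j` (from
`X L'(X) = - L(X) sum_i α_i X/(1 - α_i X)` in power series).  Compare with NWT by strong induction:
`Psi Χ s = - p_s` (use `a_0 = 1`). -/
def StFAC : Prop := ∀ (F : Type) [Field F] [Fintype F] (Χ : F[X] → ℂ) (D : ℕ), CM Χ →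
  (∀ d : ℕ, D ≤ d → Asum Χ d = 0) →
  ∃ (n : ℕ) (α : Fin n → ℂ), n + 1 ≤ D ∧ Lp Χ D = ∏ i, (1 - C (α i) * X) ∧
    ∀ s : ℕ, 1 ≤ s → Psi Χ s = - ∑ i, α i ^ s

/-- **ZS** (orthogonality: the L-series is a polynomial).
Proof.  For `d ≥ deg r + N` the monic `f` of degree `d` are `f = X^(d-N) g + u`, `g` monic of degree `N`,
`deg u < d - N`, and `f.reverse ≡ g.reverse mod X^(N+1)`.  For fixed `g` the residue of `u` modulo `r`
takes every value exactly `q^(d-N-deg r)` times, so the sum over `u` of `χ(f mod r)` is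
`q^(d-N-deg r) sum_(x∈F[X]/r) χ(x)`, independent of `g`, and zero if `χ ≠ 1`.  If `χ = 1` then `NTx ξ`,
and `sum_g ξ(g.reverse)` runs over all one-units of `TN F N` (bijection of the monic `g` of degree `N`
with the polynomials `v` with constant coefficient 1 and degree `≤ N`): multiplying the one-units by
`v0` with `ξ(v0) ≠ 1` permutes them, so the sum is zero. -/
def StZS : Prop := ∀ (F : Type) [Field F] [Fintype F] (r : F[X]) (N : ℕ)
  (χ : MulChar (AdjoinRoot r) ℂ) (ξ : MulChar (TN F N) ℂ), r.Monic → (NTx ξ ∨ χ ≠ 1) →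
  ∀ d : ℕ, r.natDegree + N ≤ d → Asum (Hk r N χ ξ) d = 0

/-- **RH** (the Riemann hypothesis for all Hecke characters over `F[X]`): the zeros of the
L-polynomial satisfy `|z| ≥ q^(-1/2)`.
Proof.  `Χ = Hk r N χ ξ`, CM by CMH, `D = deg r + N`, zero sums by ZS, factorization by FAC: the
zeros are the `1/α_i`.  HEC with `s = 2 s1 t`: `‖ sum_i (α_i^(2 s1))^t + lam (q^(2 s1))^t ‖ ≤
C (q^(s1))^t` for `t ≥ max t0 1`.  PWR with `β_i = α_i^(2 s1)` (weights 1) and the extra entry
`q^(2 s1)` with weight `lam ≥ 0`, `R = q^(s1)`: `‖α_i‖^(2 s1) ≤ q^(s1)`, so `‖α_i‖^2 ≤ q`. -/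
def StRH : Prop := ∀ (F : Type) [Field F] [Fintype F] (r : F[X]) (N : ℕ)
  (χ : MulChar (AdjoinRoot r) ℂ) (ξ : MulChar (TN F N) ℂ), r.Monic → (NTx ξ ∨ χ ≠ 1) →
  ∀ z : ℂ, (Lp (Hk r N χ ξ) (r.natDegree + N)).eval z = 0 →
    1 ≤ (Fintype.card F : ℝ) * ‖z‖ ^ 2

end

end Pool.Agent.Helper15.FC
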