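import Pool.Agent.Helper15.FC.St1

set_option autoImplicit false

/-!
# Project FC, wave 2: moments of the L-functions, variance of the divisor function
-/

open Polynomial

namespace Pool.Agent.Helper15.FC

noncomputable section

/-- `q = |F|` as a real number -/
abbrev qr (F : Type) [Fintype F] : ℝ := (Fintype.card F : ℝ)

open scoped Classical in
/-- monic irreducible polynomials of degree `d` other than `X` -/
def IrX (F : Type) [Field F] [Fintype F] (d : ℕ) : Finset F[X] := (Ir F d).filter (fun P => P ≠ X)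

/-- weighted sums over primes `P ≠ X` with `A < deg P ≤ B` -/
def SP {F : Type} [Field F] [Fintype F] (bb : ℕ → ℝ) (A B : ℕ) (Χ : F[X] → ℂ) (u : ℂ) : ℂ :=
  ∑ j ∈ Finset.Ioc A B, ∑ P ∈ IrX F j, (bb j : ℂ) * Χ P * u ^ j

/-- `bb` gives a one-sided approximation of `log |1 - w|` of degree `2K` on the unit disc -/
def MajOK (C : ℝ) (K : ℕ) (bb : ℕ → ℝ) : Prop :=
  0 ≤ C ∧ (∀ j, |bb j| ≤ C) ∧ ∀ w : ℂ, ‖w‖ ≤ 1 →
    ‖1 - w‖ ≤ Real.exp (C / K - (∑ j ∈ Finset.Icc 1 (2 * K), ((bb j / j : ℝ) : ℂ) * w ^ j).re)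

/-- **MAJ** (a majorant of `log |1 - w|` with mean `O(1/K)`).
Proof.  `K ≥ 1`.  Let `b_j = 1` for `j ≤ K`, `b_j = 2 - j/K` for `K ≤ j ≤ 2K`, `b_j = 0` beyond, and
`E(w) = log|1-w| + Re sum_(1≤j≤2K) b_j w^j / j`.
(1) For `|w| ≤ 1`, `w ≠ 1`: `E(w) ≤ 3/(K^2 |1-w|^2)`.  By continuity it is enough to treat `|w| < 1`:
there `E(w) = - Re sum_(j≥1) a_j w^j` with `a_j = (1-b_j)/j` (`log|1-w| = -Re sum w^j/j`), i.e.
`a_j = 0` (`j ≤ K`), `1/K - 1/j` (`K ≤ j ≤ 2K`), `1/j` (`j ≥ 2K`).  Multiply by ` (1-w)^2`: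
` (1-w)^2 sum a_j w^j = sum (a_j - 2 a_(j-1) + a_(j-2)) w^j`.  The first differences
`D_j = a_j - a_(j-1)` are `0` for `j ≤ K`, `1/(j(j-1))` for `K < j ≤ 2K`, `-1/(j(j-1))` for `j > 2K`, so
the total variation of `D` is `≤ 2/(K(K+1)) + 2/(2K(2K+1)) ≤ 3/K^2`.
(2) If `|1-w| ≤ 1/K`, `|w| ≤ 1`, `w ≠ 1`: `E(w) ≤ log|1-w| + sum_(j≤2K) 1/j ≤ - log K + 1 + log(2K) ≤ 3`.
So `E(w) ≤ 3 min(1, (K|1-w|)^(-2))`.
(3) Let `T(w) = (1/(2K^3)) sum_(M=1..2K) |sum_(j<M) w^j|^2`.  For `|w| = 1`: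
`T(w) ≥ (1/12288) min(1, (K|1-w|)^(-2))`.  Indeed if `|1-w| ≥ 4/K`, then
`2K^3 |1-w|^2 T = sum_M |1-w^M|^2 = 4K - 2 Re sum_(M≤2K) w^M ≥ 4K - 4/|1-w| ≥ 3K`.
If `|1-w| < 4/K`: for `M ≤ K/4` one has
`|sum_(j<M) w^j| ≥ M - sum_(j<M) j|1-w| ≥ M - (M^2/2)(4/K) ≥ M/2`, so for `K ≥ 4` (integer part of `K/4` is
`≥ K/8`) `T ≥ (1/(8K^3)) (K/8)^3/3 = 1/12288`; for `K < 4` the term `M = 1` gives `T ≥ 1/54`.
(4) For `|w| = 1`: `T(w) = Re τ(w)` with the polynomial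
`τ(w) = (1/(2K^3)) sum_(M=1..2K) (M + 2 sum_(1≤j<M) (M-j) w^j) = τ_0 + sum_j τ_j w^j`,
`τ_0 = (2K+1)/(2K^2) ≤ 3/(2K)`, `0 ≤ j τ_j ≤ 4`.
(5) The entire function `Φ(w) = (1-w) exp(sum_(j≤2K) b_j w^j/j - 36864 τ(w))` satisfies `|Φ| ≤ 1` for
`|w| = 1` by (1)-(4) (`3 * 12288 = 36864`), hence for `|w| ≤ 1` (maximum modulus principle).  So
`|1-w| ≤ exp(36864 τ_0 - Re sum_(j=1..2K) (b_j/j - 36864 τ_j) w^j)`; take
`bb_j = b_j - 36864 j τ_j` (`0` for `j > 2K` and `j = 0`), `C = 150000`. -/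
def StMAJ : Prop := ∃ C : ℝ, 1 ≤ C ∧ ∀ K : ℕ, 1 ≤ K → ∃ bb : ℕ → ℝ, MajOK C K bb

/-- **LOG**.  Proof.  FAC: `Lp Χ D = prod_(i<n) (1 - α_i X)`, `n + 1 ≤ D`, `Psi Χ j = - sum α_i^j`.  If
`α_i ≠ 0` then `1/α_i` is a zero, so `q |α_i|^(-2) ≥ 1` and `|α_i u| ≤ 1`.  Apply MajOK to `w = α_i u` and
multiply: `prod |1 - α_i u| ≤ exp(n C/K - Re sum_j (bb_j/j) sum_i (α_i u)^j)`
`= exp(n C/K + Re sum_j (bb_j/j) Psi_j u^j)`, and `n ≤ D`. -/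
def StLOG : Prop := ∀ (C : ℝ) (K : ℕ) (bb : ℕ → ℝ), 1 ≤ K → MajOK C K bb →
  ∀ (F : Type) [Field F] [Fintype F] (Χ : F[X] → ℂ) (D : ℕ), CM Χ →
  (∀ d : ℕ, D ≤ d → Asum Χ d = 0) →
  (∀ z : ℂ, (Lp Χ D).eval z = 0 → 1 ≤ qr F * ‖z‖ ^ 2) →
  ∀ u : ℂ, qr F * ‖u‖ ^ 2 = 1 →
    ‖(Lp Χ D).eval u‖ ≤ Real.exp (C * D / K +
      (∑ j ∈ Finset.Icc 1 (2 * K), ((bb j / j : ℝ) : ℂ) * Psi Χ j * u ^ j).re)

/-- **IRB** (number of irreducible polynomials).  Proof.  PTS for `Χ = 1` (CM) and a field `L` with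
`q^d` elements (EXF): `q^d = |L| = Psi 1 d = sum_(e|d) e |Ir_e| ≥ d |Ir_d|`. -/
def StIRB : Prop := ∀ (F : Type) [Field F] [Fintype F] (d : ℕ), 1 ≤ d →
  (d : ℝ) * ((Ir F d).card : ℝ) ≤ qr F ^ d

/-- **PSB** (prime powers are harmless).  Proof.  The terms `d | j`, `d < j` of `Psi Χ j` are bounded
by `d |Ir_d| ≤ q^d` (IRB, `|Χ| ≤ 1`), and `d ≤ j/2`; `sum_(1≤d≤j/2) q^d ≤ 2 q^(j/2)` (`q ≥ 2`), and
`|u^j| = q^(-j/2)`.  The term `d = j` is `j sum_(P ∈ Ir_j) Χ(P)`. -/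
def StPSB : Prop := ∀ (F : Type) [Field F] [Fintype F] (Χ : F[X] → ℂ), CM Χ →
  ∀ (j : ℕ) (u : ℂ), 1 ≤ j → qr F * ‖u‖ ^ 2 = 1 →
    ‖Psi Χ j * u ^ j / j - ∑ P ∈ Ir F j, Χ P * u ^ j‖ ≤ 2 / j

/-- **PRB** (bound of `|L(u)|` by a prime sum of length `2K`).
Proof.  `C1 = C` of MAJ (it depends on nothing), `bb` of MAJ for `K`.  `Χ = Hk r N χ ξ` is CM (CMH), has
zero sums for `d ≥ D = deg r + N` (ZS, `NTx ξ`) and satisfies RH; apply LOG.  The real part of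
`sum (bb_j/j) Psi_j u^j` is at most `|sum_(j≤2K) bb_j sum_(P∈Ir_j) Χ(P) u^j| + sum_(j≤2K) C1 2/j`
(PSB), the second sum is `≤ 2 C1 (1 + log(2K))`, and removing `P = X` from the first sum (`j = 1`) costs
`≤ C1 |u| ≤ C1`. -/
def StPRB : Prop := ∃ C1 : ℝ, 1 ≤ C1 ∧ ∀ K : ℕ, 1 ≤ K → ∃ bb : ℕ → ℝ, (∀ j, |bb j| ≤ C1) ∧
  ∀ (F : Type) [Field F] [Fintype F] (r : F[X]) (N : ℕ)
    (χ : MulChar (AdjoinRoot r) ℂ) (ξ : MulChar (TN F N) ℂ) (u : ℂ), r.Monic → NTx ξ →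
    qr F * ‖u‖ ^ 2 = 1 →
    ‖(Lp (Hk r N χ ξ) (r.natDegree + N)).eval u‖ ≤
      Real.exp (C1 * (r.natDegree + N : ℕ) / K + 2 * C1 * (2 + Real.log (2 * K)) +
        ‖SP bb 0 (2 * K) (Hk r N χ ξ) u‖)

/-- **ORT** (orthogonality for `TN F N`).  `mk v` is a unit iff `v(0) ≠ 0` (coprime to `X^(N+1)`); the
number of units is ` (q-1) q^N = uN F N`; sum over all characters of a finite abelian group (the
multiplicative characters of the finite ring with values in `ℂ` are the characters of its unit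
group; `ℂ` has enough roots of unity), `conj ξ(w) = ξ(w^(-1))`. -/
def StORT : Prop := ∀ (F : Type) [Field F] [Fintype F] (N : ℕ) (v w : F[X]),
  v.coeff 0 ≠ 0 → w.coeff 0 ≠ 0 →
  (AdjoinRoot.mk (X ^ (N + 1) : F[X]) v = AdjoinRoot.mk (X ^ (N + 1) : F[X]) w →
    ∑ ξ ∈ allF (MulChar (TN F N) ℂ), ξ (AdjoinRoot.mk (X ^ (N + 1) : F[X]) v) *
      (starRingEnd ℂ) (ξ (AdjoinRoot.mk (X ^ (N + 1) : F[X]) w)) = (uN F N : ℂ)) ∧
  (AdjoinRoot.mk (X ^ (N + 1) : F[X]) v ≠ AdjoinRoot.mk (X ^ (N + 1) : F[X]) w →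
    ∑ ξ ∈ allF (MulChar (TN F N) ℂ), ξ (AdjoinRoot.mk (X ^ (N + 1) : F[X]) v) *
      (starRingEnd ℂ) (ξ (AdjoinRoot.mk (X ^ (N + 1) : F[X]) w)) = 0)

/-- **ORR** (orthogonality modulo `r`).  The number of units of `AdjoinRoot r` is `phi r`; `mk f` is a
unit iff `f` is prime to `r`. -/
def StORR : Prop := ∀ (F : Type) [Field F] [Fintype F] (r f g : F[X]), r.Monic →
  IsCoprime f r → IsCoprime g r →
  ((allF (MulChar (AdjoinRoot r) ℂ)).card = phi r) ∧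
  (r ∣ f - g → ∑ χ ∈ allF (MulChar (AdjoinRoot r) ℂ), χ (AdjoinRoot.mk r f) *
      (starRingEnd ℂ) (χ (AdjoinRoot.mk r g)) = (phi r : ℂ)) ∧
  (¬ r ∣ f - g → ∑ χ ∈ allF (MulChar (AdjoinRoot r) ℂ), χ (AdjoinRoot.mk r f) *
      (starRingEnd ℂ) (χ (AdjoinRoot.mk r g)) = 0)

/-- **MOM** (high moments of prime sums).
Proof.  ` (sum_P a_P Χ(P))^l = sum_f ν(f) χ(f) ξ(f*)`, where `f` runs over the products of `l` elements
of `PP` and `ν(f) = sum` of `a_(P_1) ⋯ a_(P_l)` over the ` (P_1,…,P_l) ∈ PP^l` with product `f`.  The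
`f` are monic of degree `≤ l B ≤ N` with `f(0) ≠ 0` (no factor `X`).  If `f* ≡ g* mod X^(N+1)` for two of
them, then `f* = g*` (degrees `≤ N`), and `f = g` (`reverse` is an involution on polynomials with
nonzero constant coefficient).  So by ORT the sum over `ξ` of the square of the absolute value is
`uN sum_f |ν(f) χ(f)|^2 ≤ uN sum_f |ν(f)|^2`.  The tuples with product `f` are rearrangements of each
other (unique factorization, all `P` monic irreducible), so there are at most `l!` of them, and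
`|ν(f)|^2 ≤ l! sum |a_(P_1) ⋯ a_(P_l)|^2`.  Sum over `f`: `l! (sum |a_P|^2)^l`. -/
def StMOM : Prop := ∀ (F : Type) [Field F] [Fintype F] (r : F[X]) (N B l : ℕ)
  (χ : MulChar (AdjoinRoot r) ℂ) (PP : Finset F[X]) (a : F[X] → ℂ), r.Monic → l * B ≤ N →
  (∀ P ∈ PP, P.Monic ∧ Irreducible P ∧ P ≠ X ∧ P.natDegree ≤ B) →
  ∑ ξ ∈ allF (MulChar (TN F N) ℂ), ‖∑ P ∈ PP, a P * Hk r N χ ξ P‖ ^ (2 * l) ≤
    uN F N * (l.factorial : ℝ) * (∑ P ∈ PP, ‖a P‖ ^ 2) ^ l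

/-- **CNT** (large values of prime sums).
Proof.  MOM with `PP` the union of the `IrX F j`, `A < j ≤ B`, `a P = bb_j u^j` (`j = deg P`): with IRB
`sum |a_P|^2 ≤ C1^2 sum_(A<j≤B) |Ir_j| q^(-j) ≤ C1^2 sum 1/j`; `l! ≤ l^l`; the number of `ξ` with
`|SP| ≥ x` is at most `x^(-2l)` times the moment. -/
def StCNT : Prop := ∀ (F : Type) [Field F] [Fintype F] (r : F[X]) (N A B l : ℕ)
  (χ : MulChar (AdjoinRoot r) ℂ) (u : ℂ) (bb : ℕ → ℝ) (C1 x : ℝ), r.Monic → l * B ≤ N →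
  qr F * ‖u‖ ^ 2 = 1 → (∀ j, |bb j| ≤ C1) → 0 < x →
  ∀ S : Finset (MulChar (TN F N) ℂ), (∀ ξ ∈ S, x ≤ ‖SP bb A B (Hk r N χ ξ) u‖) →
  (S.card : ℝ) ≤ uN F N * (l * C1 ^ 2 * (∑ j ∈ Finset.Ioc A B, (1 : ℝ) / j) / x ^ 2) ^ l

/-- **TRV** (trivial bound).  Proof.  `|A_d| ≤ q^d`, `|u|^d = q^(-d/2)`; `sum_(d<D) q^(d/2) ≤ D q^((D-1)/2)
≤ q^D` (`D ≤ 2^((D+1)/2)`). -/
def StTRV : Prop := ∀ (F : Type) [Field F] [Fintype F] (Χ : F[X] → ℂ) (D : ℕ) (u : ℂ), CM Χ →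
  qr F * ‖u‖ ^ 2 = 1 → ‖(Lp Χ D).eval u‖ ≤ qr F ^ D

/-- **TAI** (large values of `|L(u)|`; Soundararajan's method).
Proof.  `C1` from PRB; `D = deg r + N ≤ 2N`.  If `v > 2 N log q + 1` no `ξ` has `|L(u)| ≥ e^v` (TRV), so let
`v ≤ Cq N` with `Cq = 2 log q + 1`; `v ≥ 1`.  Let `c5 = 1/(4 (8 C1 + Cq))`.  Put
`K = ⌈4 C1 D / v⌉` (at least 1): `C1 D/K ≤ v/4` and `K ≤ 8 C1 N/v + 1 ≤ (8 C1 + Cq) N/v`, i.e.
`2K ≤ N/(2 c5 v)`.  If `C2` is large, `2 C1 (2 + log(2K)) ≤ v/4` (`K ≤ (8 C1 + Cq) N`, `v ≥ C2 log N`).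
So `|L(u)| ≥ e^v` implies `|SP bb 0 (2K)| ≥ v/2`, hence `|SP bb 0 B1| ≥ v/4` or `|SP bb B1 (2K)| ≥ v/4`
for `B1 = min(2K, N/((2k+2) v))` (integer part).
Small primes: CNT with `l = (2k+2) v`, `l B1 ≤ N`, `sum_(j≤B1) 1/j ≤ 1 + log N`:
the number is `≤ uN (16 (2k+2) C1^2 (1 + log N)/v)^l ≤ uN e^(-l)` for large `C2`.
Large primes: CNT with `l = ⌈c5 v⌉ ≤ 2 c5 v` (`v ≥ 1/c5` for large `C2`), so `2 K l ≤ N`.
`sum_(B1<j≤2K) 1/j ≤ C4 := 1 + log((2k+2)/c5)`: if `N ≥ (2k+2) v` then `B1 = 2K` (empty sum) or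
`B1 ≥ N/(2(2k+2)v)`, and the sum is `≤ log(2K/B1) ≤ log((2k+2)/c5)`; otherwise
`2K ≤ N/(2 c5 v) ≤ (2k+2)/(2 c5)` and the sum is `≤ 1 + log(2K)`.  So the number is
`≤ uN (16 l C1^2 C4/v^2)^l ≤ uN (32 c5 C1^2 C4/v)^l ≤ uN exp(-(2k+1) l/c5) ≤ uN exp(-(2k+1) v)` when
`v ≥ 32 c5 C1^2 C4 exp((2k+1)/c5)`, true if `C2` is large (`log N ≥ log 2`). -/
def StTAI : Prop := ∀ (F : Type) [Field F] [Fintype F] (k : ℕ), ∃ C2 : ℝ, 0 < C2 ∧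
  ∀ (N v : ℕ) (r : F[X]) (χ : MulChar (AdjoinRoot r) ℂ) (u : ℂ), 2 ≤ N → r.Monic →
  r.natDegree ≤ N → qr F * ‖u‖ ^ 2 = 1 → C2 * Real.log N ≤ v →
  ∀ S : Finset (MulChar (TN F N) ℂ), S ⊆ XiNT F N →
    (∀ ξ ∈ S, Real.exp v ≤ ‖(Lp (Hk r N χ ξ) (r.natDegree + N)).eval u‖) →
    (S.card : ℝ) ≤ uN F N * (2 * Real.exp (-(2 * k + 1) * v))

/-- **M2K** (moments).  Proof.  `v0 = ⌈C2 log N⌉`.  The characters with `|L(u)| < e^(v0)` contribute at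
most `uN e^(2k v0)` (there are `uN` characters in all: ORT with `v = w = 1`).  Those with
`e^v ≤ |L(u)| < e^(v+1)`, `v ≥ v0`, contribute at most `e^(2k(v+1)) uN 2 e^(-(2k+1)v)` by TAI
`= 2 e^(2k) uN e^(-v)`; by TRV only finitely many `v` occur; the sum over `v` is `≤ 4 e^(2k) uN`.
Altogether `≤ uN (e^(2k v0) + 4 e^(2k)) ≤ uN N^C` for a suitable natural number `C` (`N ≥ 2`). -/
def StM2K : Prop := ∀ (F : Type) [Field F] [Fintype F] (k : ℕ), ∃ C : ℕ,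
  ∀ (N : ℕ) (r : F[X]) (χ : MulChar (AdjoinRoot r) ℂ) (u : ℂ), 2 ≤ N → r.Monic →
  r.natDegree ≤ N → qr F * ‖u‖ ^ 2 = 1 →
  ∑ ξ ∈ XiNT F N, ‖(Lp (Hk r N χ ξ) (r.natDegree + N)).eval u‖ ^ (2 * k) ≤
    uN F N * (N : ℝ) ^ C

/-! ### the divisor function -/

/-- **DKR** (recursion).  Proof.  A ` (k+1)`-tuple is a first entry `g` (a monic divisor of `f`) and a
`k`-tuple with product `f / g`. -/
def StDKR : Prop := ∀ (F : Type) [Field F] [Fintype F],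
  (dk 0 (1 : F[X]) = 1 ∧ ∀ f : F[X], f.Monic → f ≠ 1 → dk 0 f = 0) ∧
  (∀ (k : ℕ) (f : F[X]), f.Monic → dk (k + 1) f = ∑ g ∈ Dv f, dk k (f / g)) ∧
  (∀ f : F[X], f.Monic → dk 1 f = 1) ∧
  (∀ (k : ℕ) (f : F[X]), f.Monic → 1 ≤ k → 1 ≤ dk k f)

/-- **CNV** (convolution sums).  For functions `a, b` on polynomials:
`sum_(f∈M_n) sum_(g | f) a(g) b(f/g) = sum_(i≤n) sum_(g∈M_i) sum_(h∈M_(n-i)) a(g) b(h)`. -/
def StCNV : Prop := ∀ (F : Type) [Field F] [Fintype F] (a b : F[X] → ℂ) (n : ℕ),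
  ∑ f ∈ Mn F n, ∑ g ∈ Dv f, a g * b (f / g) =
    ∑ i ∈ Finset.range (n + 1), ∑ g ∈ Mn F i, ∑ h ∈ Mn F (n - i), a g * b h

/-- **COE** (divisor sums are coefficients of `L^k`).
Proof.  Induction on `k` with DKR and CNV (`Χ` is multiplicative):
`sum_(f∈M_i) d_(k+1)(f) Χ(f) = sum_(j≤i) A_j(Χ) sum_(h∈M_(i-j)) d_k(h) Χ(h)`; the coefficients of
`Lp Χ D` are the `A_j(Χ)` for all `j` (zero for `j ≥ D`). -/
def StCOE : Prop := ∀ (F : Type) [Field F] [Fintype F] (Χ : F[X] → ℂ) (D : ℕ), CM Χ →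
  (∀ d : ℕ, D ≤ d → Asum Χ d = 0) → ∀ k i : ℕ,
  ∑ f ∈ Mn F i, (dk k f : ℂ) * Χ f = ((Lp Χ D) ^ k).coeff i

/-- **AVT** (Cauchy's bound, discrete).  Proof.  `z_j = ρ exp(2 π i j / T)`; for `natDegree G < T`:
` (1/T) sum_(j<T) |G(z_j)|^2 = sum_i |G_i|^2 ρ^(2i)` (orthogonality of the `T`-th roots of unity). -/
def StAVT : Prop := ∀ (T : ℕ) (ρ : ℝ), 1 ≤ T → 0 < ρ → ∃ z : ℕ → ℂ, (∀ j, ‖z j‖ = ρ) ∧
  ∀ G : ℂ[X], G.natDegree < T → ∀ i : ℕ, ‖G.coeff i‖ ^ 2 * ρ ^ (2 * i) ≤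
    (1 / (T : ℝ)) * ∑ j ∈ Finset.range T, ‖G.eval (z j)‖ ^ 2

/-- **DIS** (divisor sums twisted by characters, mean square over `ξ`).
Proof.  `Χ = Hk r N χ ξ`, `G = (Lp Χ D)^k`, `D = deg r + N`; COE, AVT with `T = k D + 1`, `ρ = q^(-1/2)`:
`|G_i|^2 q^(-i) ≤ (1/T) sum_j |Lp(z_j)|^(2k)`, the same points `z_j` for all `ξ`.  Sum over `ξ ∈ XiNT` and
use M2K for every `z_j`. -/
def StDIS : Prop := ∀ (F : Type) [Field F] [Fintype F] (k : ℕ), ∃ C : ℕ,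
  ∀ (N : ℕ) (r : F[X]) (χ : MulChar (AdjoinRoot r) ℂ), 2 ≤ N → r.Monic →
  r.natDegree ≤ N → ∀ i : ℕ,
  ∑ ξ ∈ XiNT F N, ‖∑ f ∈ Mn F i, (dk k f : ℂ) * Hk r N χ ξ f‖ ^ 2 ≤
    qr F ^ i * uN F N * (N : ℝ) ^ C

open scoped Classical in
/-- the polynomials of degree `< deg r` prime to `r`; `phi r` is their number by definition -/
def Lc {F : Type} [Field F] [Fintype F] (r : F[X]) : Finset F[X] :=
  (Lw F r.natDegree).filter (fun x => IsCoprime x r)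

theorem card_Lc {F : Type} [Field F] [Fintype F] (r : F[X]) : (Lc r).card = phi r := rfl

open scoped Classical in
/-- monic polynomials of degree `i` all of whose prime factors divide `r` -/
def Sm {F : Type} [Field F] [Fintype F] (r : F[X]) (i : ℕ) : Finset F[X] :=
  (Mn F i).filter (fun f => ∃ j : ℕ, f ∣ r ^ j)

open scoped Classical in
/-- monic polynomials of degree `i` prime to `r` -/
def Cp {F : Type} [Field F] [Fintype F] (r : F[X]) (i : ℕ) : Finset F[X] :=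
  (Mn F i).filter (fun f => IsCoprime f r)

/-- `kap k r n = sum over f0 in Sm r i, i ≤ n, of d_k(f0) q^(-i/2)` -/
def kap {F : Type} [Field F] [Fintype F] (k : ℕ) (r : F[X]) (n : ℕ) : ℝ :=
  ∑ i ∈ Finset.range (n + 1), ∑ f ∈ Sm r i, (dk k f : ℝ) * ((Real.sqrt (qr F))⁻¹) ^ i

/-- **SPL** (splitting off the `r`-part).  Proof.  Every monic `f` is uniquely `f = f0 f1` with
`f0 | r^j` for some `j` and `f1` prime to `r`, both monic (e.g. `f0 = gcd(f, r^n)` normalized,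
`n = deg f`; or by unique factorization). -/
def StSPL : Prop := ∀ (F : Type) [Field F] [Fintype F] (r : F[X]) (n : ℕ) (g : F[X] → ℂ),
  r.Monic → ∑ f ∈ Mn F n, g f = ∑ i ∈ Finset.range (n + 1), ∑ f0 ∈ Sm r i,
    ∑ f1 ∈ Cp r (n - i), g (f0 * f1)

/-- **DKM** (`d_k` is multiplicative).  Proof.  For coprime monic `f, g` the map
` (a_i), (b_i) ↦ (a_i b_i)` is a bijection from pairs of factorizations to factorizations of `f g`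
(inverse: gcd with `f`, gcd with `g`, normalized). -/
def StDKM : Prop := ∀ (F : Type) [Field F] [Fintype F] (k : ℕ) (f g : F[X]), f.Monic →
  g.Monic → IsCoprime f g → dk k (f * g) = dk k f * dk k g

/-- **UPR** (expansion of functions on the units modulo `r`).
Proof.  `c χ = (1/phi r) sum_(x ∈ Lw, coprime) w(x) conj χ(x)`; ORR; Parseval
`sum_χ |c χ|^2 = (1/phi r) sum_x |w(x)|^2 ≤ 1`. -/
def StUPR : Prop := ∀ (F : Type) [Field F] [Fintype F] (r : F[X]) (w : F[X] → ℂ), r.Monic →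
  (∀ f, ‖w f‖ ≤ 1) → (∀ f g : F[X], r ∣ f - g → w f = w g) →
  ∃ c : MulChar (AdjoinRoot r) ℂ → ℂ,
    (∀ f : F[X], IsCoprime f r → w f = ∑ χ ∈ allF (MulChar (AdjoinRoot r) ℂ),
      c χ * χ (AdjoinRoot.mk r f)) ∧
    ∑ χ ∈ allF (MulChar (AdjoinRoot r) ℂ), ‖c χ‖ ^ 2 ≤ 1 ∧
    (phi r : ℂ) * c 1 = ∑ x ∈ Lc r, w x

/-- **TXB** (twisted divisor sums).
Proof.  SPL and DKM: the inner sum is
`sum_(i≤n) sum_(f0∈Sm r i) d_k(f0) ξ(f0*) sum_(f1∈Cp r (n-i)) d_k(f1) w(f0 f1) ξ(f1*)`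
(`reverse` is multiplicative).  For fixed `f0` the function `w(f0 ·)` is periodic and bounded by 1; UPR:
the inner sum equals `sum_χ c(χ) sum_(f1∈M_(n-i)) d_k(f1) Hk r N χ ξ f1` (`χ` vanishes on polynomials not
prime to `r`), so its absolute value squared is `≤ sum_χ |sum_(f1) d_k(f1) Hk r N χ ξ f1|^2`.  By
DIS and the number `phi r` of characters (ORR) the sum over `ξ ∈ XiNT` of it is
`≤ phi(r) q^(n-i) uN N^C`.  Minkowski's inequality in `l^2(XiNT)`, `|ξ(f0*)| ≤ 1`: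
the square root of the left side is at most
`sum_i sum_(f0) d_k(f0) (phi(r) q^(n-i) uN N^C)^(1/2) = kap k r n (phi(r) q^n uN N^C)^(1/2)`. -/
def StTXB : Prop := ∀ (F : Type) [Field F] [Fintype F] (k : ℕ), ∃ C : ℕ,
  ∀ (N n : ℕ) (r : F[X]) (w : F[X] → ℂ), 2 ≤ N → r.Monic → r.natDegree ≤ N →
  (∀ f, ‖w f‖ ≤ 1) → (∀ f g : F[X], r ∣ f - g → w f = w g) →
  ∑ ξ ∈ XiNT F N, ‖∑ f ∈ Mn F n, (dk k f : ℂ) * w f *
      ξ (AdjoinRoot.mk (X ^ (N + 1) : F[X]) f.reverse)‖ ^ 2 ≤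
    kap k r n ^ 2 * (qr F ^ n * phi r * uN F N * (N : ℝ) ^ C)

/-- **VAR** (variance over short intervals = mean square over `XiNT`).
Proof.  `f = X^j G + g` with `G ∈ M_N`, `deg g < j` is a bijection onto `M_(N+j)`, and
`f.reverse ≡ G.reverse mod X^(N+1)`; distinct `G ∈ M_N` have distinct classes.  With
`B_G = sum_g w(X^j G + g)` ORT gives `sum_(all ξ) |sum_G B_G ξ(G*)|^2 = uN sum_G |B_G|^2`.  A character
not in `XiNT` is 1 on all `G*` (constant coefficient 1), and it contributes `|sum_G B_G|^2`; their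
number is `uN / q^N`: apply the identity with `B_G = 1`, where the characters in `XiNT` contribute
zero (ZS with `r = 1`, `d = N`, or directly).  Finally
`sum_G |B_G - m|^2 = sum_G |B_G|^2 - q^(-N) |sum_G B_G|^2` for the mean `m`. -/
def StVAR : Prop := ∀ (F : Type) [Field F] [Fintype F] (N j : ℕ) (w : F[X] → ℂ),
  ∑ G ∈ Mn F N, ‖∑ g ∈ Lw F j, w (X ^ j * G + g) -
      ((qr F ^ N : ℝ) : ℂ)⁻¹ * ∑ f ∈ Mn F (N + j), w f‖ ^ 2 =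
    (uN F N)⁻¹ * ∑ ξ ∈ XiNT F N, ‖∑ f ∈ Mn F (N + j), w f *
      ξ (AdjoinRoot.mk (X ^ (N + 1) : F[X]) f.reverse)‖ ^ 2

/-- **EBD** (variance of `d_k` twisted by a periodic function over short intervals): TXB and VAR. -/
def StEBD : Prop := ∀ (F : Type) [Field F] [Fintype F] (k : ℕ), ∃ C : ℕ,
  ∀ (N j : ℕ) (r : F[X]) (w : F[X] → ℂ), 2 ≤ N → r.Monic → r.natDegree ≤ N →
  (∀ f, ‖w f‖ ≤ 1) → (∀ f g : F[X], r ∣ f - g → w f = w g) →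
  ∑ G ∈ Mn F N, ‖∑ g ∈ Lw F j, (dk k (X ^ j * G + g) : ℂ) * w (X ^ j * G + g) -
      ((qr F ^ N : ℝ) : ℂ)⁻¹ * ∑ f ∈ Mn F (N + j), (dk k f : ℂ) * w f‖ ^ 2 ≤
    kap k r (N + j) ^ 2 * (qr F ^ (N + j) * phi r * (N : ℝ) ^ C)

/-- **TAU** (the number of divisors is small).  Proof.  The classical one: `τ(f) = prod (a_P + 1)`;
for `|P|^ε ≥ 2` one has `a + 1 ≤ 2^a ≤ |P|^(ε a)`, and for the finitely many (at most `q^(d0+1)`) other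
`P` one has `a + 1 ≤ C_0 |P|^(ε a)`, `C_0` depending only on `ε` (`|P| ≥ 2`).  Induction over the prime
factorization. -/
def StTAU : Prop := ∀ (F : Type) [Field F] [Fintype F] (ε : ℝ), 0 < ε → ∃ C : ℝ, 1 ≤ C ∧
  ∀ f : F[X], f.Monic → ((Dv f).card : ℝ) ≤ C * qr F ^ (ε * f.natDegree)

/-- **DKB** (sums of divisor functions).
Proof.  DKR, CNV by induction on `k`: `sum_(f∈M_n) d_(k+1)(f) = sum_(i≤n) q^i sum_(h∈M_(n-i)) d_k(h)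
≤ sum_i q^i q^(n-i) (n+1)^k`.  Squares: `d_k(f)^2 ≤ d_(k k)(f)`: given two factorizations
`f = prod g_i = prod h_j` there is a matrix of monic `a_ij` with row products `g_i` and column products
`h_j` (Riesz refinement in the UFD `F[X]`), and it determines both factorizations, so the number of
pairs is at most the number of `k^2`-tuples with product `f`.  (Or: `d_k(f g) ≤ d_k(f) d_k(g)` and
`sum_f d_k(f)^2 = sum_(g_1,…,g_k) d_k(g_1 ⋯ g_k) ≤ sum prod d_k(g_i)`, which is the sum of `d_(k k)`.) -/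
def StDKB : Prop := ∀ (F : Type) [Field F] [Fintype F] (k n : ℕ),
  (∑ f ∈ Mn F n, (dk k f : ℝ)) ≤ qr F ^ n * (n + 1) ^ k ∧
  (∑ f ∈ Mn F n, (dk k f : ℝ) ^ 2) ≤ qr F ^ n * (n + 1) ^ (k * k)

/-- **KAP** (`kap` is small).
Proof.  First `kap k r n ≤ (sum_(i≤n) sum_(f∈Sm r i) q^(-i/2))^k` (DKR, CNV restricted to `Sm`: divisors
and cofactors of elements of `Sm` are in `Sm`; induction on `k`).  Then
`sum_(i≤n) sum_(f∈Sm r i) |f|^(-1/2) ≤ prod_(P | r) (1 - |P|^(-1/2))^(-1)` (each such `f` is a product of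
powers of the primes dividing `r`; finite products of geometric series), each factor is
`≤ (1 - 2^(-1/2))^(-1) ≤ 4`, and `≤ |P|^δ` for the `P` of degree `≥ d0(δ)`; there are at most
`q^(d0+1)` primes of degree `< d0`; so the product is `≤ C |r|^δ`.  Take `δ = ε/k`. -/
def StKAP : Prop := ∀ (F : Type) [Field F] [Fintype F] (k : ℕ) (ε : ℝ), 0 < ε → ∃ C : ℝ, 1 ≤ C ∧
  ∀ (r : F[X]) (n : ℕ), r.Monic → kap k r n ≤ C * qr F ^ (ε * r.natDegree)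

end

end Pool.Agent.Helper15.FC
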