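import Pool.Agent.Helper58.FC.M_CMH
import Pool.Agent.Helper95.FC.M_ZS
import Pool.Agent.Helper31.FC.M_NWT
import Pool.Agent.Helper8.FC.M_FAC
import Pool.Agent.Helper48.FC.M_PTS
import Pool.Agent.Helper42.FC.M_PRD
import Pool.Agent.Helper24.FC.M_EXF
import Pool.Agent.Helper39.FC.M_SOL
import Pool.Agent.Helper21.FC.M_MAT
import Pool.Agent.Helper26.FC.M_GR0
import Pool.Agent.Helper94.FC.M_GR1
import Pool.Agent.Helper29.FC.M_RED
import Pool.Agent.Helper70.FC.M_LIN
import Pool.Agent.Helper64.FC.M_DAT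
import Pool.Agent.Helper31.FC.M_VB
import Pool.Agent.Helper60.FC.M_DM
import Pool.Agent.Helper22.FC.M_EXT
import Pool.Agent.Helper33.FC.M_HC
import Pool.Agent.Helper6.FC.M_NUM
import Pool.Agent.Helper76.FC.M_DEG
import Pool.Agent.Helper2.FC.M_ORD
import Pool.Agent.Helper9.FC.M_INJ
import Pool.Agent.Helper36.FC.M_KER
import Pool.Agent.Helper2.FC.M_MOD
import Pool.Agent.Helper28.FC.M_RDC
import Pool.Agent.Helper11.FC.M_DVD
import Pool.Agent.Helper16.FC.M_UB
import Pool.Agent.Helper75.FC.M_UBH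
import Pool.Agent.Helper40.FC.M_STP
import Pool.Agent.Helper78.FC.M_GRP
import Pool.Agent.Helper89.FC.M_HEC
import Pool.Agent.Helper62.FC.M_PWR
import Pool.Agent.Helper72.FC.M_RH
import Pool.Agent.Helper42.FC.M_WRH
import Pool.Agent.Helper64.FC.M_WS1
import Pool.Agent.Helper37.FC.M_WMC
import Pool.Agent.Helper73.FC.M_WAC
import Pool.Agent.Helper29.FC.M_WMX
import Pool.Agent.Helper8.FC.M_WKL
import Pool.Agent.Helper53.FC.M_IRB
import Pool.Agent.Helper15.FC.St4

set_option autoImplicit false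

/-!
# Weil bounds and the Riemann hypothesis for Hecke characters of F[X] (tools for everybody)

No hypotheses.  `wRH : StRH` (zeros of the L-polynomials of all characters
`f ↦ χ(f mod r) ξ(f* mod X^(N+1))`), `wWRH` (prime power sums), `wWS1` (sums over the field),
`wWMC` (sum of χ(f(x)), bound (deg f - 1) sqrt q), `wWAC` (sum of ψ(f(x)), degree prime to p),
`wWMX` (mixed sums), `wWKL` (Kloosterman sums, bound 2 sqrt q).
The statements are in St1.lean and St4.lean.
-/

namespace Pool.Agent.Helper15.FC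

theorem wCMH : StCMH := Pool.Agent.Helper58.FC.hCMH

theorem wZS : StZS := Pool.Agent.Helper95.FC.hZS

private theorem wNWT : StNWT := Pool.Agent.Helper31.FC.hNWT

theorem wFAC : StFAC := Pool.Agent.Helper8.FC.hFAC wNWT

private theorem wPTS : StPTS := Pool.Agent.Helper48.FC.hPTS

private theorem wPRD : StPRD := Pool.Agent.Helper42.FC.hPRD

private theorem wEXF : StEXF := Pool.Agent.Helper24.FC.hEXF

private theorem wSOL : StSOL := Pool.Agent.Helper39.FC.hSOL

private theorem wMAT : StMAT := Pool.Agent.Helper21.FC.hMAT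

private theorem wGR0 : StGR0 := Pool.Agent.Helper26.FC.hGR0 wEXF

private theorem wGR1 : StGR1 := Pool.Agent.Helper94.FC.hGR1

private theorem wRED : StRED := Pool.Agent.Helper29.FC.hRED

private theorem wLIN : StLIN := Pool.Agent.Helper70.FC.hLIN

private theorem wDAT : StDAT := Pool.Agent.Helper64.FC.hDAT wRED wLIN

private theorem wVB : StVB := Pool.Agent.Helper31.FC.hVB

private theorem wDM : StDM := Pool.Agent.Helper60.FC.hDM wVB

private theorem wEXT : StEXT := Pool.Agent.Helper22.FC.hEXT wVB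

private theorem wHC : StHC := Pool.Agent.Helper33.FC.hHC

private theorem wNUM : StNUM := Pool.Agent.Helper6.FC.hNUM

private theorem wDEG : StDEG := Pool.Agent.Helper76.FC.hDEG wVB

private theorem wORD : StORD := Pool.Agent.Helper2.FC.hORD wVB

private theorem wINJ : StINJ := Pool.Agent.Helper9.FC.hINJ

private theorem wKER : StKER := Pool.Agent.Helper36.FC.hKER

private theorem wMOD : StMOD := Pool.Agent.Helper2.FC.hMOD

private theorem wRDC : StRDC := Pool.Agent.Helper28.FC.hRDC wMOD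

private theorem wDVD : StDVD := Pool.Agent.Helper11.FC.hDVD

private theorem wUB : StUB := Pool.Agent.Helper16.FC.hUB wVB wDAT wDEG wORD wINJ wKER wMOD wRDC wDVD

private theorem wUBH : StUBH := Pool.Agent.Helper75.FC.hUBH wVB wDAT wDEG wMOD wDVD

private theorem wSTP : StSTP := Pool.Agent.Helper40.FC.hSTP wDAT wDM wEXT wHC wNUM wUB wUBH

private theorem wGRP : StGRP := Pool.Agent.Helper78.FC.hGRP wEXF wSOL wPRD wMAT wGR0 wGR1 wSTP

private theorem wHEC : StHEC := Pool.Agent.Helper89.FC.hHEC wPTS wPRD wGRP wCMH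

private theorem wPWR : StPWR := Pool.Agent.Helper62.FC.hPWR

theorem wRH : StRH := Pool.Agent.Helper72.FC.hRH wCMH wZS wFAC wHEC wPWR

theorem wWRH : StWRH := Pool.Agent.Helper42.FC.hWRH wCMH wZS wFAC wRH

theorem wWS1 : StWS1 := Pool.Agent.Helper64.FC.hWS1 wWRH

theorem wWMC : StWMC := Pool.Agent.Helper37.FC.hWMC wWS1

theorem wWAC : StWAC := Pool.Agent.Helper73.FC.hWAC wWS1

theorem wWMX : StWMX := Pool.Agent.Helper29.FC.hWMX wWS1

theorem wWKL : StWKL := Pool.Agent.Helper8.FC.hWKL wWS1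

theorem wIRB : StIRB := Pool.Agent.Helper53.FC.hIRB wPTS wEXF

end Pool.Agent.Helper15.FC
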